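import Pool.Agent.H24.GC.CoreB

/-!
# JOB GD-3: covers of the graph of an instance, general form

`Fine`: the conditions of `Inst.OK` (file `Pool.Agent.H24.GC.CoreB`) which do not mention variables and killer
pieces.

`core_fwd` is contained in the proof of `core`: take `nu` from `exists_nu`, and let `F` be a cover of the graph.
(1) The typing `ρ (q, w) = π w` (`Typed`, `sim_of_cover`; needs `sim1`, `sim2`): `Sim H (F (q, w)) (K.π w)`.
(2) For every `q` the functions `w ↦ F (q, w)`, `w w' ↦ F (nu q w w')` form a `PCov` with respect to the cut arcs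
of `q` (for `q = inl p`: `∃ o, pc o = p ∧ ar o = (w, w')`; for `q = inr o`: `cut1 (ar o)`).
(3) `a' o = (F (inr o, (ar o).1), F (inr o, (ar o).2))`. By `str1` for the spacer `o`:
`F (inl (pc o), (ar o).1) = (a' o).1` and `F (inl (pc (sg o)), (ar (sg o)).2) = (a' o).2` (formulas `hc1`, `hc2`,
`hv1`, `hv2` of `exists_nu`, see the proof of `core`).
(4) For the piece `p` let `f w = F (inl p, w)`, `φ w w' = F (nu (inl p) w w')`. For `pc o = p`:
`av f φ (ar o) = (F (inl p, (ar o).1), F (nu (inl p) (ar o).1 (ar o).2)) = ((a' o).1, F (inr o, (ar o).2)) = a' o`.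
With `o₁ = sg.symm o`: `bv f φ (ar o) = (F (nu (inl p) (ar o).2 (ar o).1), F (inl p, (ar o).2))
= (F (inr o₁, (ar o₁).1), (a' o₁).2) = a' o₁`.

`core_bwd`: the direction (⇐) of `core`, the same proof (it does not use the other conditions).
-/

namespace Pool.Agent.H24.GD

open Pool.Agent.H24.GC

variable {V : Type} {H : SimpleGraph V}

/-- the basic conditions on an instance -/
structure Fine (K : Kit H) (I : Inst K.W) : Prop where
  fin : Finite I.O
  adj : ∀ o, K.gr.Adj (I.ar o).1 (I.ar o).2
  inj : ∀ o o', I.pc o = I.pc o' → (I.ar o = I.ar o' ∨ I.ar o = (I.ar o').swap) → o = o'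
  sim1 : ∀ o, Sim H (K.π (I.ar (I.sg o)).1) (K.π (I.ar o).1)
  sim2 : ∀ o, Sim H (K.π (I.ar (I.sg o)).2) (K.π (I.ar o).2)
  str1 : ∀ o, Straight H K.gr K.π (cut1 (I.ar o))

theorem core_fwd [Finite V] {K : Kit H} {I : Inst K.W} (hI : Fine K I)
    (h : Covers (I.graph K.gr) H) :
    ∃ a' : I.O → V × V, ∀ p : I.P, ∃ (f : K.W → V) (φ : K.W → K.W → V),
      PCov H K.gr K.π (fun w w' => ∃ o, I.pc o = p ∧ I.ar o = (w, w')) f φ ∧
      ∀ o, I.pc o = p → av f φ (I.ar o) = a' o ∧ bv f φ (I.ar o) = a' (I.sg.symm o) := by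
  classical
  obtain ⟨nu, hbij, hin1, hin2, hv1, hv2, hc1, hc2⟩ := exists_nu (g := K.gr) hI.adj hI.inj
  have := hI.fin
  obtain ⟨F, hF⟩ := h
  -- types of the values of `nu`
  have hnu : ∀ q w w', K.gr.Adj w w' → Sim H (K.π w') (K.π (nu q w w').2) := by
    intro q w w' hw
    rcases q with p | o
    · rcases coreB_cases I p w w' with ⟨o, ho, har⟩ | ⟨o, ho, har⟩ | hun
      · have e := hv1 o
        rw [ho, har] at e
        rw [e]
        exact sim_refl H _
      · have e := hc2 (I.sg.symm o)
        have h1 := hI.sim1 (I.sg.symm o)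
        rw [Equiv.apply_symm_apply] at e h1
        rw [ho, har] at e
        rw [e]
        rw [har] at h1
        exact h1
      · rw [hin1 p w w' hw hun]
        exact sim_refl H _
    · by_cases h1 : I.ar o = (w, w')
      · have e := hc1 o
        rw [h1] at e
        rw [e]
        have h2 := hI.sim2 o
        rw [h1] at h2
        exact sim_symm h2
      · by_cases h2 : I.ar o = (w', w)
        · have e := hv2 o
          rw [h2] at e
          rw [e]
          exact sim_refl H _
        · rw [hin2 o w w' hw h1 h2]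
          exact sim_refl H _
  have htyped : Typed (I.graph K.gr) H (fun x : I.Vx => K.π x.2) := by
    rintro ⟨q, w⟩
    by_cases hne : Nonempty K.W
    · have hb := hbij q w
      refine ⟨fun b => K.π (Function.invFunOn (nu q w) (K.gr.neighborSet w) b), ?_, ?_⟩
      · refine coreB_bijOn hb ?_
        have hcov := K.cov w
        refine hcov.congr ?_
        intro w' hw'
        show K.π w' = K.π (Function.invFunOn (nu q w) (K.gr.neighborSet w) (nu q w w'))
        rw [hb.injOn.leftInvOn_invFunOn hw']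
      · intro b hadj
        obtain ⟨w', hw', e⟩ := hb.surjOn (show b ∈ (I.graph K.gr).neighborSet (q, w) from hadj)
        have e2 : Function.invFunOn (nu q w) (K.gr.neighborSet w) b = w' := by
          rw [← e]
          exact hb.injOn.leftInvOn_invFunOn hw'
        show Sim H (K.π (Function.invFunOn (nu q w) (K.gr.neighborSet w) b)) (K.π b.2)
        rw [e2, ← e]
        exact hnu q w w' hw'
    · exact absurd ⟨w⟩ hne
  have hsim : ∀ x : I.Vx, Sim H (F x) (K.π x.2) := fun x => sim_of_cover htyped hF x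
  have hpcov : ∀ (q : I.P ⊕ I.O) (cut : K.W → K.W → Prop),
      (∀ w w', K.gr.Adj w w' → ¬ cut w w' → ¬ cut w' w → nu q w w' = (q, w')) →
      PCov H K.gr K.π cut (fun w => F (q, w)) (fun w w' => F (nu q w w')) := by
    intro q cut hcut
    refine ⟨fun w => (hF (q, w)).comp (hbij q w), ?_, fun w => hsim (q, w), ?_⟩
    · intro w w' hw h1 h2
      show F (nu q w w') = F (q, w')
      rw [hcut w w' hw h1 h2]
    · intro w w' hw
      exact sim_trans (hsim (nu q w w')) (sim_symm (hnu q w w' hw))
  -- the spacers are straight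
  have hsp : ∀ o w w', K.gr.Adj w w' → F (nu (Sum.inr o) w w') = F (Sum.inr o, w') := by
    intro o
    refine hI.str1 o _ _ (hpcov (Sum.inr o) (cut1 (I.ar o)) ?_)
    intro w w' hw h1 h2
    exact hin2 o w w' hw (fun e => h1 e.symm) (fun e => h2 e.symm)
  have hsp1 : ∀ o, F (Sum.inl (I.pc o), (I.ar o).1) = F (Sum.inr o, (I.ar o).1) := by
    intro o
    have h := hsp o _ _ (hI.adj o).symm
    rw [hv2 o] at h
    exact h
  have hsp2 : ∀ o, F (Sum.inl (I.pc (I.sg o)), (I.ar (I.sg o)).2) =
      F (Sum.inr o, (I.ar o).2) := by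
    intro o
    have h := hsp o _ _ (hI.adj o)
    rw [hc1 o] at h
    exact h
  refine ⟨fun o => (F (Sum.inr o, (I.ar o).1), F (Sum.inr o, (I.ar o).2)), fun p =>
    ⟨fun w => F (Sum.inl p, w), fun w w' => F (nu (Sum.inl p) w w'), ?_, ?_⟩⟩
  · refine hpcov (Sum.inl p) _ ?_
    intro w w' hw h1 h2
    exact hin1 _ w w' hw (fun o' ho' => ⟨fun e => h1 ⟨o', ho', e⟩, fun e => h2 ⟨o', ho', e⟩⟩)
  · intro o ho
    subst ho
    constructor
    · show (F (Sum.inl (I.pc o), (I.ar o).1), F (nu (Sum.inl (I.pc o)) (I.ar o).1 (I.ar o).2)) =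
        (F (Sum.inr o, (I.ar o).1), F (Sum.inr o, (I.ar o).2))
      rw [hsp1 o, hv1 o]
    · have e1 := hc2 (I.sg.symm o)
      have e2 := hsp2 (I.sg.symm o)
      rw [Equiv.apply_symm_apply] at e1 e2
      show (F (nu (Sum.inl (I.pc o)) (I.ar o).2 (I.ar o).1), F (Sum.inl (I.pc o), (I.ar o).2)) =
        (F (Sum.inr (I.sg.symm o), (I.ar (I.sg.symm o)).1),
          F (Sum.inr (I.sg.symm o), (I.ar (I.sg.symm o)).2))
      rw [e1, e2]

theorem core_bwd {K : Kit H} {I : Inst K.W}
    (hadj : ∀ o, K.gr.Adj (I.ar o).1 (I.ar o).2)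
    (hinj : ∀ o o', I.pc o = I.pc o' → (I.ar o = I.ar o' ∨ I.ar o = (I.ar o').swap) → o = o')
    {Z : Type} {var : I.O → Z} (hv : ∀ o, var (I.sg o) = var o) (a : Z → V × V)
    (h : ∀ p, ∃ f : K.W → V, IsCover K.gr H f ∧
      ∀ o, I.pc o = p → (f (I.ar o).1, f (I.ar o).2) = a (var o)) :
    Covers (I.graph K.gr) H := by
  classical
  obtain ⟨nu, hbij, hin1, hin2, hv1, hv2, hc1, hc2⟩ := exists_nu (g := K.gr) hadj hinj
  choose f hf hfa using h
  have hf1 : ∀ o, f (I.pc o) (I.ar o).1 = (a (var o)).1 := fun o =>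
    (Prod.ext_iff.1 (hfa (I.pc o) o rfl)).1
  have hf2 : ∀ o, f (I.pc o) (I.ar o).2 = (a (var o)).2 := fun o =>
    (Prod.ext_iff.1 (hfa (I.pc o) o rfl)).2
  -- the cover belonging to a copy
  set fq : I.P ⊕ I.O → K.W → V := fun q => Sum.elim f (fun o => f (I.pc o)) q with hfq
  have hkey : ∀ q w w', K.gr.Adj w w' → fq (nu q w w').1 (nu q w w').2 = fq q w' := by
    intro q w w' hw
    rcases q with p | o
    · rcases coreB_cases I p w w' with ⟨o, ho, har⟩ | ⟨o, ho, har⟩ | hun
      · have e := hv1 o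
        rw [ho, har] at e
        rw [e]
        show f (I.pc o) w' = f p w'
        rw [ho]
      · have e := hc2 (I.sg.symm o)
        have e1 := hf1 (I.sg.symm o)
        have e2 := hf1 o
        have e3 := hv (I.sg.symm o)
        rw [Equiv.apply_symm_apply] at e e3
        rw [ho, har] at e
        rw [ho, har, e3] at e2
        rw [e]
        show f (I.pc (I.sg.symm o)) (I.ar (I.sg.symm o)).1 = f p w'
        rw [e1]
        exact e2.symm
      · rw [hin1 p w w' hw hun]
    · by_cases h1 : I.ar o = (w, w')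
      · have e := hc1 o
        have e1 := hf2 (I.sg o)
        have e2 := hf2 o
        rw [hv o] at e1
        rw [h1] at e e2
        rw [e]
        show f (I.pc (I.sg o)) (I.ar (I.sg o)).2 = f (I.pc o) w'
        rw [e1]
        exact e2.symm
      · by_cases h2 : I.ar o = (w', w)
        · have e := hv2 o
          rw [h2] at e
          rw [e]
          rfl
        · rw [hin2 o w w' hw h1 h2]
  refine ⟨fun x => fq x.1 x.2, ?_⟩
  rintro ⟨q, w⟩
  refine coreB_bijOn (hbij q w) ?_
  have hcov : Set.BijOn (fq q) (K.gr.neighborSet w) (H.neighborSet (fq q w)) := by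
    rcases q with p | o
    · exact hf p w
    · exact hf (I.pc o) w
  refine hcov.congr ?_
  intro w' hw'
  exact (hkey q w w' hw').symm

end Pool.Agent.H24.GD
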