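import Pool.Agent.H24.GC.DLem

/-!
# JOB GD-1: the flow lemma for graphs with small edge cuts

Project GD (helper24), MP_cb20e7_lc, continues Pool.Agent.H24.GC. `CutOK H P`: an edge cut all of whose edges
satisfy `P` has at least three edges or contains two disjoint edges. (So there is no cut with `0` or `1`
edges, and the two edges of a cut with two edges are disjoint.)

`n_const2`. Let `W e = dlW a₁ a₂ b₁ b₂ e` (file `Pool.Agent.H24.GC.DLem`): `∑ e, W e = 4` (`dl_sumW`), `0 ≤ W e`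
(`dl_W_nonneg`) and `n x - n y ≤ W (x, y)` if `H.Adj x y` (`dl_W_ge`; see how `dl_gap` uses them). Suppose that
`n` is not constant `c`. As `∑ (n x - c) = 0` there are `x₊`, `x₋` with `c < n x₊`, `n x₋ < c`. Let
`S₁ = {x | c + 1 ≤ n x}`, `S₂ = {x | c ≤ n x}`; both contain `x₊` and not `x₋`. Let
`E i = {e | e.1 ∈ S i ∧ e.2 ∈ (S i)ᶜ ∧ H.Adj e.1 e.2}`. For `e ∈ E i` we have `n e.2 < n e.1`, so `1 ≤ W e`, so
one of the four indicators is `1` and `P e.1 e.2` (`Arc`). So `CutOK` applies to `S₁` and to `S₂`, and gives in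
both cases `2 ≤ (E i).ncard` (two disjoint edges are two different pairs). For every `e`:
`[e ∈ E 1] + [e ∈ E 2] ≤ W e` (if `e` is in both then `n e.2 < c < c + 1 ≤ n e.1`, so `2 ≤ n e.1 - n e.2`).
Sum over `e`: `(E 1).ncard + (E 2).ncard ≤ 4` (`dl_ncard`). So both have exactly two elements, each contains
two pairs `(x, y)`, `(x', y')` with `x ≠ x'` (`CutOK`, the alternative `3 ≤ ...` is impossible), and
`[e ∈ E 1] + [e ∈ E 2] = W e` for all `e` (equality of the sums, termwise `≤`). In particular `a₁` and `a₂`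
(`1 ≤ W a₁`, `1 ≤ W a₂`) are in `E 1 ∪ E 2`; they are different and have the same first component `p`. If
`p ∈ S₁`, then both are in `E 1` (if `a₁ ∈ E 2` then `a₁.2 ∉ S₂`, so `a₁.2 ∉ S₁`), so `E 1 = {a₁, a₂}`, but
`E 1` contains pairs with different first components, contradiction. If `p ∉ S₁` then both are in `E 2`, and
`E 2 = {a₁, a₂}` gives the same contradiction.

`n_const1`: `DD a a b a = ind a - ind b`; with `W e = ind a e.1 e.2 + ind b e.2 e.1`, `∑ e, W e = 2`, the same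
argument gives `4 ≤ (E 1).ncard + (E 2).ncard ≤ 2`, contradiction.
-/

namespace Pool.Agent.H24.GD

open Pool.Agent.H24.GC

variable {V : Type} {H : SimpleGraph V}

/-- every edge cut all edges of which satisfy `P` has at least three edges or contains two disjoint
edges -/
def CutOK (H : SimpleGraph V) (P : V → V → Prop) : Prop :=
  ∀ S : Set V, S.Nonempty → Sᶜ.Nonempty → (∀ x ∈ S, ∀ y ∈ Sᶜ, H.Adj x y → P x y) →
    3 ≤ {e : V × V | e.1 ∈ S ∧ e.2 ∈ Sᶜ ∧ H.Adj e.1 e.2}.ncard ∨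
    ∃ x ∈ S, ∃ x' ∈ S, ∃ y ∈ Sᶜ, ∃ y' ∈ Sᶜ, H.Adj x y ∧ H.Adj x' y' ∧ x ≠ x' ∧ y ≠ y'

theorem CutOK.mono {P Q : V → V → Prop} (h : CutOK H Q) (hPQ : ∀ x y, P x y → Q x y) :
    CutOK H P :=
  fun S hS hSc h' => h S hS hSc (fun x hx y hy hxy => hPQ _ _ (h' x hx y hy hxy))

theorem gdc_pm [Fintype V] {n : V → ℤ} {c : ℤ} (hs : ∑ x, n x = c * Fintype.card V) {x : V}
    (hx : n x ≠ c) : (∃ p, c < n p) ∧ ∃ m, n m < c := by
  have h0 : ∑ y, (n y - c) = 0 := by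
    rw [Finset.sum_sub_distrib, hs, Finset.sum_const, nsmul_eq_mul, Finset.card_univ]
    ring
  have h1 : ∑ y, (c - n y) = 0 := by
    have : ∑ y, (c - n y) = - ∑ y, (n y - c) := by
      rw [← Finset.sum_neg_distrib]
      exact Finset.sum_congr rfl fun y _ => by ring
    rw [this, h0, neg_zero]
  constructor
  · by_contra hc
    push Not at hc
    have h2 := (Finset.sum_eq_zero_iff_of_nonneg
      (fun y _ => by have := hc y; omega : ∀ y ∈ (Finset.univ : Finset V), 0 ≤ c - n y)).1 h1 x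
      (Finset.mem_univ x)
    omega
  · by_contra hc
    push Not at hc
    have h2 := (Finset.sum_eq_zero_iff_of_nonneg
      (fun y _ => by have := hc y; omega : ∀ y ∈ (Finset.univ : Finset V), 0 ≤ n y - c)).1 h0 x
      (Finset.mem_univ x)
    omega

/-- the edges of the cut at the level `t` -/
def gdcE (H : SimpleGraph V) (n : V → ℤ) (t : ℤ) : Set (V × V) :=
  {e | e.1 ∈ {x | t ≤ n x} ∧ e.2 ∈ {x | t ≤ n x}ᶜ ∧ H.Adj e.1 e.2}

theorem gdc_mem {n : V → ℤ} {t : ℤ} {e : V × V} :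
    e ∈ gdcE H n t ↔ t ≤ n e.1 ∧ n e.2 < t ∧ H.Adj e.1 e.2 := by
  unfold gdcE
  rw [Set.mem_ofPred_eq, Set.mem_compl_iff, Set.mem_ofPred_eq, Set.mem_ofPred_eq, not_le]

theorem gdc_cut [Fintype V] {P : V → V → Prop} (hP : CutOK H P) {n : V → ℤ}
    (hPP : ∀ x y, H.Adj x y → n y < n x → P x y) {t : ℤ} (h1 : ∃ x, t ≤ n x)
    (h0 : ∃ x, n x < t) : 2 ≤ (gdcE H n t).ncard ∧
      (3 ≤ (gdcE H n t).ncard ∨ ∃ e ∈ gdcE H n t, ∃ f ∈ gdcE H n t, e.1 ≠ f.1) := by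
  obtain ⟨x₁, h1⟩ := h1
  obtain ⟨x₀, h0⟩ := h0
  have h := hP {x | t ≤ n x} ⟨x₁, h1⟩ ⟨x₀, by simpa using h0⟩ (by
    intro x hx y hy hxy
    have hx' : t ≤ n x := hx
    have hy' : n y < t := by simpa using hy
    exact hPP x y hxy (by omega))
  rcases h with h | ⟨x, hx, x', hx', y, hy, y', hy', e, e', hne, -⟩
  · have h' : 3 ≤ (gdcE H n t).ncard := h
    exact ⟨by omega, Or.inl h'⟩
  · have m1 : (x, y) ∈ gdcE H n t := ⟨hx, hy, e⟩
    have m2 : (x', y') ∈ gdcE H n t := ⟨hx', hy', e'⟩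
    refine ⟨?_, Or.inr ⟨(x, y), m1, (x', y'), m2, hne⟩⟩
    have := (Set.one_lt_ncard (Set.toFinite (gdcE H n t))).2
      ⟨(x, y), m1, (x', y'), m2, fun e => hne (congrArg Prod.fst e)⟩
    omega

theorem gdc_P {P : V → V → Prop} {a₁ a₂ b₁ b₂ : V × V}
    (ha₁ : Arc H P a₁) (ha₂ : Arc H P a₂) (hb₁ : Arc H P b₁) (hb₂ : Arc H P b₂) {n : V → ℤ}
    (hn : ∀ x y, H.Adj x y → n x - n y = DD a₁ a₂ b₁ b₂ x y - DD a₁ a₂ b₁ b₂ y x) (x y : V)
    (hxy : H.Adj x y) (hlt : n y < n x) : P x y := by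
  have hw := dl_W_ge (hn x y hxy)
  unfold dlW at hw
  simp only at hw
  by_cases c1 : ind a₁ x y = 0
  · by_cases c2 : ind a₂ x y = 0
    · by_cases c3 : ind b₁ y x = 0
      · by_cases c4 : ind b₂ y x = 0
        · omega
        · have := hb₂
          rw [dl_ind_ne c4] at this
          exact this.2.2
      · have := hb₁
        rw [dl_ind_ne c3] at this
        exact this.2.2
    · have := ha₂
      rw [dl_ind_ne c2] at this
      exact this.2.1
  · have := ha₁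
    rw [dl_ind_ne c1] at this
    exact this.2.1

open Classical in
theorem gdc_le {n : V → ℤ} {W : V × V → ℤ} (h0 : ∀ e, 0 ≤ W e)
    (h1 : ∀ e : V × V, H.Adj e.1 e.2 → n e.1 - n e.2 ≤ W e) (c : ℤ) (e : V × V) :
    (if e ∈ gdcE H n (c + 1) then (1 : ℤ) else 0) + (if e ∈ gdcE H n c then (1 : ℤ) else 0) ≤
      W e := by
  have hw0 := h0 e
  split_ifs with c1 c2 c2
  · rw [gdc_mem] at c1 c2
    have hw := h1 e c1.2.2
    omega
  · rw [gdc_mem] at c1
    have hw := h1 e c1.2.2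
    omega
  · rw [gdc_mem] at c2
    have hw := h1 e c2.2.2
    omega
  · omega

open Classical in
theorem gdc_sum [Fintype V] (n : V → ℤ) (c : ℤ) :
    ∑ e : V × V, ((if e ∈ gdcE H n (c + 1) then (1 : ℤ) else 0) +
      (if e ∈ gdcE H n c then (1 : ℤ) else 0)) =
      (gdcE H n (c + 1)).ncard + (gdcE H n c).ncard := by
  rw [Finset.sum_add_distrib, ← dl_ncard, ← dl_ncard]

theorem n_const2 [Fintype V] {P : V → V → Prop} (hP : CutOK H P) {a₁ a₂ b₁ b₂ : V × V}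
    (ha₁ : Arc H P a₁) (ha₂ : Arc H P a₂) (hb₁ : Arc H P b₁) (hb₂ : Arc H P b₂)
    (ht : a₁.1 = a₂.1) (hne : a₁ ≠ a₂) {n : V → ℤ}
    (hn : ∀ x y, H.Adj x y → n x - n y = DD a₁ a₂ b₁ b₂ x y - DD a₁ a₂ b₁ b₂ y x) {c : ℤ}
    (hs : ∑ x, n x = c * Fintype.card V) (x : V) : n x = c := by
  classical
  by_contra hx
  obtain ⟨⟨p, hp⟩, m, hm⟩ := gdc_pm hs hx
  have hPP := gdc_P ha₁ ha₂ hb₁ hb₂ hn
  obtain ⟨k1, l1⟩ := gdc_cut hP hPP (t := c + 1) ⟨p, by omega⟩ ⟨m, by omega⟩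
  obtain ⟨k2, l2⟩ := gdc_cut hP hPP (t := c) ⟨p, by omega⟩ ⟨m, by omega⟩
  have hle := gdc_le (H := H) (n := n) (W := dlW a₁ a₂ b₁ b₂) (dl_W_nonneg a₁ a₂ b₁ b₂)
    (fun e he => dl_W_ge (hn e.1 e.2 he)) c
  have hsum := Finset.sum_le_sum (s := (Finset.univ : Finset (V × V))) fun e _ => hle e
  rw [gdc_sum, dl_sumW] at hsum
  have q1 : (gdcE H n (c + 1)).ncard = 2 := by omega
  have q2 : (gdcE H n c).ncard = 2 := by omega
  have heq := (Finset.sum_eq_sum_iff_of_le (s := (Finset.univ : Finset (V × V)))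
    fun e _ => hle e).1 (by rw [gdc_sum, dl_sumW, q1, q2]; norm_num)
  rcases l1 with l1 | l1
  · omega
  rcases l2 with l2 | l2
  · omega
  have key : ∀ t : ℤ, (gdcE H n t).ncard = 2 →
      (∃ e ∈ gdcE H n t, ∃ f ∈ gdcE H n t, e.1 ≠ f.1) → a₁ ∈ gdcE H n t → a₂ ∈ gdcE H n t →
      False := by
    intro t h1 ⟨e, he, f, hf, hef⟩ m1 m2
    have hsub : ({a₁, a₂} : Set (V × V)) ⊆ gdcE H n t := by
      rintro z (rfl | rfl)
      · exact m1
      · exact m2
    have hE : ({a₁, a₂} : Set (V × V)) = gdcE H n t := by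
      refine Set.eq_of_subset_of_ncard_le hsub ?_ (Set.toFinite _)
      rw [h1, Set.ncard_pair hne]
    have hfst : ∀ z ∈ gdcE H n t, z.1 = a₁.1 := by
      intro z hz
      rw [← hE] at hz
      rcases hz with rfl | rfl
      · rfl
      · exact ht.symm
    exact hef ((hfst e he).trans (hfst f hf).symm)
  have w1 : 1 ≤ dlW a₁ a₂ b₁ b₂ a₁ := by
    have h1 := dl_ind_self a₁
    have h2 := dl_ind_nonneg a₂ a₁.1 a₁.2
    have h3 := dl_ind_nonneg b₁ a₁.2 a₁.1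
    have h4 := dl_ind_nonneg b₂ a₁.2 a₁.1
    unfold dlW
    omega
  have w2 : 1 ≤ dlW a₁ a₂ b₁ b₂ a₂ := by
    have h1 := dl_ind_self a₂
    have h2 := dl_ind_nonneg a₁ a₂.1 a₂.2
    have h3 := dl_ind_nonneg b₁ a₂.2 a₂.1
    have h4 := dl_ind_nonneg b₂ a₂.2 a₂.1
    unfold dlW
    omega
  have r : ∀ a : V × V, 1 ≤ dlW a₁ a₂ b₁ b₂ a → a ∈ gdcE H n (c + 1) ∨ a ∈ gdcE H n c := by
    intro a ha
    by_contra hc
    push Not at hc
    have := heq a (Finset.mem_univ a)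
    rw [if_neg hc.1, if_neg hc.2] at this
    omega
  by_cases hcase : c + 1 ≤ n a₁.1
  · have up : ∀ a : V × V, a.1 = a₁.1 → (a ∈ gdcE H n (c + 1) ∨ a ∈ gdcE H n c) →
        a ∈ gdcE H n (c + 1) := by
      rintro a ha (h | h)
      · exact h
      · rw [gdc_mem] at h ⊢
        refine ⟨by rw [ha]; exact hcase, by omega, h.2.2⟩
    exact key _ q1 l1 (up a₁ rfl (r a₁ w1)) (up a₂ ht.symm (r a₂ w2))
  · have up : ∀ a : V × V, a.1 = a₁.1 → (a ∈ gdcE H n (c + 1) ∨ a ∈ gdcE H n c) →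
        a ∈ gdcE H n c := by
      rintro a ha (h | h)
      · rw [gdc_mem, ha] at h
        exact absurd h.1 hcase
      · exact h
    exact key _ q2 l2 (up a₁ rfl (r a₁ w1)) (up a₂ ht.symm (r a₂ w2))

theorem n_const1 [Fintype V] {P : V → V → Prop} (hP : CutOK H P) {a b : V × V}
    (ha : Arc H P a) (hb : Arc H P b) {n : V → ℤ}
    (hn : ∀ x y, H.Adj x y → n x - n y = DD a a b a x y - DD a a b a y x) {c : ℤ}
    (hs : ∑ x, n x = c * Fintype.card V) (x : V) : n x = c := by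
  classical
  by_contra hx
  obtain ⟨⟨p, hp⟩, m, hm⟩ := gdc_pm hs hx
  have hPP := gdc_P ha ha hb ha hn
  obtain ⟨k1, -⟩ := gdc_cut hP hPP (t := c + 1) ⟨p, by omega⟩ ⟨m, by omega⟩
  obtain ⟨k2, -⟩ := gdc_cut hP hPP (t := c) ⟨p, by omega⟩ ⟨m, by omega⟩
  have hle := gdc_le (H := H) (n := n) (W := fun e => ind a e.1 e.2 + ind b e.2 e.1)
    (fun e => add_nonneg (dl_ind_nonneg a e.1 e.2) (dl_ind_nonneg b e.2 e.1))
    (fun e he => by
      have h1 := hn e.1 e.2 he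
      have h2 := dl_ind_nonneg a e.2 e.1
      have h3 := dl_ind_nonneg b e.1 e.2
      unfold DD at h1
      show n e.1 - n e.2 ≤ ind a e.1 e.2 + ind b e.2 e.1
      omega) c
  have hsum := Finset.sum_le_sum (s := (Finset.univ : Finset (V × V))) fun e _ => hle e
  rw [gdc_sum, Finset.sum_add_distrib, dl_sum, dl_sum'] at hsum
  omega

end Pool.Agent.H24.GD
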