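import Pool.Agent.H24.GC.PDef

/-!
# JOB GD-11: relations defined by killer pieces and by other pieces

`FDef K tX R`: there are terminal variables `Z` (types `tZ`), each of which occurs in one further piece
`np z : Q` as the arc `ar z`, and a relation `R'` on `X ⊕ Z` defined by killer pieces (`PDef`), such that
`R v` iff there are values `y` of the terminal variables with `R' (Sum.elim v y)`, and such that every piece
`q` has a cover with the values `y z` on its arcs.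

`FDef.congr`: clear. `FDef.of_pdef`: `Z = Q = Empty`; `PDef.comap` with `Sum.inl`.
`FDef.all`: `Z = Σ i, Z i`, `Q = Σ i, Q i`; the relation is `∀ i`, `R' i` of the restriction; `PDef.all`, `PDef.comap`
with `Sum.map id (Sigma.mk i)`. (`FDef.and` from it, or directly, as `PDef.and`.)
`FDef.comap`: `PDef.comap` with `Sum.map ρ id`.
`FDef.ex`: the same `Z`, `Q`; the relation on `X ⊕ Z` is `∃ u, R' (Sum.elim (Sum.elim v u) y)`: `PDef.comap` from
`(X ⊕ X₁) ⊕ Z` to `(X ⊕ Z) ⊕ X₁`, then `PDef.ex`.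
-/

namespace Pool.Agent.H24.GD

open Pool.Agent.H24.GC

variable {V : Type} {H : SimpleGraph V}

/-- `R` is defined by killer pieces and other pieces -/
def FDef (K : Kit H) {X : Type} (tX : X → V × V) (R : (X → V × V) → Prop) : Prop :=
  ∃ (Z Q : Type) (_ : Finite Z) (_ : Finite Q) (tZ : Z → V × V) (np : Z → Q)
    (ar : Z → K.W × K.W) (R' : (X ⊕ Z → V × V) → Prop), PDef K (Sum.elim tX tZ) R' ∧
    (∀ z, K.gr.Adj (ar z).1 (ar z).2 ∧ SlTy K (ar z) (tZ z) ∧
      Straight H K.gr K.π (cut1 (ar z))) ∧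
    (∀ z z', np z = np z' → (ar z = ar z' ∨ ar z = (ar z').swap) → z = z') ∧
    ∀ v, R v ↔ ∃ y : Z → V × V, R' (Sum.elim v y) ∧
      ∀ q, ∃ f : K.W → V, IsCover K.gr H f ∧ ∀ z, np z = q → (f (ar z).1, f (ar z).2) = y z

theorem FDef.congr {K : Kit H} {X : Type} {tX : X → V × V} {R R' : (X → V × V) → Prop}
    (h : FDef K tX R) (hR : ∀ v, R v ↔ R' v) : FDef K tX R' := by
  obtain ⟨Z, Q, fZ, fQ, tZ, np, ar, R₀, h1, h2, h3, h4⟩ := h
  exact ⟨Z, Q, fZ, fQ, tZ, np, ar, R₀, h1, h2, h3, fun v => (hR v).symm.trans (h4 v)⟩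

theorem FDef.of_pdef [Finite V] {K : Kit H} {X : Type} {tX : X → V × V}
    {R : (X → V × V) → Prop} (h : PDef K tX R) : FDef K tX R := by
  refine ⟨Empty, Empty, inferInstance, inferInstance, Empty.elim, Empty.elim, Empty.elim,
    fun w => R (w ∘ Sum.inl),
    h.comap (tX' := Sum.elim tX Empty.elim) Sum.inl (fun x => ⟨sim_refl H _, sim_refl H _⟩),
    fun z => z.elim, fun z => z.elim, fun v => ?_⟩
  constructor
  · intro hv
    exact ⟨Empty.elim, hv, fun q => q.elim⟩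
  · rintro ⟨y, hy, -⟩
    exact hy

theorem fdef_map {X C ι : Type} {Z : ι → Type} (v : X → C) (y : (Σ i, Z i) → C) (i : ι) :
    Sum.elim v y ∘ Sum.map id (Sigma.mk i) = Sum.elim v (fun q => y ⟨i, q⟩) := by
  funext z
  cases z <;> rfl

theorem FDef.all [Finite V] {K : Kit H} {X ι : Type} [Finite ι] {tX : X → V × V}
    {R : ι → (X → V × V) → Prop} (h : ∀ i, FDef K tX (R i)) :
    FDef K tX (fun v => ∀ i, R i v) := by
  choose Z Q fZ fQ tZ np ar R₀ h1 h2 h3 h4 using h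
  refine ⟨Σ i, Z i, Σ i, Q i, inferInstance, inferInstance, fun q => tZ q.1 q.2,
    fun q => ⟨q.1, np q.1 q.2⟩, fun q => ar q.1 q.2,
    fun w => ∀ i, R₀ i (w ∘ Sum.map id (Sigma.mk i)), ?_, fun q => h2 q.1 q.2, ?_,
    fun v => ?_⟩
  · apply PDef.all
    intro i
    refine (h1 i).comap (Sum.map id (Sigma.mk i)) fun x => ?_
    cases x with
    | inl x => exact ⟨sim_refl H _, sim_refl H _⟩
    | inr z => exact ⟨sim_refl H _, sim_refl H _⟩
  · rintro ⟨i, a⟩ ⟨j, b⟩ h5 h6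
    have hij : i = j := congrArg Sigma.fst h5
    subst hij
    have h7 : np i a = np i b := eq_of_heq (Sigma.mk.inj h5).2
    rw [h3 i a b h7 h6]
  · constructor
    · intro hv
      choose y hy using fun i => (h4 i v).1 (hv i)
      refine ⟨fun q => y q.1 q.2, fun i => ?_, ?_⟩
      · rw [fdef_map]
        exact (hy i).1
      · rintro ⟨i, q⟩
        obtain ⟨f, hf, hf'⟩ := (hy i).2 q
        refine ⟨f, hf, ?_⟩
        rintro ⟨j, a⟩ h5
        have hij : j = i := congrArg Sigma.fst h5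
        subst hij
        exact hf' a (eq_of_heq (Sigma.mk.inj h5).2)
    · rintro ⟨y, hy, hy'⟩ i
      refine (h4 i v).2 ⟨fun a => y ⟨i, a⟩, ?_, fun q => ?_⟩
      · have h5 := hy i
        rw [fdef_map] at h5
        exact h5
      · obtain ⟨f, hf, hf'⟩ := hy' ⟨i, q⟩
        refine ⟨f, hf, fun a ha => hf' ⟨i, a⟩ ?_⟩
        subst ha
        rfl

theorem FDef.and [Finite V] {K : Kit H} {X : Type} {tX : X → V × V}
    {R R' : (X → V × V) → Prop} (h : FDef K tX R) (h' : FDef K tX R') :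
    FDef K tX (fun v => R v ∧ R' v) := by
  have h1 : FDef K tX (fun v => ∀ b : Bool, (fun b => cond b R R') b v) := by
    apply FDef.all
    intro b
    cases b
    · exact h'
    · exact h
  refine h1.congr fun v => ?_
  constructor
  · intro hv
    exact ⟨hv true, hv false⟩
  · rintro ⟨h2, h3⟩ b
    cases b
    · exact h3
    · exact h2

theorem fdef_rho {X X' Z C : Type} (v : X' → C) (y : Z → C) (ρ : X → X') :
    Sum.elim v y ∘ Sum.map ρ id = Sum.elim (v ∘ ρ) y := by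
  funext z
  cases z <;> rfl

theorem FDef.comap [Finite V] {K : Kit H} {X X' : Type} {tX : X → V × V} {tX' : X' → V × V}
    {R : (X → V × V) → Prop} (h : FDef K tX R) (ρ : X → X')
    (hρ : ∀ x, Sim H (tX x).1 (tX' (ρ x)).1 ∧ Sim H (tX x).2 (tX' (ρ x)).2) :
    FDef K tX' (fun v => R (v ∘ ρ)) := by
  obtain ⟨Z, Q, fZ, fQ, tZ, np, ar, R₀, h1, h2, h3, h4⟩ := h
  refine ⟨Z, Q, fZ, fQ, tZ, np, ar, fun w => R₀ (w ∘ Sum.map ρ id), ?_, h2, h3, fun v => ?_⟩
  · refine h1.comap (Sum.map ρ id) fun x => ?_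
    cases x with
    | inl x => exact hρ x
    | inr z => exact ⟨sim_refl H _, sim_refl H _⟩
  · simp only [fdef_rho]
    exact h4 (v ∘ ρ)

theorem FDef.ex [Finite V] {K : Kit H} {X X₁ : Type} [Finite X₁] {tX : X → V × V}
    {t₁ : X₁ → V × V} {R : (X ⊕ X₁ → V × V) → Prop} (h : FDef K (Sum.elim tX t₁) R) :
    FDef K tX (fun v => ∃ u : X₁ → V × V, R (Sum.elim v u)) := by
  obtain ⟨Z, Q, fZ, fQ, tZ, np, ar, R₀, h1, h2, h3, h4⟩ := h
  obtain ⟨s, hs⟩ : ∃ s : (X ⊕ X₁) ⊕ Z → (X ⊕ Z) ⊕ X₁,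
      s = Sum.elim (Sum.elim (fun x => Sum.inl (Sum.inl x)) Sum.inr)
        (fun z => Sum.inl (Sum.inr z)) := ⟨_, rfl⟩
  have hel : ∀ (v : X → V × V) (u : X₁ → V × V) (y : Z → V × V),
      Sum.elim (Sum.elim v y) u ∘ s = Sum.elim (Sum.elim v u) y := by
    intro v u y
    subst hs
    funext z
    rcases z with (z | z) | z <;> rfl
  refine ⟨Z, Q, fZ, fQ, tZ, np, ar, fun w => ∃ u : X₁ → V × V, R₀ (Sum.elim w u ∘ s), ?_, h2, h3,
    fun v => ?_⟩
  · apply PDef.ex (t₁ := t₁) (R := fun w => R₀ (w ∘ s))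
    refine h1.comap s fun x => ?_
    subst hs
    rcases x with (x | x) | x
    · exact ⟨sim_refl H _, sim_refl H _⟩
    · exact ⟨sim_refl H _, sim_refl H _⟩
    · exact ⟨sim_refl H _, sim_refl H _⟩
  · simp only [hel]
    constructor
    · rintro ⟨u, hu⟩
      obtain ⟨y, hy, hy'⟩ := (h4 _).1 hu
      exact ⟨y, ⟨u, hy⟩, hy'⟩
    · rintro ⟨y, ⟨u, hu⟩, hy'⟩
      exact ⟨u, (h4 _).2 ⟨y, hu, hy'⟩⟩

end Pool.Agent.H24.GD
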