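import Pool.Agent.H24.GD.Pat
import Pool.Agent.H24.GC.RedSpec
import Pool.Agent.H24.GC.HardPat

/-!
# JOB GD-5: the list of edges describes the graph of the instance

`redL_spec`: as `redE_spec` (file `Pool.Agent.H24.GC.RedSpec`), the same proof with the symbols
`symc : Fin h ⊕ p.Y → ℕ`, `symc (inl j) = j`, `symc (inr y) = h + eY y`; the code of the variable is `(0, (0, u))` for
the hub variable with value `u` and `(k + 1, (h + eY y, default))` for `inr (k, y)`. The general statements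
of that file (`RedSpec_perm`, `RedSpec_same`, `RedSpec_getD`, ...) can be used as they are; `RedSpecLR`,
`RedSpecMk`, `RedSpec_Ed` have to be restated for `Pat` (the same proofs).
`pat_red`: as the first steps of `hard_of_pattern` (file `Pool.Agent.H24.GC.HardPat`): the function
`Rd E = mat (redL ... E)`, `mat_cover`, `PT.mat'`, `PT.redL'`; every vertex of the graph has a neighbour by
`exists_nu`, `hdeg`.
-/

namespace Pool.Agent.H24.GD

open Pool.Agent.H24.GC Pool.Agent.PPS Pool.Agent.H64.Cook Pool.Agent.H79.Thr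

variable {V : Type} {H : SimpleGraph V}

section GDRedSpecAux

variable {W : Type}

/-- the edges inside one copy of the pattern -/
def GDRedSpecLR {h : ℕ} (g : SimpleGraph W) (p : Pat h W) (x y : (p.Pc ⊕ p.Sl) × W) : Prop :=
  (∃ c w w', g.Adj w w' ∧ (∀ s, p.pc s = c → p.ar s ≠ (w, w') ∧ p.ar s ≠ (w', w)) ∧
    x = (Sum.inl c, w) ∧ y = (Sum.inl c, w')) ∨
  (∃ s w w', g.Adj w w' ∧ p.ar s ≠ (w, w') ∧ p.ar s ≠ (w', w) ∧
    x = (Sum.inr s, w) ∧ y = (Sum.inr s, w')) ∨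
  (∃ s, x = (Sum.inl (p.pc s), (p.ar s).1) ∧ y = (Sum.inr s, (p.ar s).2))

/-- the copy number `k` -/
def GDRedSpecMk {h : ℕ} {p : Pat h W} {n : ℕ} (k : Fin n) (u : (p.Pc ⊕ p.Sl) × W) :
    ((Fin n × p.Pc) ⊕ (Fin n × p.Sl)) × W :=
  (Sum.map (Prod.mk k) (Prod.mk k) u.1, u.2)

theorem GDRedSpec_Ed {h : ℕ} (g : SimpleGraph W) (p : Pat h W) {α : Type} (E : List (List α))
    (sg : Equiv.Perm (Fin E.length × p.Sl)) (x y : (p.inst E sg).Vx) :
    (p.inst E sg).Ed g x y ↔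
      (∃ (k : Fin E.length) (u v : (p.Pc ⊕ p.Sl) × W), GDRedSpecLR g p u v ∧
        x = GDRedSpecMk k u ∧ y = GDRedSpecMk k v) ∨
      (∃ o : Fin E.length × p.Sl, x = (Sum.inr o, (p.ar o.2).1) ∧
        y = (Sum.inl ((sg o).1, p.pc (sg o).2), (p.ar (sg o).2).2)) := by
  constructor
  · rintro (⟨⟨k, c⟩, w, w', h1, h2, hx, hy⟩ | ⟨⟨k, s⟩, w, w', h1, h2, h3, hx, hy⟩ |
      ⟨⟨k, s⟩, hx, hy⟩ | ⟨o, hx, hy⟩)
    · refine Or.inl ⟨k, (Sum.inl c, w), (Sum.inl c, w'), Or.inl ⟨c, w, w', h1, ?_, rfl, rfl⟩,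
        hx, hy⟩
      intro s hs
      exact h2 (k, s) (by rw [← hs]; rfl)
    · exact Or.inl ⟨k, (Sum.inr s, w), (Sum.inr s, w'),
        Or.inr (Or.inl ⟨s, w, w', h1, h2, h3, rfl, rfl⟩), hx, hy⟩
    · exact Or.inl ⟨k, (Sum.inl (p.pc s), (p.ar s).1), (Sum.inr s, (p.ar s).2),
        Or.inr (Or.inr ⟨s, rfl, rfl⟩), hx, hy⟩
    · exact Or.inr ⟨o, hx, hy⟩
  · rintro (⟨k, u, v, ⟨c, w, w', h1, h2, rfl, rfl⟩ | ⟨s, w, w', h1, h2, h3, rfl, rfl⟩ |
      ⟨s, rfl, rfl⟩, hx, hy⟩ | ⟨o, hx, hy⟩)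
    · refine Or.inl ⟨(k, c), w, w', h1, ?_, hx, hy⟩
      rintro ⟨k', s⟩ ho
      exact h2 s (congrArg Prod.snd ho)
    · exact Or.inr (Or.inl ⟨(k, s), w, w', h1, h2, h3, hx, hy⟩)
    · exact Or.inr (Or.inr (Or.inl ⟨(k, s), hx, hy⟩))
    · exact Or.inr (Or.inr (Or.inr ⟨o, hx, hy⟩))


end GDRedSpecAux

theorem redL_spec {K : Kit H} {h : ℕ} (p : Pat h K.W) :
    ∃ (cst : List ((ℕ × ℕ) × (ℕ × ℕ))) (m J : ℕ) (pcT tl hd sy : List ℕ),
      ∀ (α : Type) [Inhabited α] [DecidableEq α] (E : List (List α)),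
        ∃ (sg : Equiv.Perm (Fin E.length × p.Sl)) (ι : (p.inst E sg).Vx → ℕ × (ℕ × ℕ)),
          (∀ o, p.var E (sg o) = p.var E o) ∧
          (∀ o o', p.var E o = p.var E o' → sg.SameCycle o o') ∧
          Function.Injective ι ∧
          (∀ a b, ((p.inst E sg).graph K.gr).Adj a b ↔
            (relG (redL cst m J h pcT tl hd sy E)).Adj (ι a) (ι b)) ∧
          ∀ e ∈ redL cst m J h pcT tl hd sy E, e.1 ∈ Set.range ι ∧ e.2 ∈ Set.range ι := by
  classical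
  let eP := Finite.equivFin p.Pc
  let eS := Finite.equivFin p.Sl
  let eY := Finite.equivFin p.Y
  let eW := Finite.equivFin K.W
  let m := Nat.card p.Pc
  let J := Nat.card p.Sl
  let cU : (p.Pc ⊕ p.Sl) × K.W → ℕ × ℕ := fun u =>
    (Sum.elim (fun c => (eP c : ℕ)) (fun s => m + (eS s : ℕ)) u.1, (eW u.2 : ℕ))
  have hcU : Function.Injective cU := by
    rintro ⟨q, w⟩ ⟨q', w'⟩ h
    obtain ⟨h1, h2⟩ := Prod.ext_iff.1 h
    have hw : w = w' := eW.injective (Fin.ext h2)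
    subst hw
    rcases q with c | s <;> rcases q' with c' | s'
    · have h3 : (eP c : ℕ) = (eP c' : ℕ) := h1
      rw [eP.injective (Fin.ext h3)]
    · have h3 : (eP c : ℕ) = m + (eS s' : ℕ) := h1
      have := (eP c).2
      omega
    · have h3 : m + (eS s : ℕ) = (eP c' : ℕ) := h1
      have := (eP c').2
      omega
    · have h3 : m + (eS s : ℕ) = m + (eS s' : ℕ) := h1
      rw [eS.injective (Fin.ext (Nat.add_left_cancel h3))]
  let symc : Fin h ⊕ p.Y → ℕ := Sum.elim (fun j => (j : ℕ)) (fun y => h + (eY y : ℕ))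
  let pcT : List ℕ := List.ofFn (fun j : Fin J => (eP (p.pc (eS.symm j)) : ℕ))
  let tl : List ℕ := List.ofFn (fun j : Fin J => (eW (p.ar (eS.symm j)).1 : ℕ))
  let hd : List ℕ := List.ofFn (fun j : Fin J => (eW (p.ar (eS.symm j)).2 : ℕ))
  let sy : List ℕ := List.ofFn (fun j : Fin J => symc (p.sy (eS.symm j)))
  have hpcT : ∀ s, pcT.getD (eS s : ℕ) 0 = (eP (p.pc s) : ℕ) := by
    intro s
    rw [RedSpec_getD _ (eS s).2]
    simp
  have htl : ∀ s, tl.getD (eS s : ℕ) 0 = (eW (p.ar s).1 : ℕ) := by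
    intro s
    rw [RedSpec_getD _ (eS s).2]
    simp
  have hhd : ∀ s, hd.getD (eS s : ℕ) 0 = (eW (p.ar s).2 : ℕ) := by
    intro s
    rw [RedSpec_getD _ (eS s).2]
    simp
  have hsy : ∀ s, sy.getD (eS s : ℕ) 0 = symc (p.sy s) := by
    intro s
    rw [RedSpec_getD _ (eS s).2]
    simp
  have hfin : {e : ((p.Pc ⊕ p.Sl) × K.W) × ((p.Pc ⊕ p.Sl) × K.W) |
      GDRedSpecLR K.gr p e.1 e.2}.Finite := Set.toFinite _
  let cst : List ((ℕ × ℕ) × (ℕ × ℕ)) := hfin.toFinset.toList.map (fun e => (cU e.1, cU e.2))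
  have hcst : ∀ e, e ∈ cst ↔ ∃ u v, GDRedSpecLR K.gr p u v ∧ (cU u, cU v) = e := by
    intro e
    rw [List.mem_map]
    constructor
    · rintro ⟨⟨u, v⟩, h1, h2⟩
      rw [Finset.mem_toList, Set.Finite.mem_toFinset] at h1
      exact ⟨u, v, h1, h2⟩
    · rintro ⟨u, v, h1, h2⟩
      refine ⟨(u, v), ?_, h2⟩
      rw [Finset.mem_toList, Set.Finite.mem_toFinset]
      exact h1
  refine ⟨cst, m, J, pcT, tl, hd, sy, ?_⟩
  intro α _ _ E
  let ec : Fin E.length × p.Sl → ℕ × ℕ := fun o => ((o.1 : ℕ), (eS o.2 : ℕ))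
  have hec : Function.Injective ec := by
    rintro ⟨k, s⟩ ⟨k', s'⟩ h
    obtain ⟨h1, h2⟩ := Prod.ext_iff.1 h
    have h3 : k = k' := Fin.ext h1
    have h4 : s = s' := eS.injective (Fin.ext h2)
    rw [h3, h4]
  have hecr : ∀ o, o ∈ ocs E.length J ↔ ∃ x, ec x = o := by
    intro o
    rw [RedSpec_ocs_mem]
    constructor
    · rintro ⟨h1, h2⟩
      refine ⟨(⟨o.1, h1⟩, eS.symm ⟨o.2, h2⟩), ?_⟩
      show ((o.1 : ℕ), (eS (eS.symm ⟨o.2, h2⟩) : ℕ)) = o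
      rw [Equiv.apply_symm_apply]
    · rintro ⟨x, rfl⟩
      exact ⟨x.1.2, (eS x.2).2⟩
  let enc : α ⊕ (Fin E.length × p.Y) → ℕ × (ℕ × α) :=
    Sum.elim (fun a => (0, (0, a))) (fun ky => ((ky.1 : ℕ) + 1, (h + (eY ky.2 : ℕ), default)))
  have henc : Function.Injective enc := by
    rintro (a | ⟨k, y⟩) (a' | ⟨k', y'⟩) h
    · have h1 : a = a' := congrArg (fun z => z.2.2) h
      rw [h1]
    · have h1 : (0 : ℕ) = (k' : ℕ) + 1 := congrArg (fun z => z.1) h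
      omega
    · have h1 : (k : ℕ) + 1 = 0 := congrArg (fun z => z.1) h
      omega
    · have h1 : (k : ℕ) + 1 = (k' : ℕ) + 1 := congrArg (fun z => z.1) h
      have h2 : _ + (eY y : ℕ) = _ + (eY y' : ℕ) := congrArg (fun z => z.2.1) h
      rw [Fin.ext (Nat.add_right_cancel h1), eY.injective (Fin.ext (Nat.add_left_cancel h2))]
  have hvc : ∀ o, vcodeL h sy E (ec o) = enc (p.var E o) := by
    rintro ⟨k, s⟩
    have hE : E.getD (k : ℕ) [] = E.get k := List.getD_eq_getElem _ _ k.2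
    have h1 : sy.getD (ec (k, s)).2 0 = symc (p.sy s) := hsy s
    have h2 : E.getD (ec (k, s)).1 [] = E.get k := hE
    unfold vcodeL
    rw [h1, h2]
    unfold Pat.var
    show _ = enc (Sum.elim (fun j : Fin h => Sum.inl ((E.get k).getD (j : ℕ) default))
      (fun y => Sum.inr (k, y)) (p.sy s))
    rcases p.sy s with j | y
    · have h3 : symc (Sum.inl j) = (j : ℕ) := rfl
      rw [h3, if_pos j.2]
      rfl
    · have h3 : symc (Sum.inr y) = h + (eY y : ℕ) := rfl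
      rw [h3, if_neg (by omega)]
      rfl
  obtain ⟨sg', hl', hv', hs', hc'⟩ := exists_cyc (ocs E.length J)
    (RedSpec_ocs_nodup _ _) (vcodeL h sy E) (0, 0)
  obtain ⟨sg, hsg⟩ := RedSpec_perm (ocs E.length J) sg' hl' ec hec hecr
  let ι : (p.inst E sg).Vx → ℕ × (ℕ × ℕ) := fun x =>
    (Sum.elim (fun o : Fin E.length × p.Pc => (o.1 : ℕ))
      (fun o : Fin E.length × p.Sl => (o.1 : ℕ)) x.1,
     (Sum.elim (fun o : Fin E.length × p.Pc => (eP o.2 : ℕ))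
      (fun o : Fin E.length × p.Sl => m + (eS o.2 : ℕ)) x.1, (eW x.2 : ℕ)))
  have hmk : ∀ (k : Fin E.length) (u : (p.Pc ⊕ p.Sl) × K.W),
      ι (GDRedSpecMk k u) = ((k : ℕ), cU u) := by
    rintro k ⟨c | s, w⟩
    · rfl
    · rfl
  have hsurj : ∀ x : (p.inst E sg).Vx, ∃ (k : Fin E.length) (u : (p.Pc ⊕ p.Sl) × K.W),
      x = GDRedSpecMk k u := by
    rintro ⟨⟨k, c⟩ | ⟨k, s⟩, w⟩
    · exact ⟨k, (Sum.inl c, w), rfl⟩
    · exact ⟨k, (Sum.inr s, w), rfl⟩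
  have hι : Function.Injective ι := by
    intro x y h
    obtain ⟨k, u, rfl⟩ := hsurj x
    obtain ⟨k', u', rfl⟩ := hsurj y
    rw [hmk, hmk] at h
    obtain ⟨h1, h2⟩ := Prod.ext_iff.1 h
    have h3 : k = k' := Fin.ext h1
    have h4 : u = u' := hcU h2
    rw [h3, h4]
  have hmem : ∀ e, e ∈ redL cst m J h pcT tl hd sy E ↔
      ∃ x y, (p.inst E sg).Ed K.gr x y ∧ e = (ι x, ι y) := by
    intro e
    unfold redL
    rw [List.mem_append, List.mem_flatMap, List.mem_map]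
    constructor
    · rintro (⟨k, hk, h1⟩ | ⟨q, hq, rfl⟩)
      · rw [List.mem_map] at h1
        obtain ⟨e', he', rfl⟩ := h1
        obtain ⟨u, v, huv, rfl⟩ := (hcst e').1 he'
        have hk' : k < E.length := List.mem_range.1 hk
        refine ⟨GDRedSpecMk ⟨k, hk'⟩ u, GDRedSpecMk ⟨k, hk'⟩ v,
          (GDRedSpec_Ed K.gr p E sg _ _).2 (Or.inl ⟨⟨k, hk'⟩, u, v, huv, rfl, rfl⟩), ?_⟩
        rw [hmk, hmk]
      · obtain ⟨h1, h2⟩ := (hc' q).1 hq
        obtain ⟨o, ho⟩ := (hecr _).1 h1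
        have h3 : q.2 = ec (sg o) := by rw [h2, ← ho, hsg]
        refine ⟨(Sum.inr o, (p.ar o.2).1), (Sum.inl ((sg o).1, p.pc (sg o).2),
          (p.ar (sg o).2).2), (GDRedSpec_Ed K.gr p E sg _ _).2 (Or.inr ⟨o, rfl, rfl⟩), ?_⟩
        rw [h3, ← ho]
        show (((o.1 : ℕ), (m + (eS o.2 : ℕ), tl.getD (eS o.2 : ℕ) 0)),
          (((sg o).1 : ℕ), (pcT.getD (eS (sg o).2 : ℕ) 0, hd.getD (eS (sg o).2 : ℕ) 0))) = _
        rw [htl, hpcT, hhd]
        rfl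
    · rintro ⟨x, y, hxy, rfl⟩
      rcases (GDRedSpec_Ed K.gr p E sg x y).1 hxy with ⟨k, u, v, huv, rfl, rfl⟩ | ⟨o, rfl, rfl⟩
      · refine Or.inl ⟨(k : ℕ), List.mem_range.2 k.2, ?_⟩
        rw [List.mem_map]
        refine ⟨(cU u, cU v), (hcst _).2 ⟨u, v, huv, rfl⟩, ?_⟩
        rw [hmk, hmk]
      · refine Or.inr ⟨(ec o, ec (sg o)), (hc' _).2 ⟨(hecr _).2 ⟨o, rfl⟩, hsg o⟩, ?_⟩
        show (((o.1 : ℕ), (m + (eS o.2 : ℕ), tl.getD (eS o.2 : ℕ) 0)),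
          (((sg o).1 : ℕ), (pcT.getD (eS (sg o).2 : ℕ) 0, hd.getD (eS (sg o).2 : ℕ) 0))) = _
        rw [htl, hpcT, hhd]
        rfl
  refine ⟨sg, ι, ?_, ?_, hι, ?_, ?_⟩
  · intro o
    apply henc
    rw [← hvc, ← hvc, hsg, hv']
  · intro o o' h
    refine RedSpec_same hec hsg (hs' _ ((hecr _).2 ⟨o, rfl⟩) _ ((hecr _).2 ⟨o', rfl⟩) ?_)
    rw [hvc, hvc, h]
  · intro a b
    constructor
    · intro h
      refine ⟨fun he => h.ne (hι he), ?_⟩
      rcases h with h | h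
      · exact Or.inl ((hmem _).2 ⟨a, b, h, rfl⟩)
      · exact Or.inr ((hmem _).2 ⟨b, a, h, rfl⟩)
    · rintro ⟨-, h | h⟩
      · obtain ⟨x, y, hxy, he⟩ := (hmem _).1 h
        obtain ⟨h1, h2⟩ := Prod.ext_iff.1 he
        rw [hι h1, hι h2]
        exact Or.inl hxy
      · obtain ⟨x, y, hxy, he⟩ := (hmem _).1 h
        obtain ⟨h1, h2⟩ := Prod.ext_iff.1 he
        rw [hι h1, hι h2]
        exact Or.inr hxy
  · intro e he
    obtain ⟨x, y, -, rfl⟩ := (hmem _).1 he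
    exact ⟨⟨x, rfl⟩, ⟨y, rfl⟩⟩

theorem pat_red {K : Kit H} {h : ℕ} (p : Pat h K.W)
    (hadj : ∀ s, K.gr.Adj (p.ar s).1 (p.ar s).2)
    (hinj : ∀ s s', p.pc s = p.pc s' → (p.ar s = p.ar s' ∨ p.ar s = (p.ar s').swap) → s = s')
    (hdeg : ∀ w : K.W, ∃ w', K.gr.Adj w w') (α : Type) [Inhabited α] [DecidableEq α] [Rep α] :
    ∃ Rd : List (List α) → List Bool,
      (∀ (β : Type) [Rep β] (E : β → List (List α)), PT true E → PT true (fun b => Rd (E b))) ∧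
      ∀ E : List (List α), ∃ (n : ℕ) (G : SimpleGraph (Fin n))
        (sg : Equiv.Perm (Fin E.length × p.Sl)), Rd E = enc G ∧
        (∀ o, p.var E (sg o) = p.var E o) ∧
        (∀ o o', p.var E o = p.var E o' → sg.SameCycle o o') ∧
        (Covers G H ↔ Covers ((p.inst E sg).graph K.gr) H) := by
  obtain ⟨cst, m, J, pcT, tl, hdT, sy, hs⟩ := redL_spec p
  refine ⟨fun E => mat (redL cst m J h pcT tl hdT sy E), ?_, fun E => ?_⟩
  · intro β _ E hE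
    exact PT.mat' (PT.redL' cst m J h pcT tl hdT sy hE)
  · obtain ⟨sg, ι, s1, s2, s3, s4, s5⟩ := hs α E
    have h3 : ∀ a : (p.inst E sg).Vx, ∃ b, ((p.inst E sg).graph K.gr).Adj a b := by
      rintro ⟨q, w⟩
      obtain ⟨nu, hnu, -⟩ := exists_nu (g := K.gr) (I := p.inst E sg)
        (fun o => hadj o.2) (fun o o' ho ho' => Prod.ext (Prod.ext_iff.1 ho).1
          (hinj o.2 o'.2 (Prod.ext_iff.1 ho).2 ho'))
      obtain ⟨w', hw'⟩ := hdeg w
      exact ⟨nu q w w', (hnu q w).mapsTo hw'⟩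
    obtain ⟨n, G, g1, g2⟩ := mat_cover _ _ ι s3 s4 s5 h3
    exact ⟨n, G, sg, g1, s1, s2, g2 V H⟩

end Pool.Agent.H24.GD
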