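import Pool.Agent.H24.GD.FDef
import Pool.Agent.H24.GD.RedSpec
import Pool.Agent.H24.GC.HardDef

/-!
# JOB GD-12: the reduction for a definable relation

Let `hR` give `Z, Q, tZ, np, ar, R'` and let `PDef` give `Y, B, tY, r₁, r₂, z₁, z₂`. The pattern `fPat` is the one
of `hdPat` (file `Pool.Agent.H24.GC.HardDef`) with hub variables `Fin h`: `Pc = B ⊕ Q`, `Sl = (B × Bool) ⊕ Z`,
auxiliary variables `Z ⊕ Y`.
`fdef_red`: `pat_red` for `fPat` gives `Rd` and, for `E`, `G` and `sg`. Then `core` (file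
`Pool.Agent.H24.GC.CoreB`) for the instance, `var = fPat.var E`, `kil (k, inl b) = True`,
`kil (k, inr q) = False`. The conditions `Inst.OK`: as in `hdPat_ok`, `Pattern_OK`; `sim1`, `sim2`: every slot has an
arc of the type of its symbol (`SlTy`, for the hub variable `j` the type `tX j`), and two occurrences with the
same variable have the same auxiliary variable (and copy), or are hub variables `j, j'` with
`(E.get k).getD j default = (E.get k').getD j' default`, so `hE` applies (`List.get_mem`).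
The right side of `core`, `a : α ⊕ (Fin E.length × (Z ⊕ Y)) → V × V`, is equivalent to the right side of
`fdef_red`, as in `pattern_iff` and `hdPat_rel`.
-/

namespace Pool.Agent.H24.GD

open Pool.Agent.H24.GC Pool.Agent.PPS Pool.Agent.H64.Cook Pool.Agent.H79.Thr

variable {V : Type} {H : SimpleGraph V}

/-- the pattern -/
def fPat {W Z Q Y B : Type} [Finite Z] [Finite Q] [Finite Y] [Finite B] (h : ℕ) (np : Z → Q)
    (ar : Z → W × W) (r₁ r₂ : B → W × W) (z₁ z₂ : B → (Fin h ⊕ Z) ⊕ Y) : Pat h W where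
  Pc := B ⊕ Q
  Sl := (B × Bool) ⊕ Z
  Y := Z ⊕ Y
  pc := Sum.elim (fun b => Sum.inl b.1) (fun z => Sum.inr (np z))
  ar := Sum.elim (fun b => if b.2 then r₂ b.1 else r₁ b.1) ar
  sy := Sum.elim (fun b => Equiv.sumAssoc (Fin h) Z Y (if b.2 then z₂ b.1 else z₁ b.1))
    (fun z => Sum.inr (Sum.inl z))
  finP := inferInstance
  finS := inferInstance
  finY := inferInstance

section FRedAux

variable {h : ℕ} {α : Type} [Inhabited α]

theorem FRed_var_inl {W : Type} (p : Pat h W) (E : List (List α)) (o : Fin E.length × p.Sl)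
    {j : Fin h} (hs : p.sy o.2 = Sum.inl j) :
    p.var E o = Sum.inl ((E.get o.1).getD (j : ℕ) default) := by
  unfold Pat.var
  rw [hs]
  rfl

theorem FRed_var_inr {W : Type} (p : Pat h W) (E : List (List α)) (o : Fin E.length × p.Sl)
    {y : p.Y} (hs : p.sy o.2 = Sum.inr y) : p.var E o = Sum.inr (o.1, y) := by
  unfold Pat.var
  rw [hs]
  rfl

/-- the relation between the hub variables defined by the pattern -/
def FRed_Rel (K : Kit H) (p : Pat h K.W) (u : Fin h → V × V) : Prop :=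
  ∃ v : p.Y → V × V, ∀ c, ∃ f : K.W → V, IsCover K.gr H f ∧ ∀ s, p.pc s = c →
    (f (p.ar s).1, f (p.ar s).2) = Sum.elim u v (p.sy s)

/-- conditions on a pattern with the types `tX` of the hub variables, `tY` of the auxiliary
variables, and the killer pieces `kil` -/
structure FRed_OK (K : Kit H) (p : Pat h K.W) (tX : Fin h → V × V) (tY : p.Y → V × V)
    (kil : p.Pc → Prop) : Prop where
  adj : ∀ s, K.gr.Adj (p.ar s).1 (p.ar s).2
  inj : ∀ s s', p.pc s = p.pc s' → (p.ar s = p.ar s' ∨ p.ar s = (p.ar s').swap) → s = s'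
  ty : ∀ s, SlTy K (p.ar s) (Sum.elim tX tY (p.sy s))
  hubk : ∀ s j, p.sy s = Sum.inl j → kil (p.pc s)
  non : ∀ s s', p.sy s = p.sy s' → ¬ kil (p.pc s) → ¬ kil (p.pc s') → s = s'
  str : ∀ c, kil c → Straight H K.gr K.π (fun w w' => ∃ s, p.pc s = c ∧ p.ar s = (w, w'))
  str1 : ∀ s, Straight H K.gr K.π (cut1 (p.ar s))

theorem FRed_sim [Finite V] {K : Kit H} {p : Pat h K.W} {tX : Fin h → V × V} {tY : p.Y → V × V}
    {kil : p.Pc → Prop} (hp : FRed_OK K p tX tY kil) (E : List (List α))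
    (hE : ∀ e ∈ E, ∀ e' ∈ E, ∀ j j' : Fin h,
      e.getD (j : ℕ) default = e'.getD (j' : ℕ) default →
      Sim H (tX j).1 (tX j').1 ∧ Sim H (tX j).2 (tX j').2)
    (o o' : Fin E.length × p.Sl) (ho : p.var E o = p.var E o') :
    Sim H (K.π (p.ar o.2).1) (K.π (p.ar o'.2).1) ∧
      Sim H (K.π (p.ar o.2).2) (K.π (p.ar o'.2).2) := by
  have h1 := hp.ty o.2
  have h2 := hp.ty o'.2
  rcases hs : p.sy o.2 with j | y <;> rcases hs' : p.sy o'.2 with j' | y'
  · rw [FRed_var_inl p E o hs, FRed_var_inl p E o' hs'] at ho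
    have h3 := hE _ (List.get_mem E o.1) _ (List.get_mem E o'.1) j j' (Sum.inl.inj ho)
    rw [hs] at h1
    rw [hs'] at h2
    exact ⟨sim_trans h1.1 (sim_trans h3.1 (sim_symm h2.1)),
      sim_trans h1.2 (sim_trans h3.2 (sim_symm h2.2))⟩
  · rw [FRed_var_inl p E o hs, FRed_var_inr p E o' hs'] at ho
    exact absurd ho (by simp)
  · rw [FRed_var_inr p E o hs, FRed_var_inl p E o' hs'] at ho
    exact absurd ho (by simp)
  · rw [FRed_var_inr p E o hs, FRed_var_inr p E o' hs'] at ho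
    have h3 : y = y' := congrArg Prod.snd (Sum.inr.inj ho)
    rw [hs] at h1
    rw [hs', ← h3] at h2
    exact ⟨sim_trans h1.1 (sim_symm h2.1), sim_trans h1.2 (sim_symm h2.2)⟩

theorem FRed_inst [Finite V] {K : Kit H} {p : Pat h K.W} {tX : Fin h → V × V} {tY : p.Y → V × V}
    {kil : p.Pc → Prop} (hp : FRed_OK K p tX tY kil) (E : List (List α))
    (hE : ∀ e ∈ E, ∀ e' ∈ E, ∀ j j' : Fin h,
      e.getD (j : ℕ) default = e'.getD (j' : ℕ) default →
      Sim H (tX j).1 (tX j').1 ∧ Sim H (tX j).2 (tX j').2)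
    (sg : Equiv.Perm (Fin E.length × p.Sl)) (h1 : ∀ o, p.var E (sg o) = p.var E o)
    (h2 : ∀ o o', p.var E o = p.var E o' → sg.SameCycle o o') :
    (p.inst E sg).OK K (p.var E) (fun q => kil q.2) where
  fin := (inferInstance : Finite (Fin E.length × p.Sl))
  adj o := hp.adj o.2
  inj := by
    intro o o' h3 h4
    have h5 : (o.1, p.pc o.2) = (o'.1, p.pc o'.2) := h3
    obtain ⟨h6, h7⟩ := Prod.ext_iff.1 h5
    exact Prod.ext h6 (hp.inj _ _ h7 h4)
  sim1 o := (FRed_sim hp E hE (sg o) o (h1 o)).1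
  sim2 o := (FRed_sim hp E hE (sg o) o (h1 o)).2
  var_sg := h1
  cyc := h2
  non := by
    intro o o' h3 h4 h5
    have h4' : ¬ kil (p.pc o.2) := h4
    have h5' : ¬ kil (p.pc o'.2) := h5
    rcases hs : p.sy o.2 with b | y
    · exact absurd (hp.hubk _ b hs) h4'
    · rcases hs' : p.sy o'.2 with b' | y'
      · exact absurd (hp.hubk _ b' hs') h5'
      · rw [FRed_var_inr p E o hs, FRed_var_inr p E o' hs'] at h3
        obtain ⟨h6, h7⟩ := Prod.ext_iff.1 (Sum.inr.inj h3)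
        dsimp only at h6 h7
        exact Prod.ext h6 (hp.non _ _ (by rw [hs, hs', h7]) h4' h5')
  str := by
    rintro ⟨k, c⟩ hq
    refine hd_straight (hp.str c hq) fun w w' => ?_
    constructor
    · rintro ⟨o, h4, h5⟩
      exact ⟨o.2, congrArg Prod.snd h4, h5⟩
    · rintro ⟨s, h4, h5⟩
      refine ⟨(k, s), ?_, h5⟩
      show (k, p.pc s) = (k, c)
      rw [h4]
  str1 o := hp.str1 o.2

theorem FRed_iff [Finite V] [Nonempty V] {K : Kit H} {p : Pat h K.W} {tX : Fin h → V × V}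
    {tY : p.Y → V × V} {kil : p.Pc → Prop} (hp : FRed_OK K p tX tY kil) (E : List (List α))
    (hE : ∀ e ∈ E, ∀ e' ∈ E, ∀ j j' : Fin h,
      e.getD (j : ℕ) default = e'.getD (j' : ℕ) default →
      Sim H (tX j).1 (tX j').1 ∧ Sim H (tX j).2 (tX j').2)
    (sg : Equiv.Perm (Fin E.length × p.Sl)) (h1 : ∀ o, p.var E (sg o) = p.var E o)
    (h2 : ∀ o o', p.var E o = p.var E o' → sg.SameCycle o o') :
    Covers ((p.inst E sg).graph K.gr) H ↔
      ∃ a : α → V × V, ∀ e ∈ E, FRed_Rel K p (fun j : Fin h => a (e.getD (j : ℕ) default)) := by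
  rw [core (FRed_inst hp E hE sg h1 h2)]
  constructor
  · rintro ⟨a, ha⟩
    refine ⟨fun u => a (Sum.inl u), fun e he => ?_⟩
    obtain ⟨k, hk⟩ := List.mem_iff_get.1 he
    refine ⟨fun y => a (Sum.inr (k, y)), fun c => ?_⟩
    obtain ⟨f, hf, h3⟩ := ha (k, c)
    refine ⟨f, hf, fun s hs => ?_⟩
    have h4 : (f (p.ar s).1, f (p.ar s).2) = a (p.var E (k, s)) := h3 (k, s) (by
      show (k, p.pc s) = (k, c)
      rw [hs])
    rw [h4]
    rcases hsy : p.sy s with b | y
    · rw [FRed_var_inl p E (k, s) hsy]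
      show a (Sum.inl ((E.get k).getD (b : ℕ) default)) = a (Sum.inl (e.getD (b : ℕ) default))
      rw [hk]
    · rw [FRed_var_inr p E (k, s) hsy]
      rfl
  · rintro ⟨a, ha⟩
    have h3 : ∀ k : Fin E.length,
        FRed_Rel K p (fun j : Fin h => a ((E.get k).getD (j : ℕ) default)) :=
      fun k => ha _ (List.get_mem _ _)
    choose v hv using h3
    refine ⟨Sum.elim a (fun q => v q.1 q.2), ?_⟩
    rintro ⟨k, c⟩
    obtain ⟨f, hf, h4⟩ := hv k c
    refine ⟨f, hf, ?_⟩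
    rintro ⟨k', s⟩ ho
    have h5 : (k', p.pc s) = (k, c) := ho
    have h6 : k' = k := congrArg Prod.fst h5
    have h7 : p.pc s = c := congrArg Prod.snd h5
    subst h6
    show (f (p.ar s).1, f (p.ar s).2) = Sum.elim a (fun q => v q.1 q.2) (p.var E (k', s))
    rw [h4 s h7]
    rcases hsy : p.sy s with b | y
    · rw [FRed_var_inl p E (k', s) hsy]
      rfl
    · rw [FRed_var_inr p E (k', s) hsy]
      rfl

end FRedAux

section FRedPat

variable {h : ℕ} {K : Kit H} {Z Q Y B : Type} [Finite Z] [Finite Q] [Finite Y] [Finite B]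
  {tX : Fin h → V × V} {tZ : Z → V × V} {tY : Y → V × V} {np : Z → Q} {ar : Z → K.W × K.W}
  {r₁ r₂ : B → K.W × K.W} {z₁ z₂ : B → (Fin h ⊕ Z) ⊕ Y}

theorem FRed_ty (hty : ∀ z, SlTy K (ar z) (tZ z))
    (hT : ∀ b, SlTy K (r₁ b) (Sum.elim (Sum.elim tX tZ) tY (z₁ b)) ∧
      SlTy K (r₂ b) (Sum.elim (Sum.elim tX tZ) tY (z₂ b)))
    (s : (B × Bool) ⊕ Z) :
    SlTy K ((fPat h np ar r₁ r₂ z₁ z₂).ar s)
      (Sum.elim tX (Sum.elim tZ tY) ((fPat h np ar r₁ r₂ z₁ z₂).sy s)) := by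
  rcases s with ⟨b, i⟩ | z
  · cases i
    · show SlTy K (r₁ b) (Sum.elim tX (Sum.elim tZ tY) (Equiv.sumAssoc (Fin h) Z Y (z₁ b)))
      rw [pdef_assoc]
      exact (hT b).1
    · show SlTy K (r₂ b) (Sum.elim tX (Sum.elim tZ tY) (Equiv.sumAssoc (Fin h) Z Y (z₂ b)))
      rw [pdef_assoc]
      exact (hT b).2
  · exact hty z

theorem FRed_ok (hadj : ∀ z, K.gr.Adj (ar z).1 (ar z).2) (hty : ∀ z, SlTy K (ar z) (tZ z))
    (hstr : ∀ z, Straight H K.gr K.π (cut1 (ar z)))
    (hinj : ∀ z z', np z = np z' → (ar z = ar z' ∨ ar z = (ar z').swap) → z = z')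
    (hK : ∀ b, Kl K (r₁ b) (r₂ b))
    (hT : ∀ b, SlTy K (r₁ b) (Sum.elim (Sum.elim tX tZ) tY (z₁ b)) ∧
      SlTy K (r₂ b) (Sum.elim (Sum.elim tX tZ) tY (z₂ b))) :
    FRed_OK K (fPat h np ar r₁ r₂ z₁ z₂) tX (Sum.elim tZ tY)
      (Sum.elim (fun _ => True) (fun _ => False)) where
  adj := by
    rintro (⟨b, i⟩ | z)
    · cases i
      · exact (hK b).adj₁
      · exact (hK b).adj₂
    · exact hadj z
  inj := by
    rintro (⟨b, i⟩ | z) (⟨b', i'⟩ | z') hpc har
    · have hb : b = b' := Sum.inl.inj hpc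
      subst hb
      cases i <;> cases i'
      · rfl
      · exfalso
        rcases har with har | har
        · exact (hK b).ne har
        · exact (hK b).ne' har
      · exfalso
        have har' : r₂ b = r₁ b ∨ r₂ b = (r₁ b).swap := har
        rcases har' with har | har
        · exact (hK b).ne har.symm
        · exact (hK b).ne' (by rw [har, Prod.swap_swap])
      · rfl
    · exact (Sum.inl_ne_inr hpc).elim
    · exact (Sum.inr_ne_inl hpc).elim
    · have hz : np z = np z' := Sum.inr.inj hpc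
      rw [hinj z z' hz har]
  ty := FRed_ty hty hT
  hubk := by
    rintro (⟨b, i⟩ | z) j hs
    · exact trivial
    · exact (Sum.inr_ne_inl hs).elim
  non := by
    rintro (⟨b, i⟩ | z) (⟨b', i'⟩ | z') hs hk hk'
    · exact (hk trivial).elim
    · exact (hk trivial).elim
    · exact (hk' trivial).elim
    · have h1 : z = z' := Sum.inl.inj (Sum.inr.inj hs)
      rw [h1]
  str := by
    rintro (b | q) hk
    · refine hd_straight (hK b).str fun w w' => ?_
      constructor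
      · rintro ⟨(⟨b', i⟩ | z), hs, ha⟩
        · have hb : b' = b := Sum.inl.inj hs
          subst hb
          cases i
          · exact Or.inl ha.symm
          · exact Or.inr ha.symm
        · exact (Sum.inr_ne_inl hs).elim
      · rintro (h | h)
        · exact ⟨Sum.inl (b, false), rfl, h.symm⟩
        · exact ⟨Sum.inl (b, true), rfl, h.symm⟩
    · exact hk.elim
  str1 := by
    rintro (⟨b, i⟩ | z)
    · cases i
      · exact (hK b).str₁
      · exact (hK b).str₂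
    · exact hstr z

theorem FRed_rel {R' : (Fin h ⊕ Z → V × V) → Prop}
    (hv : ∀ v, R' v ↔ ∃ y : Y → V × V, ∀ b,
      KR K (r₁ b) (r₂ b) (Sum.elim v y (z₁ b)) (Sum.elim v y (z₂ b))) (u : Fin h → V × V) :
    FRed_Rel K (fPat h np ar r₁ r₂ z₁ z₂) u ↔ ∃ y : Z → V × V, R' (Sum.elim u y) ∧
      ∀ q, ∃ f : K.W → V, IsCover K.gr H f ∧ ∀ z, np z = q → (f (ar z).1, f (ar z).2) = y z := by
  constructor
  · rintro ⟨v, h0⟩
    have h' : ∀ c : B ⊕ Q, ∃ f : K.W → V, IsCover K.gr H f ∧ ∀ s : (B × Bool) ⊕ Z,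
        (fPat h np ar r₁ r₂ z₁ z₂).pc s = c →
        (f ((fPat h np ar r₁ r₂ z₁ z₂).ar s).1, f ((fPat h np ar r₁ r₂ z₁ z₂).ar s).2) =
        Sum.elim u v ((fPat h np ar r₁ r₂ z₁ z₂).sy s) := h0
    refine ⟨fun z => v (Sum.inl z), (hv _).2 ⟨fun y => v (Sum.inr y), fun c => ?_⟩, fun q => ?_⟩
    · obtain ⟨f, hf, hs⟩ := h' (Sum.inl c)
      have e1 : (f (r₁ c).1, f (r₁ c).2) = Sum.elim u v
          (Equiv.sumAssoc (Fin h) Z Y (z₁ c)) := hs (Sum.inl (c, false)) rfl
      have e2 : (f (r₂ c).1, f (r₂ c).2) = Sum.elim u v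
          (Equiv.sumAssoc (Fin h) Z Y (z₂ c)) := hs (Sum.inl (c, true)) rfl
      have e3 : ∀ z : (Fin h ⊕ Z) ⊕ Y, Sum.elim u v (Equiv.sumAssoc (Fin h) Z Y z) =
          Sum.elim (Sum.elim u (fun z => v (Sum.inl z))) (fun y => v (Sum.inr y)) z := by
        rintro ((z | z) | z) <;> rfl
      rw [e3] at e1 e2
      exact ⟨f, hf, e1, e2⟩
    · obtain ⟨f, hf, hs⟩ := h' (Sum.inr q)
      refine ⟨f, hf, fun z hz => ?_⟩
      exact hs (Sum.inr z) (congrArg Sum.inr hz)
  · rintro ⟨v, hR, hq⟩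
    obtain ⟨y, hy⟩ := (hv _).1 hR
    refine ⟨Sum.elim v y, ?_⟩
    rintro (c | q)
    · obtain ⟨f, hf, e1, e2⟩ := hy c
      refine ⟨f, hf, ?_⟩
      rintro (⟨c', i⟩ | z) hs
      · have hc : c' = c := Sum.inl.inj hs
        subst hc
        cases i
        · show (f (r₁ c').1, f (r₁ c').2) = Sum.elim u (Sum.elim v y)
            (Equiv.sumAssoc (Fin h) Z Y (z₁ c'))
          rw [pdef_assoc]
          exact e1
        · show (f (r₂ c').1, f (r₂ c').2) = Sum.elim u (Sum.elim v y)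
            (Equiv.sumAssoc (Fin h) Z Y (z₂ c'))
          rw [pdef_assoc]
          exact e2
      · exact (Sum.inr_ne_inl hs).elim
    · obtain ⟨f, hf, hz⟩ := hq q
      refine ⟨f, hf, ?_⟩
      rintro (⟨c', i⟩ | z) hs
      · exact (Sum.inl_ne_inr hs).elim
      · exact hz z (Sum.inr.inj hs)

end FRedPat

theorem fdef_red [Finite V] [Nonempty V] {K : Kit H} (hdeg : ∀ w : K.W, ∃ w', K.gr.Adj w w')
    {h : ℕ} {tX : Fin h → V × V} {R : (Fin h → V × V) → Prop} (hR : FDef K tX R)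
    (α : Type) [Inhabited α] [DecidableEq α] [Rep α] :
    ∃ Rd : List (List α) → List Bool,
      (∀ (β : Type) [Rep β] (E : β → List (List α)), PT true E → PT true (fun b => Rd (E b))) ∧
      ∀ E : List (List α), (∀ e ∈ E, ∀ e' ∈ E, ∀ j j' : Fin h,
          e.getD (j : ℕ) default = e'.getD (j' : ℕ) default →
          Sim H (tX j).1 (tX j').1 ∧ Sim H (tX j).2 (tX j').2) →
        ∃ (n : ℕ) (G : SimpleGraph (Fin n)), Rd E = enc G ∧
          (Covers G H ↔ ∃ a : α → V × V, ∀ e ∈ E,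
            R (fun j : Fin h => a (e.getD (j : ℕ) default))) := by
  obtain ⟨Z, Q, fZ, fQ, tZ, np, ar, R', hP, hz, hinj, hRv⟩ := hR
  obtain ⟨Y, B, fY, fB, tY, r₁, r₂, z₁, z₂, hK, hT, hv⟩ := hP
  have hok : FRed_OK K (fPat h np ar r₁ r₂ z₁ z₂) tX (Sum.elim tZ tY)
      (Sum.elim (fun _ => True) (fun _ => False)) :=
    FRed_ok (fun z => (hz z).1) (fun z => (hz z).2.1) (fun z => (hz z).2.2) hinj hK hT
  obtain ⟨Rd, hRd, hE⟩ := pat_red (H := H) (fPat h np ar r₁ r₂ z₁ z₂) hok.adj hok.inj hdeg α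
  refine ⟨Rd, hRd, fun E hsim => ?_⟩
  obtain ⟨n, G, sg, h1, h2, h3, h4⟩ := hE E
  refine ⟨n, G, h1, h4.trans ((FRed_iff hok E hsim sg h2 h3).trans ?_)⟩
  refine exists_congr fun a => forall_congr' fun e => forall_congr' fun _ => ?_
  rw [FRed_rel hv, hRv]

end Pool.Agent.H24.GD
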