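import Pool.Agent.H24.GC.Straight
import Pool.Agent.H24.GD.Cut

/-!
# JOB GD-2: straight cuts under `CutOK`

`straight_congr`, `pcov_congr`: in `PCov` the relation `cut` is used only in the form
`¬ cut w w' → ¬ cut w' w → ...`.
`str_one`: as `straight_one` (file `Pool.Agent.H24.GC.Straight`), with `n_const1` in place of `n_const`:
`n x = {w | f w = x}.ncard` (`count_one`, `Straight_sum`), so `n` is constant, so `DD` is symmetric (for
non-adjacent pairs use `dl_arc_zero` as in `dd_symm`), `dd_cases`.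
`sw_two`: the two cut arcs have the tail `p` in common. `count_two` (with `(p, u) ≠ (p, o)`,
`(p, u) ≠ (o, p)`), `n_const2`: `(av f φ (p, u)).1 = f p = (av f φ (p, o)).1`, and
`(av f φ (p, u)).2 = φ p u ≠ φ p o` as `φ p` is injective on the neighbours of `p` (`h.bij p`). So `DD` is
symmetric; `dd_cases`: the third case `a₂ = a₁.swap` is impossible as `a₂.1 = a₁.1 = f p ≠ a₁.2` (`h.bij`,
`H.Adj (f p) (φ p u)`).
`str_two`: the second case of `sw_two` would give `φ p u = f o`, but `φ p u ~ π u` (`simp`), `f o ~ π o` (`simf`);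
the first case: `Straight_red`.
`sw_tail`: all four values have the tail `f p`, or (second form) if the common vertex is the head.
-/

namespace Pool.Agent.H24.GD

open Pool.Agent.H24.GC

variable {V : Type} {H : SimpleGraph V}

theorem pcov_congr {W : Type} {g : SimpleGraph W} {π : W → V} {cut cut' : W → W → Prop}
    (hc : ∀ w w', (cut w w' ∨ cut w' w) ↔ (cut' w w' ∨ cut' w' w)) {f : W → V} {φ : W → W → V}
    (h : PCov H g π cut f φ) : PCov H g π cut' f φ := by
  refine ⟨h.bij, ?_, h.simf, h.simp⟩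
  intro w w' hw h1 h2
  have h3 : ¬ (cut w w' ∨ cut w' w) := by
    rw [hc w w']
    rintro (h4 | h4)
    · exact h1 h4
    · exact h2 h4
  exact h.unc w w' hw (fun h4 => h3 (Or.inl h4)) (fun h4 => h3 (Or.inr h4))

theorem straight_congr {W : Type} {g : SimpleGraph W} {π : W → V} {cut cut' : W → W → Prop}
    (hc : ∀ w w', (cut w w' ∨ cut w' w) ↔ (cut' w w' ∨ cut' w' w))
    (h : Straight H g π cut) : Straight H g π cut' := by
  intro f φ h'
  exact h f φ (pcov_congr (fun w w' => (hc w w').symm) h')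

variable {K : Kit H}

theorem str_symm {P : V → V → Prop} {a₁ a₂ b₁ b₂ : V × V}
    (ha₁ : Arc H P a₁) (ha₂ : Arc H P a₂) (hb₁ : Arc H P b₁) (hb₂ : Arc H P b₂) {n : V → ℤ}
    (hn : ∀ x y, H.Adj x y → n x - n y = DD a₁ a₂ b₁ b₂ x y - DD a₁ a₂ b₁ b₂ y x) {c : ℤ}
    (hs : ∀ x, n x = c) (x y : V) :
    DD a₁ a₂ b₁ b₂ x y = DD a₁ a₂ b₁ b₂ y x := by
  by_cases h : H.Adj x y
  · have h1 := hn x y h
    rw [hs x, hs y] at h1
    omega
  · have h' : ¬ H.Adj y x := fun e => h e.symm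
    unfold DD
    rw [dl_arc_zero ha₁ h, dl_arc_zero ha₂ h, dl_arc_zero hb₁ h, dl_arc_zero hb₂ h,
      dl_arc_zero ha₁ h', dl_arc_zero ha₂ h', dl_arc_zero hb₁ h', dl_arc_zero hb₂ h']

theorem str_one [Finite V] {c : ℕ} (hc : K.Mult c) {r : K.W × K.W} (hr : K.gr.Adj r.1 r.2)
    (hP : CutOK H (Ty H (K.π r.1) (K.π r.2))) : Straight H K.gr K.π (cut1 r) := by
  have := Fintype.ofFinite V
  intro f φ h
  have ha := arc_av h hr
  have hb := arc_bv h hr
  have hn := fun x y hxy => count_one hr h x y hxy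
  have hconst := n_const1 hP ha hb (n := fun x => ({w | f w = x}.ncard : ℤ)) hn (Straight_sum hc f)
  have hsym := str_symm ha ha hb ha (n := fun x => ({w | f w = x}.ncard : ℤ)) hn hconst
  have key : av f φ r = bv f φ r := by
    rcases dd_cases ha.1.ne ha.1.ne hb.1.ne ha.1.ne hsym with h1 | h1 | h1
    · exact h1.1
    · exact h1.2
    · exfalso
      exact ha.1.ne (congrArg Prod.fst h1.1)
  exact Straight_red (r₁ := r) (r₂ := r) (fun w w' hw => Or.inl hw) h key key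

theorem sw_two [Finite V] {c : ℕ} (hc : K.Mult c) {p u o : K.W} (hu : K.gr.Adj p u)
    (ho : K.gr.Adj p o) (huo : u ≠ o)
    (hP : CutOK H (fun x y => Ty H (K.π p) (K.π u) x y ∨ Ty H (K.π p) (K.π o) x y))
    {f : K.W → V} {φ : K.W → K.W → V} (h : PCov H K.gr K.π (cut2 (p, u) (p, o)) f φ) :
    (av f φ (p, u) = bv f φ (p, u) ∧ av f φ (p, o) = bv f φ (p, o)) ∨
      (av f φ (p, u) = bv f φ (p, o) ∧ av f φ (p, o) = bv f φ (p, u)) := by
  have := Fintype.ofFinite V
  have hu' : K.gr.Adj (p, u).1 (p, u).2 := hu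
  have ho' : K.gr.Adj (p, o).1 (p, o).2 := ho
  have hne : (p, u) ≠ (p, o) := fun h0 => huo (congrArg Prod.snd h0)
  have hne' : (p, u) ≠ (p, o).swap := by
    intro h0
    have h1 : p = o := congrArg Prod.fst h0
    exact ho.ne h1
  have ha₁ := Straight_arc (P' := fun x y => Ty H (K.π p) (K.π u) x y ∨
    Ty H (K.π p) (K.π o) x y) (fun _ _ h3 => Or.inl h3) (arc_av h hu')
  have hb₁ := Straight_arc (P' := fun x y => Ty H (K.π p) (K.π u) x y ∨
    Ty H (K.π p) (K.π o) x y) (fun _ _ h3 => Or.inl h3) (arc_bv h hu')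
  have ha₂ := Straight_arc (P' := fun x y => Ty H (K.π p) (K.π u) x y ∨
    Ty H (K.π p) (K.π o) x y) (fun _ _ h3 => Or.inr h3) (arc_av h ho')
  have hb₂ := Straight_arc (P' := fun x y => Ty H (K.π p) (K.π u) x y ∨
    Ty H (K.π p) (K.π o) x y) (fun _ _ h3 => Or.inr h3) (arc_bv h ho')
  have hn := fun x y hxy => count_two hu' ho' hne hne' h x y hxy
  have hane : av f φ (p, u) ≠ av f φ (p, o) := by
    intro h0
    exact huo ((h.bij p).injOn hu ho (congrArg Prod.snd h0))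
  have hconst := n_const2 hP ha₁ ha₂ hb₁ hb₂ rfl hane
    (n := fun x => ({w | f w = x}.ncard : ℤ)) hn (Straight_sum hc f)
  have hsym := str_symm ha₁ ha₂ hb₁ hb₂ (n := fun x => ({w | f w = x}.ncard : ℤ)) hn hconst
  rcases dd_cases ha₁.1.ne ha₂.1.ne hb₁.1.ne hb₂.1.ne hsym with h1 | h1 | h1
  · exact Or.inl h1
  · exact Or.inr h1
  · exfalso
    exact ha₁.1.ne (congrArg Prod.fst h1.1)

theorem str_two [Finite V] {c : ℕ} (hc : K.Mult c) {p u o : K.W} (hu : K.gr.Adj p u)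
    (ho : K.gr.Adj p o) (huo : ¬ Sim H (K.π u) (K.π o))
    (hP : CutOK H (fun x y => Ty H (K.π p) (K.π u) x y ∨ Ty H (K.π p) (K.π o) x y)) :
    Straight H K.gr K.π (cut2 (p, u) (p, o)) := by
  intro f φ h
  have hne : u ≠ o := by
    rintro rfl
    exact huo (sim_refl H _)
  rcases sw_two hc hu ho hne hP h with ⟨h1, h2⟩ | ⟨h1, h2⟩
  · exact Straight_red (r₁ := (p, u)) (r₂ := (p, o)) (fun w w' hw => hw) h h1 h2
  · exfalso
    apply huo
    have e2 : φ p u = f o := congrArg Prod.snd h1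
    have s1 := h.simp p u hu
    rw [e2] at s1
    exact sim_trans (sim_symm s1) (h.simf o)

/-- two cut arcs with the same tail -/
theorem sw_tail [Finite V] {c : ℕ} (hc : K.Mult c) {p u o : K.W} (hu : K.gr.Adj p u)
    (ho : K.gr.Adj p o) (huo : u ≠ o)
    (hP : CutOK H (fun x y => Ty H (K.π p) (K.π u) x y ∨ Ty H (K.π p) (K.π o) x y))
    {cut : K.W → K.W → Prop} (hcut : ∀ w w', cut w w' ↔ (w, w') = (p, u) ∨ (w, w') = (p, o))
    {f : K.W → V} {φ : K.W → K.W → V} (h : PCov H K.gr K.π cut f φ) :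
    (av f φ (p, u)).1 = f p ∧ (av f φ (p, o)).1 = f p ∧ (bv f φ (p, u)).1 = f p ∧
      (bv f φ (p, o)).1 = f p ∧ (av f φ (p, u)).2 ≠ (av f φ (p, o)).2 ∧
      H.Adj (f p) (av f φ (p, u)).2 ∧ H.Adj (f p) (av f φ (p, o)).2 := by
  have h' : PCov H K.gr K.π (cut2 (p, u) (p, o)) f φ := by
    refine pcov_congr (fun w w' => ?_) h
    rw [hcut w w', hcut w' w]
    exact Iff.rfl
  have hinj : φ p u ≠ φ p o := fun h0 => huo ((h.bij p).injOn hu ho h0)
  have hm1 : H.Adj (f p) (φ p u) := (h.bij p).mapsTo hu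
  have hm2 : H.Adj (f p) (φ p o) := (h.bij p).mapsTo ho
  rcases sw_two hc hu ho huo hP h' with ⟨h1, h2⟩ | ⟨h1, h2⟩
  · refine ⟨rfl, rfl, ?_, ?_, hinj, hm1, hm2⟩
    · rw [← h1]
      rfl
    · rw [← h2]
      rfl
  · refine ⟨rfl, rfl, ?_, ?_, hinj, hm1, hm2⟩
    · rw [← h2]
      rfl
    · rw [← h1]
      rfl

/-- two cut arcs with the same head -/
theorem sw_head [Finite V] {c : ℕ} (hc : K.Mult c) {q w z : K.W} (hw : K.gr.Adj q w)
    (hz : K.gr.Adj q z) (hwz : w ≠ z)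
    (hP : CutOK H (fun x y => Ty H (K.π q) (K.π w) x y ∨ Ty H (K.π q) (K.π z) x y))
    {cut : K.W → K.W → Prop} (hcut : ∀ a b, cut a b ↔ (a, b) = (w, q) ∨ (a, b) = (z, q))
    {f : K.W → V} {φ : K.W → K.W → V} (h : PCov H K.gr K.π cut f φ) :
    (av f φ (w, q)).2 = f q ∧ (av f φ (z, q)).2 = f q ∧ (bv f φ (w, q)).2 = f q ∧
      (bv f φ (z, q)).2 = f q := by
  have h' : PCov H K.gr K.π (cut2 (q, w) (q, z)) f φ := by
    refine pcov_congr (fun a b => ?_) h
    rw [hcut a b, hcut b a]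
    unfold cut2
    simp only [Prod.mk.injEq]
    tauto
  obtain ⟨-, -, h3, h4, -⟩ := sw_tail hc hw hz hwz hP (fun a b => Iff.rfl) h'
  exact ⟨h3, h4, rfl, rfl⟩

end Pool.Agent.H24.GD
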