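import Pool.Agent.H24.GC.Kit
import Pool.Agent.H24.GC.KitAdd
import Pool.Agent.H24.GD.Str

/-!
# JOB GD-6: a kit with a universal base vertex over every vertex

`exists_kitall`: choose for every `v` the kit `K v`, the sides `sd v`, the number `M v` and the base
vertex `w v` of `kit_exists H v`. `W = Σ v, (K v).W`, two vertices are adjacent if they are in the same
summand and adjacent there, `π (v, x) = (K v).π x`, `P v = (v, w v)`, `M = ∑ v, M v` (`Nat.card_sigma`).
A map on `W` is a cover iff its restrictions to all summands are covers (the neighbourhood of `(v, x)` is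
the image of the neighbourhood of `x` under `Sigma.mk v`). `Univ (P v)`: extend the cover of `K v` by
`(K u).π` on the other summands (`Function.update`, or define it by cases).

`Base K P`: the base vertices `P v` are universal, and the cuts at base vertices are straight.
`base_of_cut`: `exists_kitall`, `str_one`, `str_two`, with `CutOK.mono`; `deg`: `V` has at least two elements
(`hne`), so every `v` has a neighbour (otherwise `S = {v}` is a cut without edges, contradiction to `CutOK`;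
see `exists_adj` in `Pool.Agent.H24.GC.Conn`), and lift (`lift_adj`).
`Base.kl`, `Base.kl'`, ...: the killer pieces (`Kl`, file `Pool.Agent.H24.GC.PDef`) with two cut arcs at a base
vertex, in all orientations: `straight_congr`.
-/

namespace Pool.Agent.H24.GD

open Pool.Agent.H24.GC

variable {V : Type} {H : SimpleGraph V}

/-- the arcs of the disjoint union of kits -/
def KitAllR (K : V → Kit H) (p q : Σ v, (K v).W) : Prop :=
  ∃ (v : V) (x y : (K v).W), (K v).gr.Adj x y ∧ p = ⟨v, x⟩ ∧ q = ⟨v, y⟩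

/-- the graph of the disjoint union of kits -/
def KitAllG (K : V → Kit H) : SimpleGraph (Σ v, (K v).W) where
  Adj := KitAllR K
  symm := ⟨by
    rintro p q ⟨v, x, y, h, hp, hq⟩
    exact ⟨v, y, x, h.symm, hq, hp⟩⟩
  loopless := ⟨by
    rintro p ⟨v, x, y, h, hp, hq⟩
    have h1 : x = y := by
      have h2 : (⟨v, x⟩ : Σ v, (K v).W) = ⟨v, y⟩ := hp.symm.trans hq
      exact eq_of_heq (Sigma.mk.inj h2).2
    exact h.ne h1⟩

theorem KitAll_adj {K : V → Kit H} {v : V} {x : (K v).W} {q : Σ v, (K v).W} :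
    (KitAllG K).Adj ⟨v, x⟩ q ↔ ∃ y, q = ⟨v, y⟩ ∧ (K v).gr.Adj x y := by
  constructor
  · rintro ⟨v', x', y', h, hp, hq⟩
    obtain rfl : v = v' := congrArg Sigma.fst hp
    obtain rfl : x = x' := eq_of_heq (Sigma.mk.inj hp).2
    exact ⟨y', hq, h⟩
  · rintro ⟨y, rfl, h⟩
    exact ⟨v, x, y, h, rfl, rfl⟩

theorem KitAll_nb (K : V → Kit H) (v : V) (x : (K v).W) :
    (KitAllG K).neighborSet ⟨v, x⟩ = Sigma.mk v '' (K v).gr.neighborSet x := by
  ext q
  rw [SimpleGraph.mem_neighborSet, KitAll_adj]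
  constructor
  · rintro ⟨y, rfl, h⟩
    exact ⟨y, h, rfl⟩
  · rintro ⟨y, h, rfl⟩
    exact ⟨y, rfl, h⟩

theorem KitAll_cover (K : V → Kit H) (f : (Σ v, (K v).W) → V) :
    IsCover (KitAllG K) H f ↔ ∀ v, IsCover (K v).gr H (fun x => f ⟨v, x⟩) := by
  constructor
  · intro h v x
    have h1 := h ⟨v, x⟩
    rw [KitAll_nb] at h1
    exact (KitAdd_bij sigma_mk_injective).1 h1
  · rintro h ⟨v, x⟩
    rw [KitAll_nb]
    exact (KitAdd_bij sigma_mk_injective).2 (h v x)

/-- the disjoint union of kits -/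
def KitAllK [Finite V] (K : V → Kit H) : Kit H where
  W := Σ v, (K v).W
  fin := inferInstance
  gr := KitAllG K
  π := fun p => (K p.1).π p.2
  cov := (KitAll_cover K _).2 fun v => (K v).cov

theorem KitAll_univ [Finite V] (K : V → Kit H) {v : V} {p : (K v).W} (h : (K v).Univ p) :
    (KitAllK K).Univ (⟨v, p⟩ : Σ v, (K v).W) := by
  classical
  intro x σ τ hx hσ hτ
  obtain ⟨f, hf, hfp, hf1, hf2⟩ := h x σ τ hx hσ hτ
  let g : (Σ v, (K v).W) → V := fun q => if e : q.1 = v then f (e ▸ q.2) else (K q.1).π q.2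
  have hg : ∀ y : (K v).W, g ⟨v, y⟩ = f y := by
    intro y
    show (if e : v = v then f (e ▸ y) else (K v).π y) = f y
    rw [dif_pos rfl]
  have hgc : IsCover (KitAllG K) H g := by
    refine (KitAll_cover K g).2 fun u => ?_
    by_cases hu : u = v
    · subst hu
      have h1 : (fun y : (K u).W => g ⟨u, y⟩) = f := funext hg
      rw [h1]
      exact hf
    · have h1 : (fun y : (K u).W => g ⟨u, y⟩) = (K u).π := by
        funext y
        show (if e : u = v then f (e ▸ y) else (K u).π y) = (K u).π y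
        rw [dif_neg hu]
      rw [h1]
      exact (K u).cov
  refine ⟨g, hgc, (hg p).trans hfp, ?_, ?_⟩
  · intro q hq
    obtain ⟨y, rfl, hy⟩ := KitAll_adj.1 hq
    exact (hg y).trans (hf1 y hy)
  · intro q q' hq hq'
    obtain ⟨y, rfl, hy⟩ := KitAll_adj.1 hq
    obtain ⟨y', rfl, hy'⟩ := KitAll_adj.1 hq'
    exact (hg y').trans (hf2 y y' hy hy')

theorem exists_kitall [Finite V] (H : SimpleGraph V) :
    ∃ (K : Kit H) (sd : K.W → Bool) (M : ℕ) (P : V → K.W),
      (∀ u v, K.gr.Adj u v → sd u ≠ sd v) ∧ K.Mult (2 * M) ∧ (∀ v, K.π (P v) = v) ∧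
      (∀ v, sd (P v) = true) ∧ ∀ v, K.Univ (P v) := by
  choose K sd M w h1 h2 h3 h4 h5 using fun v => kit_exists H v
  have := Fintype.ofFinite V
  refine ⟨KitAllK K, fun p => sd p.1 p.2, ∑ v, M v, fun v => ⟨v, w v⟩, ?_, ?_, h3, h4,
    fun v => KitAll_univ K (h5 v)⟩
  · rintro _ _ ⟨v, x, y, h, rfl, rfl⟩
    exact h1 v x y h
  · show Nat.card (Σ v, (K v).W) = 2 * (∑ v, M v) * Nat.card V
    rw [Nat.card_sigma, Finset.mul_sum, Finset.sum_mul]
    exact Finset.sum_congr rfl fun v _ => h2 v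

/-- the kit `K` has a universal base vertex `P v` over every vertex `v`, and cuts at the base
vertices are straight -/
structure Base (K : Kit H) (P : V → K.W) : Prop where
  pi : ∀ v, K.π (P v) = v
  univ : ∀ v, K.Univ (P v)
  str1 : ∀ v u, K.gr.Adj (P v) u → Straight H K.gr K.π (cut1 (P v, u))
  str2 : ∀ v u o, K.gr.Adj (P v) u → K.gr.Adj (P v) o → ¬ Sim H (K.π u) (K.π o) →
    Straight H K.gr K.π (cut2 (P v, u) (P v, o))
  deg : ∀ w, ∃ w', K.gr.Adj w w'

theorem KitAll_exists (hP : CutOK H (fun _ _ => True)) (hne : ∃ x y : V, x ≠ y) (v : V) :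
    ∃ u, H.Adj v u := by
  by_contra hcon
  push Not at hcon
  obtain ⟨w, hw⟩ : ∃ w, w ≠ v := by
    obtain ⟨x, y, hxy⟩ := hne
    by_cases h : x = v
    · exact ⟨y, fun h' => hxy (h.trans h'.symm)⟩
    · exact ⟨x, h⟩
  rcases hP {v} ⟨v, rfl⟩ ⟨w, hw⟩ (fun _ _ _ _ _ => trivial) with h | h
  · have hem : {e : V × V | e.1 ∈ ({v} : Set V) ∧ e.2 ∈ ({v} : Set V)ᶜ ∧ H.Adj e.1 e.2} = ∅ := by
      rw [Set.eq_empty_iff_forall_notMem]
      rintro ⟨x, y⟩ ⟨h1, _, h4⟩
      have h1' : x = v := h1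
      subst h1'
      exact hcon y h4
    rw [hem, Set.ncard_empty] at h
    omega
  · obtain ⟨x, hx, -, -, y, -, -, -, hxy, -⟩ := h
    have hx' : x = v := hx
    subst hx'
    exact hcon y hxy

theorem base_of_cut [Finite V] (hP : CutOK H (fun _ _ => True)) (hne : ∃ x y : V, x ≠ y) :
    ∃ (K : Kit H) (P : V → K.W), Base K P := by
  obtain ⟨K, sd, M, P, -, hM, hpi, -, hU⟩ := exists_kitall H
  refine ⟨K, P, hpi, hU, ?_, ?_, ?_⟩
  · intro v u hu
    exact str_one hM (r := (P v, u)) hu (hP.mono fun _ _ _ => trivial)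
  · intro v u o hu ho huo
    exact str_two hM hu ho huo (hP.mono fun _ _ _ => trivial)
  · intro w
    obtain ⟨u, hu⟩ := KitAll_exists hP hne (K.π w)
    obtain ⟨w', hw', -⟩ := (K.cov w).surjOn hu
    exact ⟨w', hw'⟩

theorem Base.str1' {K : Kit H} {P : V → K.W} (hB : Base K P) {v : V} {u : K.W}
    (hu : K.gr.Adj (P v) u) : Straight H K.gr K.π (cut1 (u, P v)) := by
  refine straight_congr (fun w w' => ?_) (hB.str1 v u hu)
  unfold cut1
  simp only [Prod.mk.injEq]
  tauto

end Pool.Agent.H24.GD
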