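import Pool.Agent.H24.GD.CoreF
import Pool.Agent.H24.GC.RedPT

/-!
# JOB GD-4: patterns with several hub variables; the list of edges

`Pat h W`: as `Pattern` (file `Pool.Agent.H24.GC.Pattern`) with the hub variables `Fin h`. An instance is a list
`E` of tuples (lists, `e.getD j default` is the value of the hub variable `j`); there is a copy of the
pattern for every element of `E`.
`redL cst m J pcT tl hd sy h E` is the list of the edges of the graph, with the codes of `redE`
(file `Pool.Agent.H24.GC.RedPT`): vertex `w` of the copy `k` of the piece `c < m` is `(k, (c, w))`, vertex `w` of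
the copy `k` of the spacer of the slot `j < J` is `(k, (m + j, w))`. In the table `sy` the hub variable `j` has
the number `j`, the auxiliary variable `y` the number `h + y`.
`PT.redL'`: as `PT.redE'` (the auxiliary statements there are private, copy them: `PT.fibAux`, `PT.crossAux`,
`PT.ocsAux`; the proof of the analogue of `PT.vcodeAux` is the same: `bif decide (...)` and `fun_prop`, with
`PT.getD'` twice).
-/

namespace Pool.Agent.H24.GD

open Pool.Agent.H24.GC Pool.Agent.PPS Pool.Agent.H64.Cook Pool.Agent.H79.Thr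

variable {V : Type} {H : SimpleGraph V}

/-- a pattern with hub variables `Fin h`, pieces `Pc`, slots `Sl`, auxiliary variables `Y`; the slot
`s` belongs to the piece `pc s`, is the arc `ar s` and carries the variable `sy s` -/
structure Pat (h : ℕ) (W : Type) where
  Pc : Type
  Sl : Type
  Y : Type
  pc : Sl → Pc
  ar : Sl → W × W
  sy : Sl → Fin h ⊕ Y
  finP : Finite Pc
  finS : Finite Sl
  finY : Finite Y

attribute [instance] Pat.finP Pat.finS Pat.finY

/-- the variable of an occurrence -/
def Pat.var {h : ℕ} {W : Type} (p : Pat h W) {α : Type} [Inhabited α] (E : List (List α))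
    (o : Fin E.length × p.Sl) : α ⊕ (Fin E.length × p.Y) :=
  Sum.elim (fun j : Fin h => Sum.inl ((E.get o.1).getD (j : ℕ) default)) (fun y => Sum.inr (o.1, y))
    (p.sy o.2)

/-- the instance for the list `E` -/
def Pat.inst {h : ℕ} {W : Type} (p : Pat h W) {α : Type} (E : List (List α))
    (sg : Equiv.Perm (Fin E.length × p.Sl)) : Inst W where
  P := Fin E.length × p.Pc
  O := Fin E.length × p.Sl
  pc o := (o.1, p.pc o.2)
  ar o := p.ar o.2
  sg := sg

section

variable {α : Type} [Inhabited α]

/-- code of the variable of the slot number `o.2` of the copy `o.1` -/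
def vcodeL (h : ℕ) (sy : List ℕ) (E : List (List α)) (o : ℕ × ℕ) : ℕ × (ℕ × α) :=
  if sy.getD o.2 0 < h then (0, (0, (E.getD o.1 []).getD (sy.getD o.2 0) default))
  else (o.1 + 1, (sy.getD o.2 0, default))

/-- the list of the edges of the instance for `E` -/
def redL [DecidableEq α] (cst : List ((ℕ × ℕ) × (ℕ × ℕ))) (m J h : ℕ) (pcT tl hd sy : List ℕ)
    (E : List (List α)) : List ((ℕ × (ℕ × ℕ)) × (ℕ × (ℕ × ℕ))) :=
  (List.range E.length).flatMap (fun k => cst.map (fun e => ((k, e.1), (k, e.2)))) ++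
  (crossPairs (ocs E.length J) (vcodeL h sy E) (0, 0)).map
    (fun q => ((q.1.1, (m + q.1.2, tl.getD q.1.2 0)), (q.2.1, (pcT.getD q.2.2 0, hd.getD q.2.2 0))))

omit [Inhabited α] in
private theorem PT.patFib {B D Z : Type} [Rep B] [Rep D] [Rep Z] [DecidableEq Z] {m : Bool}
    {l : B → List D} {vr : B × D → Z} (hl : PT m l) (hv : PT m vr) {z : B → Z} (hz : PT m z) :
    PT m (fun b => fib (l b) (fun o => vr (b, o)) (z b)) := by
  unfold fib
  refine H64.Cook.PT.filter' (m := m) (l := l)
    (f := fun w : B × D => decide (vr w = z w.1)) hl ?_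
  have h1 : PT m (fun w : B × D => z w.1) := hz.comp' PT.fst
  exact PT.decideEq hv h1

omit [Inhabited α] in
private theorem PT.patCross {B D Z : Type} [Rep B] [Rep D] [Rep Z] [DecidableEq Z] {m : Bool}
    {l : B → List D} {vr : B × D → Z} (hl : PT m l) (hv : PT m vr) (d : D) :
    PT m (fun b => crossPairs (l b) (fun o => vr (b, o)) d) := by
  have h0 : PT m (fun b => (l b).map (fun o => vr (b, o))) :=
    PT.map' (m := m) (l := l) (f := vr) hl hv
  have h1 : PT m (fun b => ((l b).map (fun o => vr (b, o))).dedup) := H64.ENC.PT.dedup' h0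
  have hl1 : PT m (fun w : B × Z => l w.1) := hl.comp' PT.fst
  have hv1 : PT m (fun w : (B × Z) × D => vr (w.1.1, w.2)) := hv.comp' (by fun_prop)
  have hf : PT m (fun w : B × Z => fib (l w.1) (fun o => vr (w.1, o)) w.2) :=
    PT.patFib (B := B × Z) (l := fun w => l w.1) (vr := fun w => vr (w.1.1, w.2)) hl1 hv1 PT.snd
  have hf1 : PT m (fun w : (B × Z) × ℕ => fib (l w.1.1) (fun o => vr (w.1.1, o)) w.1.2) :=
    hf.comp' (f := fun w : (B × Z) × ℕ => w.1) PT.fst
  unfold crossPairs
  refine H64.Cook.PT.flatMap' (m := m) (l := fun b => ((l b).map (fun o => vr (b, o))).dedup)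
    (f := fun w : B × Z => (List.range (fib (l w.1) (fun o => vr (w.1, o)) w.2).length).map
      (fun i => ((fib (l w.1) (fun o => vr (w.1, o)) w.2).getD i d,
        ((fib (l w.1) (fun o => vr (w.1, o)) w.2) ++
          (fib (l w.1) (fun o => vr (w.1, o)) w.2)).getD (i + 1) d))) h1 ?_
  refine PT.map' (m := m)
    (l := fun w : B × Z => List.range (fib (l w.1) (fun o => vr (w.1, o)) w.2).length)
    (f := fun w : (B × Z) × ℕ => ((fib (l w.1.1) (fun o => vr (w.1.1, o)) w.1.2).getD w.2 d,
        ((fib (l w.1.1) (fun o => vr (w.1.1, o)) w.1.2) ++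
          (fib (l w.1.1) (fun o => vr (w.1.1, o)) w.1.2)).getD (w.2 + 1) d)) ?_ ?_
  · fun_prop
  · fun_prop

private theorem PT.patVcode [Rep α] (h : ℕ) (sy : List ℕ) {B : Type} [Rep B] {m : Bool}
    {E : B → List (List α)} (hE : PT m E) :
    PT m (fun z : B × (ℕ × ℕ) => vcodeL h sy (E z.1) z.2) := by
  have hE1 : PT m (fun z : B × (ℕ × ℕ) => E z.1) := hE.comp' PT.fst
  have hs : PT m (fun z : B × (ℕ × ℕ) => sy.getD z.2.2 0) := by fun_prop
  have hd : PT m (fun z : B × (ℕ × ℕ) => decide (sy.getD z.2.2 0 < h)) :=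
    PT.decideLt hs (PT.const h)
  have hg : PT m (fun z : B × (ℕ × ℕ) =>
      ((E z.1).getD z.2.1 []).getD (sy.getD z.2.2 0) (default : α)) := by
    fun_prop
  have hh : PT m (fun z : B × (ℕ × ℕ) =>
      (bif decide (sy.getD z.2.2 0 < h) then
        ((0 : ℕ), ((0 : ℕ), ((E z.1).getD z.2.1 []).getD (sy.getD z.2.2 0) (default : α)))
      else (z.2.1 + 1, (sy.getD z.2.2 0, (default : α))))) := by
    fun_prop
  refine hh.of_eq ?_
  intro z
  unfold vcodeL
  by_cases h0 : sy.getD z.2.2 0 < h
  · rw [if_pos h0, decide_eq_true h0, cond_true]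
  · rw [if_neg h0, decide_eq_false h0, cond_false]

omit [Inhabited α] in
private theorem PT.patOcs (J : ℕ) {B : Type} [Rep B] {m : Bool} {n : B → ℕ} (hn : PT m n) :
    PT m (fun b => ocs (n b) J) := by
  unfold ocs
  refine H64.Cook.PT.flatMap' (m := m) (l := fun b => List.range (n b))
    (f := fun z : B × ℕ => (List.range J).map (fun j => (z.2, j))) (by fun_prop) ?_
  exact PT.map' (m := m) (l := fun _ : B × ℕ => List.range J)
    (f := fun w : (B × ℕ) × ℕ => (w.1.2, w.2)) (by fun_prop) (by fun_prop)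

theorem PT.redL' [Rep α] [DecidableEq α] (cst : List ((ℕ × ℕ) × (ℕ × ℕ))) (m J h : ℕ)
    (pcT tl hd sy : List ℕ) {β : Type} [Rep β] {E : β → List (List α)} (hE : PT true E) :
    PT true (fun b => redL cst m J h pcT tl hd sy (E b)) := by
  have hlen : PT true (fun b => (E b).length) := by fun_prop
  have hcr : PT true (fun b => crossPairs (ocs (E b).length J) (vcodeL h sy (E b)) (0, 0)) :=
    PT.patCross (l := fun b => ocs (E b).length J)
      (vr := fun z : β × (ℕ × ℕ) => vcodeL h sy (E z.1) z.2) (PT.patOcs J hlen)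
      (PT.patVcode h sy hE) (0, 0)
  unfold redL
  refine PT.append' ?_ ?_
  · refine H64.Cook.PT.flatMap' (m := true) (l := fun b => List.range (E b).length)
      (f := fun z : β × ℕ => cst.map (fun e => ((z.2, e.1), (z.2, e.2)))) (by fun_prop) ?_
    exact PT.map' (m := true) (l := fun _ : β × ℕ => cst)
      (f := fun w : (β × ℕ) × ((ℕ × ℕ) × (ℕ × ℕ)) => ((w.1.2, w.2.1), (w.1.2, w.2.2)))
      (by fun_prop) (by fun_prop)
  · exact PT.map' (m := true)
      (l := fun b => crossPairs (ocs (E b).length J) (vcodeL h sy (E b)) (0, 0))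
      (f := fun w : β × ((ℕ × ℕ) × (ℕ × ℕ)) =>
        ((w.2.1.1, (m + w.2.1.2, tl.getD w.2.1.2 0)),
          (w.2.2.1, (pcT.getD w.2.2.2 0, hd.getD w.2.2.2 0)))) hcr (by fun_prop)

end

end Pool.Agent.H24.GD
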