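import Pool.Agent.H24.GD.KitAll
import Pool.Agent.H24.GC.BDef
import Pool.Agent.H24.GC.StepDef
import Pool.Agent.H24.GC.Star

/-!
# JOB GD-13: ties at the base vertices

`base_tail`: the proof of `sameTail_def` (file `Pool.Agent.H24.GC.BDef`) with `p = P v` and `u, o` the neighbours of
`P v` over `c, c'` (`lift_adj`, `hB.pi`); the killer piece `Kl` from `hB.str2`, `hB.str1`.
`base_head`, `base_ht`: the same killer piece with one or both arcs reversed (`straight_congr`, `Base.str1'`):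
for `base_head` the cut arcs `(u, P v)`, `(o, P v)`: a cover `f` with `f (P v) = y`, `f u = a.1`, `f o = b.1`
(`cp_two` at `P v`; or use `star_cover`, file `Pool.Agent.H24.GC.Star`); for `base_ht` the cut arcs `(u, P v)`,
`(P v, o)`.
`bdef_ty`: `PDef.comap` with `id`.
`base_tail'`, `base_head'`, `base_ht'`: if `c, c'` are not similar use the first statements. If they are
similar take `c''` from `hm` (not similar to `c`, so not to `c'`) and compose (`BDef.comp`) over the type
`(v, c'')`; the intermediate arc exists by `StepDef_nbr` (file `Pool.Agent.H24.GC.StepDef`).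
`exists_nb`: choose a representative of every class (`Quotient.out` of the setoid of `Sim`, `sim_refl`,
`sim_symm`, `sim_trans`), a neighbour `n r` of every representative `r`, and for `v` with representative `r` a
neighbour `nb v` of `v` with `Sim H (nb v) (n r)` (`StepDef_nbr`).
-/

namespace Pool.Agent.H24.GD

open Pool.Agent.H24.GC

variable {V : Type} {H : SimpleGraph V}

private theorem tie13_kl {K : Kit H} {P : V → K.W} (hB : Base K P) {v : V} {u o : K.W}
    (hu : K.gr.Adj (P v) u) (ho : K.gr.Adj (P v) o) (hne : ¬ Sim H (K.π u) (K.π o))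
    {r₁ r₂ : K.W × K.W} (h1 : r₁ = (P v, u) ∨ r₁ = (u, P v))
    (h2 : r₂ = (P v, o) ∨ r₂ = (o, P v)) : Kl K r₁ r₂ := by
  have huo : u ≠ o := fun h => hne (h ▸ sim_refl H _)
  have hpu : P v ≠ u := hu.ne
  have hpo : P v ≠ o := ho.ne
  have hstr := hB.str2 v u o hu ho hne
  rcases h1 with rfl | rfl <;> rcases h2 with rfl | rfl
  · exact
      { adj₁ := hu
        adj₂ := ho
        ne := fun h => huo (Prod.ext_iff.1 h).2
        ne' := fun h => hpo (Prod.ext_iff.1 h).1
        str := hstr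
        str₁ := hB.str1 v u hu
        str₂ := hB.str1 v o ho }
  · exact
      { adj₁ := hu
        adj₂ := ho.symm
        ne := fun h => hpo (Prod.ext_iff.1 h).1
        ne' := fun h => huo (Prod.ext_iff.1 h).2
        str := by
          refine straight_congr ?_ hstr
          intro w w'
          simp only [cut2, Prod.mk.injEq]
          tauto
        str₁ := hB.str1 v u hu
        str₂ := hB.str1' ho }
  · exact
      { adj₁ := hu.symm
        adj₂ := ho
        ne := fun h => hpu (Prod.ext_iff.1 h).1.symm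
        ne' := fun h => huo (Prod.ext_iff.1 h).1
        str := by
          refine straight_congr ?_ hstr
          intro w w'
          simp only [cut2, Prod.mk.injEq]
          tauto
        str₁ := hB.str1' hu
        str₂ := hB.str1 v o ho }
  · exact
      { adj₁ := hu.symm
        adj₂ := ho.symm
        ne := fun h => huo (Prod.ext_iff.1 h).1
        ne' := fun h => hpu (Prod.ext_iff.1 h).1.symm
        str := by
          refine straight_congr ?_ hstr
          intro w w'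
          simp only [cut2, Prod.mk.injEq]
          tauto
        str₁ := hB.str1' hu
        str₂ := hB.str1' ho }

private theorem tie13_cov [Finite V] {K : Kit H} {P : V → K.W} (hB : Base K P) {v : V}
    {u o : K.W} (hu : K.gr.Adj (P v) u) (ho : K.gr.Adj (P v) o)
    (hne : ¬ Sim H (K.π u) (K.π o)) {x y z : V} (hx : Sim H x v) (hxy : H.Adj x y)
    (hy : Sim H y (K.π u)) (hxz : H.Adj x z) (hz : Sim H z (K.π o)) :
    ∃ f : K.W → V, IsCover K.gr H f ∧ f (P v) = x ∧ f u = y ∧ f o = z := by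
  have huo : u ≠ o := fun h => hne (h ▸ sim_refl H _)
  have hyz : y ≠ z := fun h => hne (sim_trans (sim_symm hy) (h ▸ hz))
  have hx' : Sim H (K.π (P v)) x := by
    rw [hB.pi v]
    exact sim_symm hx
  exact star_cover (hB.univ v) hu ho huo hx' hxy hxz hyz (sim_symm hy) (sim_symm hz)

private theorem tie13_sim [Finite V] {K : Kit H} {P : V → K.W} (hB : Base K P) {f : K.W → V}
    (hf : IsCover K.gr H f) (v : V) : Sim H (f (P v)) v := by
  have h := cover_sim hf K.cov (P v)
  rw [hB.pi v] at h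
  exact h

private theorem tie13_lift {K : Kit H} {P : V → K.W} (hB : Base K P) {v c : V}
    (hc : H.Adj v c) : ∃ u, K.gr.Adj (P v) u ∧ K.π u = c :=
  lift_adj K (p := P v) (by rw [hB.pi v]; exact hc)

theorem base_tail [Finite V] {K : Kit H} {P : V → K.W} (hB : Base K P) {v c c' : V}
    (hc : H.Adj v c) (hc' : H.Adj v c') (hne : ¬ Sim H c c') :
    BDef K (v, c) (v, c') (fun a b => IsC H (v, c) a ∧ IsC H (v, c') b ∧ a.1 = b.1) := by
  obtain ⟨u, hu, rfl⟩ := tie13_lift hB hc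
  obtain ⟨o, ho, rfl⟩ := tie13_lift hB hc'
  have hkl : Kl K (P v, u) (P v, o) := tie13_kl hB hu ho hne (Or.inl rfl) (Or.inl rfl)
  refine PDef.congr (PDef.atom (i := false) (j := true) hkl
    ⟨(hB.pi v).symm ▸ sim_refl H _, sim_refl H _⟩
    ⟨(hB.pi v).symm ▸ sim_refl H _, sim_refl H _⟩) fun w => ?_
  constructor
  · rintro ⟨f, hf, h1, h2⟩
    show IsC H (v, K.π u) (w false) ∧ IsC H (v, K.π o) (w true) ∧ (w false).1 = (w true).1
    rw [← h1, ← h2]
    exact ⟨⟨(hf (P v)).mapsTo hu, tie13_sim hB hf v, cover_sim hf K.cov u⟩,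
      ⟨(hf (P v)).mapsTo ho, tie13_sim hB hf v, cover_sim hf K.cov o⟩, rfl⟩
  · show IsC H (v, K.π u) (w false) ∧ IsC H (v, K.π o) (w true) ∧
      (w false).1 = (w true).1 → _
    generalize w false = a
    generalize w true = b
    rintro ⟨⟨ha, ha1, ha2⟩, ⟨hb, hb1, hb2⟩, hab⟩
    obtain ⟨f, hf, h1, h2, h3⟩ := tie13_cov hB hu ho hne ha1 ha ha2 (hab ▸ hb) hb2
    refine ⟨f, hf, ?_, ?_⟩
    · show (f (P v), f u) = a
      rw [h1, h2]
    · show (f (P v), f o) = b
      rw [h1, h3, hab]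

theorem base_head [Finite V] {K : Kit H} {P : V → K.W} (hB : Base K P) {v c c' : V}
    (hc : H.Adj v c) (hc' : H.Adj v c') (hne : ¬ Sim H c c') :
    BDef K (c, v) (c', v) (fun a b => IsC H (c, v) a ∧ IsC H (c', v) b ∧ a.2 = b.2) := by
  obtain ⟨u, hu, rfl⟩ := tie13_lift hB hc
  obtain ⟨o, ho, rfl⟩ := tie13_lift hB hc'
  have hkl : Kl K (u, P v) (o, P v) := tie13_kl hB hu ho hne (Or.inr rfl) (Or.inr rfl)
  refine PDef.congr (PDef.atom (i := false) (j := true) hkl
    ⟨sim_refl H _, (hB.pi v).symm ▸ sim_refl H _⟩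
    ⟨sim_refl H _, (hB.pi v).symm ▸ sim_refl H _⟩) fun w => ?_
  constructor
  · rintro ⟨f, hf, h1, h2⟩
    show IsC H (K.π u, v) (w false) ∧ IsC H (K.π o, v) (w true) ∧ (w false).2 = (w true).2
    rw [← h1, ← h2]
    exact ⟨⟨(hf u).mapsTo hu.symm, cover_sim hf K.cov u, tie13_sim hB hf v⟩,
      ⟨(hf o).mapsTo ho.symm, cover_sim hf K.cov o, tie13_sim hB hf v⟩, rfl⟩
  · show IsC H (K.π u, v) (w false) ∧ IsC H (K.π o, v) (w true) ∧
      (w false).2 = (w true).2 → _
    generalize w false = a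
    generalize w true = b
    rintro ⟨⟨ha, ha1, ha2⟩, ⟨hb, hb1, hb2⟩, hab⟩
    obtain ⟨f, hf, h1, h2, h3⟩ :=
      tie13_cov hB hu ho hne ha2 ha.symm ha1 (hab ▸ hb.symm) hb1
    refine ⟨f, hf, ?_, ?_⟩
    · show (f u, f (P v)) = a
      rw [h1, h2]
    · show (f o, f (P v)) = b
      rw [h1, h3, hab]

theorem base_ht [Finite V] {K : Kit H} {P : V → K.W} (hB : Base K P) {v c c' : V}
    (hc : H.Adj v c) (hc' : H.Adj v c') (hne : ¬ Sim H c c') :
    BDef K (c, v) (v, c') (fun a b => IsC H (c, v) a ∧ IsC H (v, c') b ∧ a.2 = b.1) := by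
  obtain ⟨u, hu, rfl⟩ := tie13_lift hB hc
  obtain ⟨o, ho, rfl⟩ := tie13_lift hB hc'
  have hkl : Kl K (u, P v) (P v, o) := tie13_kl hB hu ho hne (Or.inr rfl) (Or.inl rfl)
  refine PDef.congr (PDef.atom (i := false) (j := true) hkl
    ⟨sim_refl H _, (hB.pi v).symm ▸ sim_refl H _⟩
    ⟨(hB.pi v).symm ▸ sim_refl H _, sim_refl H _⟩) fun w => ?_
  constructor
  · rintro ⟨f, hf, h1, h2⟩
    show IsC H (K.π u, v) (w false) ∧ IsC H (v, K.π o) (w true) ∧ (w false).2 = (w true).1
    rw [← h1, ← h2]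
    exact ⟨⟨(hf u).mapsTo hu.symm, cover_sim hf K.cov u, tie13_sim hB hf v⟩,
      ⟨(hf (P v)).mapsTo ho, tie13_sim hB hf v, cover_sim hf K.cov o⟩, rfl⟩
  · show IsC H (K.π u, v) (w false) ∧ IsC H (v, K.π o) (w true) ∧
      (w false).2 = (w true).1 → _
    generalize w false = a
    generalize w true = b
    rintro ⟨⟨ha, ha1, ha2⟩, ⟨hb, hb1, hb2⟩, hab⟩
    obtain ⟨f, hf, h1, h2, h3⟩ := tie13_cov hB hu ho hne ha2 ha.symm ha1 (hab ▸ hb) hb2
    refine ⟨f, hf, ?_, ?_⟩
    · show (f u, f (P v)) = a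
      rw [h1, h2]
    · show (f (P v), f o) = b
      rw [h1, h3, hab]

theorem bdef_ty [Finite V] {K : Kit H} {c c' d d' : V × V} {S : V × V → V × V → Prop}
    (h : BDef K c c' S) (h1 : Sim H c.1 d.1) (h2 : Sim H c.2 d.2) (h3 : Sim H c'.1 d'.1)
    (h4 : Sim H c'.2 d'.2) : BDef K d d' S := by
  have h5 := PDef.comap (tX' := fun b : Bool => if b then d' else d) h id (by
    intro x
    cases x
    · exact ⟨h1, h2⟩
    · exact ⟨h3, h4⟩)
  exact h5

/-- every neighbour class of every vertex is not the only one -/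
def Multi (H : SimpleGraph V) : Prop := ∀ v c, H.Adj v c → ∃ c', H.Adj v c' ∧ ¬ Sim H c' c

theorem base_tail' [Finite V] {K : Kit H} {P : V → K.W} (hB : Base K P) (hm : Multi H)
    {v c c' : V} (hc : H.Adj v c) (hc' : H.Adj v c') :
    BDef K (v, c) (v, c') (fun a b => IsC H (v, c) a ∧ IsC H (v, c') b ∧ a.1 = b.1) := by
  by_cases hs : Sim H c c'
  · obtain ⟨c'', h1, h2⟩ := hm v c hc
    have hn1 : ¬ Sim H c c'' := fun h => h2 (sim_symm h)
    have hn2 : ¬ Sim H c'' c' := fun h => h2 (sim_trans h (sim_symm hs))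
    refine ((base_tail hB hc h1 hn1).comp (base_tail hB h1 hc' hn2)).congr ?_
    intro a b
    constructor
    · rintro ⟨e, ⟨h3, -, h4⟩, ⟨-, h5, h6⟩⟩
      exact ⟨h3, h5, h4.trans h6⟩
    · rintro ⟨h3, h4, h5⟩
      obtain ⟨y, hy, hy'⟩ := StepDef_nbr h3.2.1 h1
      have he : IsC H (v, c'') (a.1, y) := ⟨hy, h3.2.1, hy'⟩
      exact ⟨(a.1, y), ⟨h3, he, rfl⟩, ⟨he, h4, h5⟩⟩
  · exact base_tail hB hc hc' hs

theorem base_head' [Finite V] {K : Kit H} {P : V → K.W} (hB : Base K P) (hm : Multi H)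
    {v c c' : V} (hc : H.Adj v c) (hc' : H.Adj v c') :
    BDef K (c, v) (c', v) (fun a b => IsC H (c, v) a ∧ IsC H (c', v) b ∧ a.2 = b.2) := by
  by_cases hs : Sim H c c'
  · obtain ⟨c'', h1, h2⟩ := hm v c hc
    have hn1 : ¬ Sim H c c'' := fun h => h2 (sim_symm h)
    have hn2 : ¬ Sim H c'' c' := fun h => h2 (sim_trans h (sim_symm hs))
    refine ((base_head hB hc h1 hn1).comp (base_head hB h1 hc' hn2)).congr ?_
    intro a b
    constructor
    · rintro ⟨e, ⟨h3, -, h4⟩, ⟨-, h5, h6⟩⟩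
      exact ⟨h3, h5, h4.trans h6⟩
    · rintro ⟨h3, h4, h5⟩
      obtain ⟨y, hy, hy'⟩ := StepDef_nbr h3.2.2 h1
      have he : IsC H (c'', v) (y, a.2) := ⟨hy.symm, hy', h3.2.2⟩
      exact ⟨(y, a.2), ⟨h3, he, rfl⟩, ⟨he, h4, h5⟩⟩
  · exact base_head hB hc hc' hs

theorem base_ht' [Finite V] {K : Kit H} {P : V → K.W} (hB : Base K P) (hm : Multi H)
    {v c c' : V} (hc : H.Adj v c) (hc' : H.Adj v c') :
    BDef K (c, v) (v, c') (fun a b => IsC H (c, v) a ∧ IsC H (v, c') b ∧ a.2 = b.1) := by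
  by_cases hs : Sim H c c'
  · obtain ⟨c'', h1, h2⟩ := hm v c hc
    have hn1 : ¬ Sim H c c'' := fun h => h2 (sim_symm h)
    have hn2 : ¬ Sim H c'' c' := fun h => h2 (sim_trans h (sim_symm hs))
    refine ((base_ht hB hc h1 hn1).comp (base_tail hB h1 hc' hn2)).congr ?_
    intro a b
    constructor
    · rintro ⟨e, ⟨h3, -, h4⟩, ⟨-, h5, h6⟩⟩
      exact ⟨h3, h5, h4.trans h6⟩
    · rintro ⟨h3, h4, h5⟩
      obtain ⟨y, hy, hy'⟩ := StepDef_nbr h3.2.2 h1
      have he : IsC H (v, c'') (a.2, y) := ⟨hy, h3.2.2, hy'⟩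
      exact ⟨(a.2, y), ⟨h3, he, rfl⟩, ⟨he, h4, h5⟩⟩
  · exact base_ht hB hc hc' hs

theorem exists_nb [Finite V] (hdeg : ∀ v, ∃ c, H.Adj v c) :
    ∃ nb : V → V, (∀ v, H.Adj v (nb v)) ∧ ∀ v v', Sim H v v' → Sim H (nb v) (nb v') := by
  let s : Setoid V := ⟨Sim H, ⟨fun x => sim_refl H x, fun h => sim_symm h,
    fun h h' => sim_trans h h'⟩⟩
  choose n hn using hdeg
  have hrep : ∀ v : V, Sim H v (Quotient.out (Quotient.mk s v)) := fun v =>
    sim_symm (Quotient.exact (s := s) (Quotient.out_eq (Quotient.mk s v)))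
  have h1 : ∀ v : V, ∃ y, H.Adj v y ∧ Sim H y (n (Quotient.out (Quotient.mk s v))) :=
    fun v => StepDef_nbr (hrep v) (hn _)
  choose nb h2 h3 using h1
  refine ⟨nb, h2, fun v v' h => ?_⟩
  have h4 : Quotient.mk s v = Quotient.mk s v' := Quotient.sound (s := s) h
  have h5 := h3 v
  rw [h4] at h5
  exact sim_trans h5 (sim_symm (h3 v'))

/-- at most two neighbours in every class, and at least three neighbours -/
theorem multi_of_narrow [Finite V] (h2 : ∀ x y, (nbc H x y).ncard ≤ 2)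
    (h3 : ∀ x, 3 ≤ (H.neighborSet x).ncard) : Multi H := by
  intro v c _
  by_contra hcon
  push Not at hcon
  have h4 : H.neighborSet v ⊆ nbc H v c := fun w hw => ⟨hw, hcon w hw⟩
  have h5 := Set.ncard_le_ncard h4 (Set.toFinite _)
  have h6 := h2 v c
  have h7 := h3 v
  omega

end Pool.Agent.H24.GD
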