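import Pool.Agent.H24.GD.WideA
import Pool.Agent.H24.GC.Star
import Pool.Agent.H79.Thr.ColK

/-!
# JOB GD-9: a colouring gives a cover

`wide_complete`. Let `x = K.π p`, `d = (nbc H x (K.π u₁)).ncard ≥ 2`, `y : Fin d → V` the enumeration of
`nbc H x (K.π u₁)` (`exists_gamma`). For every `i` the vertex `y i` (similar to `K.π q`) has a neighbour `z i`,
`z i ≠ x`, `Sim H (z i) (K.π z)`: the neighbours of `K.π q` in the class of `K.π z` include `K.π z`, and if
`K.π z ~ K.π w ~ x` also `K.π w ≠ K.π z` (`K.cov q` is injective); so `nbc H (y i) (K.π z)` has the same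
number of elements (`nbc_ncard`), at least `2` if `K.π z ~ x`, at least `1` otherwise, and in the second case no
element is `x`. Let `c` be the colouring. Apply `core_bwd` with `var` and the assignment `a`:
`γ v = (z (c v), y (c v))`, `δ v = (x, y (c v + 1))` (addition modulo `d`), `U₁ = U₂ = (x, y (c a))`,
`U₁' = U₂' = (x, y (c b))` for the copy `k` with `D.get k = (a, b)`. The covers of the pieces:
`X` pieces, values `(x, y i)`, `(x, y j)` with `i ≠ j`: `star_cover` at `p` (`hp`). The pairs `(i, j)` are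
`(c a, c a + 1)`, `(c b, c b + 1)`, `(c a, c b)`, `(c a + 1, c b + 1)`, all different as `c a ≠ c b`, `2 ≤ d`.
`Y` pieces, values `(x, y i)`, `(z i, y i)`: `star_cover` at `q` with the neighbours `w, z` (`hq`).
-/

namespace Pool.Agent.H24.GD

open Pool.Agent.H24.GC Pool.Agent.H79.Thr

variable {V : Type} {H : SimpleGraph V}

private theorem wideC_shift {d : ℕ} (hd : 2 ≤ d) :
    ∃ sh : Fin d → Fin d, Function.Injective sh ∧ ∀ i, sh i ≠ i := by
  obtain ⟨n, rfl⟩ : ∃ n, d = n + 2 := ⟨d - 2, by omega⟩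
  refine ⟨fun i => i + 1, add_left_injective 1, fun i h => ?_⟩
  have h1 : (1 : Fin (n + 2)) = 0 := by
    have h2 : i + 1 = i := h
    exact add_eq_left.1 h2
  exact one_ne_zero h1

/-- the values of the symbols -/
private def wideC_val {β I : Type} (x : V) (y z : I → V) (sh : I → I) (c : β → I) (e : β × β) :
    Fin 4 ⊕ Fin 4 → V × V
  | Sum.inl 0 => (z (c e.1), y (c e.1))
  | Sum.inl 1 => (x, y (sh (c e.1)))
  | Sum.inl 2 => (z (c e.2), y (c e.2))
  | Sum.inl 3 => (x, y (sh (c e.2)))
  | Sum.inr 0 => (x, y (c e.1))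
  | Sum.inr 1 => (x, y (c e.2))
  | Sum.inr 2 => (x, y (c e.1))
  | Sum.inr 3 => (x, y (c e.2))

/-- the assignment -/
private def wideC_asg {β I L : Type} (x : V) (y z : I → V) (sh : I → I) (c : β → I)
    (fst snd : L → β) : (β × ℕ) ⊕ (L × Fin 4) → V × V
  | Sum.inl (v, 0) => (z (c v), y (c v))
  | Sum.inl (v, _ + 1) => (x, y (sh (c v)))
  | Sum.inr (k, 0) => (x, y (c (fst k)))
  | Sum.inr (k, 1) => (x, y (c (snd k)))
  | Sum.inr (k, 2) => (x, y (c (fst k)))
  | Sum.inr (k, 3) => (x, y (c (snd k)))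

private theorem wideC_nb [Finite V] {K : Kit H} {p u₁ u₂ q w z : K.W} (h : WD K p u₁ u₂ q w z)
    {y : V} (hy : y ∈ nbc H (K.π p) (K.π u₁)) :
    ∃ z', H.Adj y z' ∧ Sim H z' (K.π z) ∧ K.π p ≠ z' := by
  have hs : Sim H y (K.π q) := sim_trans hy.2 (sim_symm h.sq)
  have hc : (nbc H y (K.π z)).ncard = (nbc H (K.π q) (K.π z)).ncard :=
    nbc_ncard hs (sim_refl H _)
  have hz : K.π z ∈ nbc H (K.π q) (K.π z) := ⟨(K.cov q).mapsTo h.q2, sim_refl H _⟩
  by_cases hx : Sim H (K.π z) (K.π p)
  · have hw : K.π w ∈ nbc H (K.π q) (K.π z) :=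
      ⟨(K.cov q).mapsTo h.q1, sim_trans h.sw (sim_symm hx)⟩
    have hne : K.π w ≠ K.π z := fun he => h.ne2 ((K.cov q).injOn h.q1 h.q2 he)
    have h1 : 1 < (nbc H y (K.π z)).ncard := by
      rw [hc]
      exact (Set.one_lt_ncard (Set.toFinite _)).2 ⟨_, hw, _, hz, hne⟩
    obtain ⟨z', hz', hn⟩ := Set.exists_ne_of_one_lt_ncard h1 (K.π p)
    exact ⟨z', hz'.1, hz'.2, hn.symm⟩
  · have h1 : 0 < (nbc H y (K.π z)).ncard := by
      rw [hc]
      exact (Set.ncard_pos (Set.toFinite _)).2 ⟨_, hz⟩
    obtain ⟨z', hz'⟩ := (Set.ncard_pos (Set.toFinite _)).1 h1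
    refine ⟨z', hz'.1, hz'.2, fun he => hx ?_⟩
    rw [he]
    exact sim_symm hz'.2

theorem wide_complete [Finite V] {K : Kit H} {p u₁ u₂ q w z : K.W} (h : WD K p u₁ u₂ q w z)
    (hp : K.Univ p) (hq : K.Univ q) {β : Type} [Inhabited β] (D : List (β × β))
    (sg : Equiv.Perm (Fin (D.map wTup).length × (wPat p u₁ u₂ q w z).Sl))
    (hsg : ∀ o, (wPat p u₁ u₂ q w z).var (D.map wTup) (sg o) =
      (wPat p u₁ u₂ q w z).var (D.map wTup) o)
    (hd : 2 ≤ (nbc H (K.π p) (K.π u₁)).ncard)
    (hc : EColourable (nbc H (K.π p) (K.π u₁)).ncard D) :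
    Covers (((wPat p u₁ u₂ q w z).inst (D.map wTup) sg).graph K.gr) H := by
  obtain ⟨y, hyi, hyn⟩ := exists_gamma (H := H) (K.π p) (K.π u₁)
  obtain ⟨sh, hsh, hsf⟩ := wideC_shift hd
  obtain ⟨c, hc⟩ := hc
  choose zz hz1 hz2 hz3 using fun i => wideC_nb h (hyn i)
  have hX : ∀ i j, i ≠ j → ∃ f : K.W → V, IsCover K.gr H f ∧ f p = K.π p ∧ f u₁ = y i ∧
      f u₂ = y j := fun i j hij =>
    star_cover hp h.p1 h.p2 h.ne1 (sim_refl H _) (hyn i).1 (hyn j).1 (fun he => hij (hyi he))
      (sim_symm (hyn i).2) (sim_trans h.s12 (sim_symm (hyn j).2))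
  have hY : ∀ i, ∃ f : K.W → V, IsCover K.gr H f ∧ f q = y i ∧ f w = K.π p ∧ f z = zz i :=
    fun i => star_cover hq h.q1 h.q2 h.ne2 (sim_trans h.sq (sim_symm (hyn i).2)) (hyn i).1.symm
      (hz1 i) (hz3 i) h.sw (sim_symm (hz2 i))
  refine core_bwd (K := K) (I := (wPat p u₁ u₂ q w z).inst (D.map wTup) sg) ?_ ?_ hsg
    (wideC_asg (K.π p) y zz sh c
      (fun k : Fin (D.map wTup).length => (((D.map wTup).get k).getD 0 default).1)
      (fun k => (((D.map wTup).get k).getD 2 default).1)) ?_
  · rintro ⟨k, s, b⟩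
    show K.gr.Adj ((wPat p u₁ u₂ q w z).ar (s, b)).1 ((wPat p u₁ u₂ q w z).ar (s, b)).2
    show K.gr.Adj (if wX s then (if b then (p, u₂) else (p, u₁)) else
      (if b then (z, q) else (w, q))).1 (if wX s then (if b then (p, u₂) else (p, u₁)) else
      (if b then (z, q) else (w, q))).2
    cases wX s <;> cases b
    · exact h.q1.symm
    · exact h.q2.symm
    · exact h.p1
    · exact h.p2
  · rintro ⟨k, s, b⟩ ⟨k', s', b'⟩ h1 h2
    have h1' : (k, s) = (k', s') := h1
    obtain ⟨rfl, rfl⟩ := Prod.ext_iff.1 h1'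
    have e1 : ∀ {a b c d : K.W}, (a, b) = (c, d) → a = c ∧ b = d := fun he =>
      ⟨congrArg Prod.fst he, congrArg Prod.snd he⟩
    have key : ∀ x b b' : Bool, (if x then (if b then (p, u₂) else (p, u₁)) else
        (if b then (z, q) else (w, q))) = (if x then (if b' then (p, u₂) else (p, u₁)) else
        (if b' then (z, q) else (w, q))) ∨ (if x then (if b then (p, u₂) else (p, u₁)) else
        (if b then (z, q) else (w, q))) = (if x then (if b' then (p, u₂) else (p, u₁)) else
        (if b' then (z, q) else (w, q))).swap → b = b' := by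
      intro x b b' h3
      cases x <;> cases b <;> cases b' <;> first | rfl | (exfalso; rcases h3 with h3 | h3)
      · exact h.ne2 (e1 h3).1
      · exact h.q1.ne (e1 h3).1.symm
      · exact h.ne2 (e1 h3).1.symm
      · exact h.q2.ne (e1 h3).1.symm
      · exact h.ne1 (e1 h3).2
      · exact h.p2.ne (e1 h3).1
      · exact h.ne1 (e1 h3).2.symm
      · exact h.p1.ne (e1 h3).1
    have hbb : b = b' := key (wX s) b b' h2
    rw [hbb]
  · rintro ⟨k, s⟩
    obtain ⟨e, heD, hek⟩ : ∃ e ∈ D, wTup e = (D.map wTup).get k :=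
      List.mem_map.1 (List.get_mem _ _)
    have hne : c e.1 ≠ c e.2 := hc e heD
    have hval : ∀ b : Bool, wideC_asg (K.π p) y zz sh c
        (fun k : Fin (D.map wTup).length => (((D.map wTup).get k).getD 0 default).1)
        (fun k => (((D.map wTup).get k).getD 2 default).1)
        ((wPat p u₁ u₂ q w z).var (D.map wTup) (k, (s, b))) =
        wideC_val (K.π p) y zz sh c e (wsy s b) := by
      intro b
      show wideC_asg (K.π p) y zz sh c
        (fun k : Fin (D.map wTup).length => (((D.map wTup).get k).getD 0 default).1)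
        (fun k => (((D.map wTup).get k).getD 2 default).1)
        (Sum.elim (fun j : Fin 4 => Sum.inl (((D.map wTup).get k).getD (j : ℕ) default))
          (fun y => Sum.inr (k, y)) (wsy s b)) = _
      generalize wsy s b = t
      rcases t with t | t
      · show wideC_asg (K.π p) y zz sh c
          (fun k : Fin (D.map wTup).length => (((D.map wTup).get k).getD 0 default).1)
          (fun k => (((D.map wTup).get k).getD 2 default).1)
          (Sum.inl (((D.map wTup).get k).getD (t : ℕ) default)) = _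
        rw [← hek]
        fin_cases t <;> rfl
      · fin_cases t
        all_goals
          simp only [Sum.elim_inr, wideC_asg, wideC_val]
          rw [← hek]
          rfl
    have hfin : ∀ f : K.W → V, (∀ b : Bool,
        (f (if wX s then (if b then (p, u₂) else (p, u₁)) else
          (if b then (z, q) else (w, q))).1, f (if wX s then (if b then (p, u₂) else (p, u₁)) else
          (if b then (z, q) else (w, q))).2) = wideC_val (K.π p) y zz sh c e (wsy s b)) →
        ∀ o : Fin (D.map wTup).length × (Fin 8 × Bool), (o.1, o.2.1) = (k, s) →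
        (f ((wPat p u₁ u₂ q w z).ar o.2).1, f ((wPat p u₁ u₂ q w z).ar o.2).2) =
          wideC_asg (K.π p) y zz sh c
            (fun k : Fin (D.map wTup).length => (((D.map wTup).get k).getD 0 default).1)
            (fun k => (((D.map wTup).get k).getD 2 default).1)
            ((wPat p u₁ u₂ q w z).var (D.map wTup) o) := by
      rintro f hf ⟨k', s', b⟩ ho
      obtain ⟨h1, h2⟩ := Prod.ext_iff.1 ho
      have h1' : k' = k := h1
      have h2' : s' = s := h2
      subst h1' h2'
      exact (hf b).trans (hval b).symm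
    have hXX : ∀ i j, i ≠ j → wX s = true →
        wideC_val (K.π p) y zz sh c e (wsy s false) = (K.π p, y i) →
        wideC_val (K.π p) y zz sh c e (wsy s true) = (K.π p, y j) →
        ∃ f : K.W → V, IsCover K.gr H f ∧ ∀ b : Bool,
        (f (if wX s then (if b then (p, u₂) else (p, u₁)) else
          (if b then (z, q) else (w, q))).1, f (if wX s then (if b then (p, u₂) else (p, u₁)) else
          (if b then (z, q) else (w, q))).2) = wideC_val (K.π p) y zz sh c e (wsy s b) := by
      intro i j hij hw h1 h2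
      obtain ⟨f, hf, f1, f2, f3⟩ := hX i j hij
      refine ⟨f, hf, ?_⟩
      intro b
      rw [hw]
      cases b
      · show (f p, f u₁) = _
        rw [h1, f1, f2]
      · show (f p, f u₂) = _
        rw [h2, f1, f3]
    have hYY : ∀ i, wX s = false →
        wideC_val (K.π p) y zz sh c e (wsy s false) = (K.π p, y i) →
        wideC_val (K.π p) y zz sh c e (wsy s true) = (zz i, y i) →
        ∃ f : K.W → V, IsCover K.gr H f ∧ ∀ b : Bool,
        (f (if wX s then (if b then (p, u₂) else (p, u₁)) else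
          (if b then (z, q) else (w, q))).1, f (if wX s then (if b then (p, u₂) else (p, u₁)) else
          (if b then (z, q) else (w, q))).2) = wideC_val (K.π p) y zz sh c e (wsy s b) := by
      intro i hw h1 h2
      obtain ⟨f, hf, f1, f2, f3⟩ := hY i
      refine ⟨f, hf, ?_⟩
      intro b
      rw [hw]
      cases b
      · show (f w, f q) = _
        rw [h1, f1, f2]
      · show (f z, f q) = _
        rw [h2, f1, f3]
    have hall : ∃ f : K.W → V, IsCover K.gr H f ∧ ∀ b : Bool,
        (f (if wX s then (if b then (p, u₂) else (p, u₁)) else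
          (if b then (z, q) else (w, q))).1, f (if wX s then (if b then (p, u₂) else (p, u₁)) else
          (if b then (z, q) else (w, q))).2) = wideC_val (K.π p) y zz sh c e (wsy s b) := by
      clear hval hfin
      have hs : ∃ s' : Fin 8, s' = s := ⟨s, rfl⟩
      obtain ⟨s', hs'⟩ := hs
      subst hs'
      fin_cases s'
      · exact hYY (c e.1) rfl rfl rfl
      · exact hXX (c e.1) (sh (c e.1)) (hsf _).symm rfl rfl rfl
      · exact hYY (c e.2) rfl rfl rfl
      · exact hXX (c e.2) (sh (c e.2)) (hsf _).symm rfl rfl rfl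
      · exact hYY (c e.1) rfl rfl rfl
      · exact hYY (c e.2) rfl rfl rfl
      · exact hXX (c e.1) (c e.2) hne rfl rfl rfl
      · exact hXX (sh (c e.1)) (sh (c e.2)) (fun he => hne (hsh he)) rfl rfl rfl
    obtain ⟨f, hf, h1⟩ := hall
    exact ⟨f, hf, hfin f h1⟩

end Pool.Agent.H24.GD
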