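import Pool.Agent.H24.GD.WideS
import Pool.Agent.H24.GD.WideC
import Pool.Agent.H24.GD.RedSpec
import Pool.Agent.H24.GD.KitAll

/-!
# JOB GD-10: a vertex with three neighbours in one class

`wide_hard`. Take the kit of `exists_kitall`, `p = P x`, `u₁, u₂` neighbours of `p` over two different elements
`y₁, y₂` of `nbc H x y` (`lift_adj`), `q = P y`, `w, z'` the neighbours of `q` over `x` and `z`. `WD`: `p1, ..., ne2`:
clear (`u₁ ≠ u₂` as `y₁ ≠ y₂`, `w ≠ z'` as `x ≠ z`), `s12`, `sq`, `sw`: `y₂ ~ y ~ y₁`, `K.π q = y`, `K.π w = x = K.π p`.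
`s1, ..., s4`: `str_one`, `tail`, `head`: `sw_tail`, `sw_head`; the `CutOK` conditions from `hP` by `CutOK.mono`
(`Ty H x y₁ a b` implies `Ty H x y a b`, `Ty H y x a b ↔ Ty H x y a b`). `hdeg`: the graph `H` has an edge, so every
vertex has a neighbour (`CutOK`, `S = {v}`), and `lift_adj`. `d = (nbc H x y).ncard = (nbc H (K.π p) (K.π u₁)).ncard`
(`nbc_ncard` with `K.π u₁ ~ y`; the sets are equal). For `L ∈ NP` let `φ` be from `hardk h3 hL` (file
`Pool.Agent.H79.Thr.ColK`), `β = ℕ × V3`; `Rd` from `pat_red (wPat ...)`; the function is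
`x ↦ Rd ((φ x).map wTup)`, in `FP` by `mem_FP_iff` (see `hard_of_pattern`) and `PT.map'`. Then `wide_sound`,
`wide_complete`.
-/

namespace Pool.Agent.H24.GD

open Pool.Agent.H24.GC Pool.Agent.PPS Pool.Agent.H64.Cook Pool.Agent.H79.Thr

variable {V : Type} {H : SimpleGraph V}

theorem wideM_deg {P : V → V → Prop} (hP : CutOK H P) {a b : V} (hab : a ≠ b) (v : V) :
    ∃ u, H.Adj v u := by
  by_contra hcon
  push Not at hcon
  have hne : ∃ w, v ≠ w := by
    by_cases h : v = a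
    · exact ⟨b, fun h1 => hab (h.symm.trans h1)⟩
    · exact ⟨a, h⟩
  obtain ⟨w, hvw⟩ := hne
  rcases hP {v} ⟨v, rfl⟩ ⟨w, fun h1 => hvw h1.symm⟩ (fun x hx y _ hxy => by
    have hx' : x = v := hx
    rw [hx'] at hxy
    exact absurd hxy (hcon y)) with h3 | ⟨x, hx, -, -, y, -, -, -, h4, -⟩
  · have hem : {e : V × V | e.1 ∈ ({v} : Set V) ∧ e.2 ∈ ({v} : Set V)ᶜ ∧ H.Adj e.1 e.2} = ∅ := by
      rw [Set.eq_empty_iff_forall_notMem]
      rintro ⟨x, y⟩ ⟨h1, _, h4⟩
      have h1' : x = v := h1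
      rw [h1'] at h4
      exact hcon y h4
    rw [hem, Set.ncard_empty] at h3
    omega
  · have hx' : x = v := hx
    rw [hx'] at h4
    exact hcon y h4

theorem wideM_adj {K : Kit H} {p u₁ u₂ q w z : K.W} (h : WD K p u₁ u₂ q w z)
    (s : (wPat p u₁ u₂ q w z).Sl) :
    K.gr.Adj ((wPat p u₁ u₂ q w z).ar s).1 ((wPat p u₁ u₂ q w z).ar s).2 := by
  obtain ⟨c, b⟩ := s
  show K.gr.Adj (if wX c = true then (if b = true then (p, u₂) else (p, u₁)) else
      (if b = true then (z, q) else (w, q))).1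
    (if wX c = true then (if b = true then (p, u₂) else (p, u₁)) else
      (if b = true then (z, q) else (w, q))).2
  cases wX c <;> cases b
  · exact h.q1.symm
  · exact h.q2.symm
  · exact h.p1
  · exact h.p2

theorem wideM_inj {K : Kit H} {p u₁ u₂ q w z : K.W} (h : WD K p u₁ u₂ q w z)
    (s s' : (wPat p u₁ u₂ q w z).Sl)
    (h1 : (wPat p u₁ u₂ q w z).pc s = (wPat p u₁ u₂ q w z).pc s')
    (h2 : (wPat p u₁ u₂ q w z).ar s = (wPat p u₁ u₂ q w z).ar s' ∨
      (wPat p u₁ u₂ q w z).ar s = ((wPat p u₁ u₂ q w z).ar s').swap) : s = s' := by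
  obtain ⟨c, b⟩ := s
  obtain ⟨c', b'⟩ := s'
  have h3 : c = c' := h1
  subst h3
  have hpu1 := h.p1.ne
  have hpu2 := h.p2.ne
  have hqw := h.q1.ne
  have hqz := h.q2.ne
  have hn1 := h.ne1
  have hn2 := h.ne2
  have h4 : (if wX c = true then (if b = true then (p, u₂) else (p, u₁)) else
      (if b = true then (z, q) else (w, q))) =
      (if wX c = true then (if b' = true then (p, u₂) else (p, u₁)) else
      (if b' = true then (z, q) else (w, q))) ∨
      (if wX c = true then (if b = true then (p, u₂) else (p, u₁)) else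
      (if b = true then (z, q) else (w, q))) =
      (if wX c = true then (if b' = true then (p, u₂) else (p, u₁)) else
      (if b' = true then (z, q) else (w, q))).swap := h2
  have h5 : b = b' := by
    cases b <;> cases b'
    · rfl
    · exfalso
      cases hc : wX c <;> rw [hc] at h4 <;> rcases h4 with h4 | h4
      · exact hn2 (congrArg Prod.fst h4)
      · exact hqw (congrArg Prod.fst h4).symm
      · exact hn1 (congrArg Prod.snd h4)
      · exact hpu2 (congrArg Prod.fst h4)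
    · exfalso
      cases hc : wX c <;> rw [hc] at h4 <;> rcases h4 with h4 | h4
      · exact hn2 (congrArg Prod.fst h4).symm
      · exact hqz (congrArg Prod.fst h4).symm
      · exact hn1 (congrArg Prod.snd h4).symm
      · exact hpu1 (congrArg Prod.fst h4)
    · rfl
  rw [h5]

theorem wideM_data [Finite V] {x y z : V} (hxy : H.Adj x y) (h3 : 3 ≤ (nbc H x y).ncard)
    (hz : H.Adj y z) (hzx : z ≠ x)
    (hP : CutOK H (fun a b => Ty H x y a b ∨ Ty H z y a b)) :
    ∃ (K : Kit H) (p u₁ u₂ q w z' : K.W), WD K p u₁ u₂ q w z' ∧ K.Univ p ∧ K.Univ q ∧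
      K.π p = x ∧ K.π u₁ = y ∧ ∀ w : K.W, ∃ w', K.gr.Adj w w' := by
  obtain ⟨K, sd, M, P, -, hM, hπ, -, hU⟩ := exists_kitall H
  obtain ⟨y₂, hy₂, hne⟩ := Set.exists_ne_of_one_lt_ncard (by omega : 1 < (nbc H x y).ncard) y
  obtain ⟨u₁, hu₁, hu₁'⟩ := lift_adj K (p := P x) (y := y) (by rw [hπ]; exact hxy)
  obtain ⟨u₂, hu₂, hu₂'⟩ := lift_adj K (p := P x) (y := y₂) (by rw [hπ]; exact hy₂.1)
  obtain ⟨w, hw, hw'⟩ := lift_adj K (p := P y) (y := x) (by rw [hπ]; exact hxy.symm)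
  obtain ⟨z', hz', hz''⟩ := lift_adj K (p := P y) (y := z) (by rw [hπ]; exact hz)
  have hun : u₁ ≠ u₂ := fun h => hne (by rw [← hu₂', ← hu₁', h])
  have hwn : w ≠ z' := fun h => hzx (by rw [← hz'', ← hw', h])
  have hsy : Sim H y₂ y := hy₂.2
  have t1 : ∀ a b, Ty H x y a b → Ty H x y a b ∨ Ty H z y a b := fun a b h => Or.inl h
  have t2 : ∀ a b, Ty H x y₂ a b → Ty H x y a b ∨ Ty H z y a b := fun a b h =>
    Or.inl ((ty_congr (sim_refl H x) hsy a b).1 h)
  have t3 : ∀ a b, Ty H y x a b → Ty H x y a b ∨ Ty H z y a b := fun a b h =>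
    Or.inl (Or.symm h)
  have t4 : ∀ a b, Ty H y z a b → Ty H x y a b ∨ Ty H z y a b := fun a b h =>
    Or.inr (Or.symm h)
  refine ⟨K, P x, u₁, u₂, P y, w, z', ?_, hU x, hU y, hπ x, hu₁', ?_⟩
  · exact
    { p1 := hu₁
      p2 := hu₂
      q1 := hw
      q2 := hz'
      ne1 := hun
      ne2 := hwn
      s12 := by rw [hu₂', hu₁']; exact hsy
      sq := by rw [hπ, hu₁']; exact sim_refl H y
      sw := by rw [hw', hπ]; exact sim_refl H x
      s1 := str_one hM (r := (P x, u₁)) hu₁ (by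
        show CutOK H (Ty H (K.π (P x)) (K.π u₁))
        rw [hπ, hu₁']
        exact hP.mono t1)
      s2 := str_one hM (r := (P x, u₂)) hu₂ (by
        show CutOK H (Ty H (K.π (P x)) (K.π u₂))
        rw [hπ, hu₂']
        exact hP.mono t2)
      s3 := str_one hM (r := (w, P y)) hw.symm (by
        show CutOK H (Ty H (K.π w) (K.π (P y)))
        rw [hπ, hw']
        exact hP.mono t1)
      s4 := str_one hM (r := (z', P y)) hz'.symm (by
        show CutOK H (Ty H (K.π z') (K.π (P y)))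
        rw [hπ, hz'']
        exact hP.mono fun a b h => Or.inr h)
      tail := fun cut f φ hcut h => sw_tail hM hu₁ hu₂ hun (by
        rw [hπ, hu₁', hu₂']
        exact hP.mono fun a b h => h.elim (t1 a b) (t2 a b)) hcut h
      head := fun cut f φ hcut h => sw_head hM hw hz' hwn (by
        rw [hπ, hw', hz'']
        exact hP.mono fun a b h => h.elim (t3 a b) (t4 a b)) hcut h }
  · intro v
    obtain ⟨u, hu⟩ := wideM_deg hP hxy.ne (K.π v)
    obtain ⟨w', hw1, -⟩ := lift_adj K hu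
    exact ⟨w', hw1⟩

theorem wide_hard [Finite V] {x y z : V} (hxy : H.Adj x y) (h3 : 3 ≤ (nbc H x y).ncard)
    (hz : H.Adj y z) (hzx : z ≠ x)
    (hP : CutOK H (fun a b => Ty H x y a b ∨ Ty H z y a b)) : HardH H := by
  classical
  obtain ⟨K, p, u₁, u₂, q, w, z', hWD, hUp, hUq, hpx, huy, hdeg⟩ := wideM_data hxy h3 hz hzx hP
  have hd : 3 ≤ (nbc H (K.π p) (K.π u₁)).ncard := by rw [hpx, huy]; exact h3
  intro L hL
  obtain ⟨φ, hφ, hφ'⟩ := hardk hd hL
  obtain ⟨Rd, hR1, hR2⟩ := pat_red (wPat p u₁ u₂ q w z') (wideM_adj hWD) (wideM_inj hWD) hdeg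
    ((ℕ × V3) × ℕ)
  refine ⟨fun s => Rd ((φ s).map wTup), ?_, fun s => ?_⟩
  · rw [mem_FP_iff]
    refine hR1 _ _ ?_
    refine PT.map' (l := φ) (f := fun v : List Bool × ((ℕ × V3) × (ℕ × V3)) => wTup v.2) hφ ?_
    unfold wTup
    fun_prop
  · obtain ⟨n, G, sg, g1, g2, g3, g4⟩ := hR2 ((φ s).map wTup)
    refine ⟨n, G, g1, ?_⟩
    rw [g4, (hφ' s).2]
    constructor
    · intro hc
      exact wide_complete hWD hUp hUq (φ s) sg g2 (by omega) hc
    · intro hC
      exact wide_sound hWD (φ s) sg g2 g3 (by omega) hC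

end Pool.Agent.H24.GD
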