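import Pool.Agent.H24.GD.Pat
import Pool.Agent.H24.GD.Str

/-!
# JOB GD-7: the pattern for a vertex with three neighbours in one class

Kit vertices: `p` with the neighbours `u₁, u₂` (over the class of `y`), and `q` (over the class of `y`) with the
neighbours `w` (over the class of `x`) and `z`. `X` pieces are cut at the arcs `(p, u₁)`, `(p, u₂)`, `Y` pieces at
the arcs `(w, q)`, `(z, q)`. Hub variables (of the two ends `a, b` of an edge of the graph to be coloured):
`0 = γ a`, `1 = δ a`, `2 = γ b`, `3 = δ b`; auxiliary variables `0, 1, 2, 3 = U₁, U₁', U₂, U₂'`. The pieces are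
`0: Y (U₁, γ a)`, `1: X (U₁, δ a)`, `2: Y (U₁', γ b)`, `3: X (U₁', δ b)`, `4: Y (U₂, γ a)`, `5: Y (U₂', γ b)`,
`6: X (U₂, U₂')`, `7: X (δ a, δ b)`.

`wide_fine`: `fin`: product of finite types. `adj`, `str1`: the four kinds of arcs. `inj`: two slots of one piece
have the arcs `(p, u₁)`, `(p, u₂)` or `(w, q)`, `(z, q)`, which are different, also when reversed. `sim1`, `sim2`:
by `hsg` the two occurrences carry the same variable; going through the table, the slots with an auxiliary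
variable or with `δ` have arcs over `(x, y)` (up to `Sim`), the slots with `γ` have the arc `(z, q)`; the variables
`γ`, `δ` are different as the second components of the codes are `0` and `1`. (`E.get o.1` is the list
`[(a, 0), (a, 1), (b, 0), (b, 1)]` for `(a, b) = D.get _`: `List.get_map` or `List.getElem_map`.)
`wide_two`: the occurrences of the auxiliary variable `i` in the copy `k` are `(k, s)` and `(k, s')` for the two
slots `s ≠ s'` with the symbol `inr i`. If `sg` preserves the variable and joins any two occurrences of a variable in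
one cycle, then it interchanges them: `sg (k, s)` is one of them; if `sg (k, s) = (k, s)` then the cycle of
`(k, s)` is `{(k, s)}`, contradiction. So `sg (k, s) = (k, s')` and `sg.symm (k, s') = (k, s)`, and the same
with `s, s'` interchanged.
-/

namespace Pool.Agent.H24.GD

open Pool.Agent.H24.GC

variable {V : Type} {H : SimpleGraph V}

/-- the kind of a piece: `true` for `X` pieces -/
def wX : Fin 8 → Bool := ![false, true, false, true, false, false, true, true]

/-- the variables of the slots -/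
def wsy : Fin 8 → Bool → Fin 4 ⊕ Fin 4
  | 0, b => if b then Sum.inl 0 else Sum.inr 0
  | 1, b => if b then Sum.inl 1 else Sum.inr 0
  | 2, b => if b then Sum.inl 2 else Sum.inr 1
  | 3, b => if b then Sum.inl 3 else Sum.inr 1
  | 4, b => if b then Sum.inl 0 else Sum.inr 2
  | 5, b => if b then Sum.inl 2 else Sum.inr 3
  | 6, b => if b then Sum.inr 3 else Sum.inr 2
  | 7, b => if b then Sum.inl 3 else Sum.inl 1

/-- the pattern -/
def wPat {W : Type} (p u₁ u₂ q w z : W) : Pat 4 W where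
  Pc := Fin 8
  Sl := Fin 8 × Bool
  Y := Fin 4
  pc := Prod.fst
  ar s := if wX s.1 then (if s.2 then (p, u₂) else (p, u₁)) else (if s.2 then (z, q) else (w, q))
  sy s := wsy s.1 s.2
  finP := inferInstance
  finS := inferInstance
  finY := inferInstance

/-- the tuple of the hub variables of an edge -/
def wTup {β : Type} (e : β × β) : List (β × ℕ) := [(e.1, 0), (e.1, 1), (e.2, 0), (e.2, 1)]

/-- the conditions on the kit -/
structure WD (K : Kit H) (p u₁ u₂ q w z : K.W) : Prop where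
  p1 : K.gr.Adj p u₁
  p2 : K.gr.Adj p u₂
  q1 : K.gr.Adj q w
  q2 : K.gr.Adj q z
  ne1 : u₁ ≠ u₂
  ne2 : w ≠ z
  s12 : Sim H (K.π u₂) (K.π u₁)
  sq : Sim H (K.π q) (K.π u₁)
  sw : Sim H (K.π w) (K.π p)
  s1 : Straight H K.gr K.π (cut1 (p, u₁))
  s2 : Straight H K.gr K.π (cut1 (p, u₂))
  s3 : Straight H K.gr K.π (cut1 (w, q))
  s4 : Straight H K.gr K.π (cut1 (z, q))
  tail : ∀ (cut : K.W → K.W → Prop) (f : K.W → V) (φ : K.W → K.W → V),
    (∀ a b, cut a b ↔ (a, b) = (p, u₁) ∨ (a, b) = (p, u₂)) → PCov H K.gr K.π cut f φ →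
    (av f φ (p, u₁)).1 = f p ∧ (av f φ (p, u₂)).1 = f p ∧ (bv f φ (p, u₁)).1 = f p ∧
      (bv f φ (p, u₂)).1 = f p ∧ (av f φ (p, u₁)).2 ≠ (av f φ (p, u₂)).2 ∧
      H.Adj (f p) (av f φ (p, u₁)).2 ∧ H.Adj (f p) (av f φ (p, u₂)).2
  head : ∀ (cut : K.W → K.W → Prop) (f : K.W → V) (φ : K.W → K.W → V),
    (∀ a b, cut a b ↔ (a, b) = (w, q) ∨ (a, b) = (z, q)) → PCov H K.gr K.π cut f φ →
    (av f φ (w, q)).2 = f q ∧ (av f φ (z, q)).2 = f q ∧ (bv f φ (w, q)).2 = f q ∧
      (bv f φ (z, q)).2 = f q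

/-- the kind of a variable: `γ`, `δ`, auxiliary -/
def WideA_kd : Fin 4 ⊕ Fin 4 → Fin 3
  | Sum.inl j => if (j : ℕ) % 2 = 0 then 0 else 1
  | Sum.inr _ => 2

theorem WideA_tup {β : Type} [Inhabited β] (e : β × β) (j : Fin 4) :
    ((wTup e).getD (j : ℕ) default).2 = (j : ℕ) % 2 := by
  fin_cases j <;> rfl

theorem WideA_get {β : Type} (D : List (β × β)) (k : Fin (D.map wTup).length) :
    ∃ e, (D.map wTup).get k = wTup e := by
  have h := (D.map wTup).get_mem k
  obtain ⟨e, -, he⟩ := List.mem_map.1 h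
  exact ⟨e, he.symm⟩

theorem WideA_var {W : Type} (p u₁ u₂ q w z : W) {β : Type} [Inhabited β] (D : List (β × β))
    (o o' : Fin (D.map wTup).length × (Fin 8 × Bool))
    (h : (wPat p u₁ u₂ q w z).var (D.map wTup) o = (wPat p u₁ u₂ q w z).var (D.map wTup) o') :
    WideA_kd (wsy o.2.1 o.2.2) = WideA_kd (wsy o'.2.1 o'.2.2) := by
  have h' : (Sum.elim (fun j : Fin 4 => Sum.inl (((D.map wTup).get o.1).getD (j : ℕ) default))
      (fun y : Fin 4 => Sum.inr (o.1, y)) (wsy o.2.1 o.2.2) :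
        (β × ℕ) ⊕ (Fin (D.map wTup).length × Fin 4)) =
      Sum.elim (fun j : Fin 4 => Sum.inl (((D.map wTup).get o'.1).getD (j : ℕ) default))
      (fun y : Fin 4 => Sum.inr (o'.1, y)) (wsy o'.2.1 o'.2.2) := h
  obtain ⟨e, he⟩ := WideA_get D o.1
  obtain ⟨e', he'⟩ := WideA_get D o'.1
  rw [he, he'] at h'
  rcases h1 : wsy o.2.1 o.2.2 with j | y <;> rcases h2 : wsy o'.2.1 o'.2.2 with j' | y'
  · rw [h1, h2] at h'
    simp only [Sum.elim_inl, Sum.inl.injEq] at h'
    have h3 := congrArg Prod.snd h'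
    rw [WideA_tup, WideA_tup] at h3
    simp only [WideA_kd, h3]
  · rw [h1, h2] at h'
    simp at h'
  · rw [h1, h2] at h'
    simp at h'
  · rfl

theorem WideA_ar0 {W : Type} (p u₁ u₂ q w z : W) (s : Fin 8 × Bool)
    (h : WideA_kd (wsy s.1 s.2) = 0) : (wPat p u₁ u₂ q w z).ar s = (z, q) := by
  obtain ⟨c, b⟩ := s
  fin_cases c <;> cases b <;> first | rfl | exact absurd h (by decide)

theorem WideA_ar1 {W : Type} (p u₁ u₂ q w z : W) (s : Fin 8 × Bool)
    (h : WideA_kd (wsy s.1 s.2) = 1) : (wPat p u₁ u₂ q w z).ar s = (p, u₁) ∨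
      (wPat p u₁ u₂ q w z).ar s = (p, u₂) := by
  obtain ⟨c, b⟩ := s
  fin_cases c <;> cases b <;>
    first | exact Or.inl rfl | exact Or.inr rfl | exact absurd h (by decide)

theorem WideA_ar2 {W : Type} (p u₁ u₂ q w z : W) (s : Fin 8 × Bool)
    (h : WideA_kd (wsy s.1 s.2) = 2) : (wPat p u₁ u₂ q w z).ar s = (p, u₁) ∨
      (wPat p u₁ u₂ q w z).ar s = (p, u₂) ∨ (wPat p u₁ u₂ q w z).ar s = (w, q) := by
  obtain ⟨c, b⟩ := s
  fin_cases c <;> cases b <;>
    first | exact Or.inl rfl | exact Or.inr (Or.inl rfl) | exact Or.inr (Or.inr rfl) |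
      exact absurd h (by decide)

theorem WideA_sim [Finite V] {K : Kit H} {p u₁ u₂ q w z : K.W} (h : WD K p u₁ u₂ q w z)
    (s s' : Fin 8 × Bool) (hk : WideA_kd (wsy s.1 s.2) = WideA_kd (wsy s'.1 s'.2)) :
    Sim H (K.π ((wPat p u₁ u₂ q w z).ar s).1) (K.π ((wPat p u₁ u₂ q w z).ar s').1) ∧
    Sim H (K.π ((wPat p u₁ u₂ q w z).ar s).2) (K.π ((wPat p u₁ u₂ q w z).ar s').2) := by
  have r : ∀ x, Sim H x x := sim_refl H
  have q2 : Sim H (K.π q) (K.π u₂) := sim_trans h.sq (sim_symm h.s12)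
  have h3 : ∀ x : Fin 3, x = 0 ∨ x = 1 ∨ x = 2 := by decide
  rcases h3 (WideA_kd (wsy s.1 s.2)) with h0 | h0 | h0
  · rw [WideA_ar0 p u₁ u₂ q w z s h0, WideA_ar0 p u₁ u₂ q w z s' (hk ▸ h0)]
    exact ⟨r _, r _⟩
  · rcases WideA_ar1 p u₁ u₂ q w z s h0 with h1 | h1 <;>
      rcases WideA_ar1 p u₁ u₂ q w z s' (hk ▸ h0) with h2 | h2 <;> rw [h1, h2]
    · exact ⟨r _, r _⟩
    · exact ⟨r _, sim_symm h.s12⟩
    · exact ⟨r _, h.s12⟩
    · exact ⟨r _, r _⟩
  · rcases WideA_ar2 p u₁ u₂ q w z s h0 with h1 | h1 | h1 <;>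
      rcases WideA_ar2 p u₁ u₂ q w z s' (hk ▸ h0) with h2 | h2 | h2 <;> rw [h1, h2]
    · exact ⟨r _, r _⟩
    · exact ⟨r _, sim_symm h.s12⟩
    · exact ⟨sim_symm h.sw, sim_symm h.sq⟩
    · exact ⟨r _, h.s12⟩
    · exact ⟨r _, r _⟩
    · exact ⟨sim_symm h.sw, sim_symm q2⟩
    · exact ⟨h.sw, h.sq⟩
    · exact ⟨h.sw, q2⟩
    · exact ⟨r _, r _⟩

theorem WideA_cases {W : Type} (p u₁ u₂ q w z : W) (s : Fin 8 × Bool) :
    (wPat p u₁ u₂ q w z).ar s =
      if wX s.1 then (if s.2 then (p, u₂) else (p, u₁)) else (if s.2 then (z, q) else (w, q)) := rfl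

theorem wide_fine [Finite V] {K : Kit H} {p u₁ u₂ q w z : K.W} (h : WD K p u₁ u₂ q w z)
    {β : Type} [Inhabited β] (D : List (β × β))
    (sg : Equiv.Perm (Fin (D.map wTup).length × (wPat p u₁ u₂ q w z).Sl))
    (hsg : ∀ o, (wPat p u₁ u₂ q w z).var (D.map wTup) (sg o) =
      (wPat p u₁ u₂ q w z).var (D.map wTup) o) :
    Fine K ((wPat p u₁ u₂ q w z).inst (D.map wTup) sg) := by
  refine ⟨?_, ?_, ?_, ?_, ?_, ?_⟩
  · exact (inferInstance : Finite (Fin (D.map wTup).length × (Fin 8 × Bool)))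
  · rintro ⟨k, c, b⟩
    show K.gr.Adj ((wPat p u₁ u₂ q w z).ar (c, b)).1 ((wPat p u₁ u₂ q w z).ar (c, b)).2
    rw [WideA_cases]
    cases wX (c, b).1 <;> cases (c, b).2
    · exact h.q1.symm
    · exact h.q2.symm
    · exact h.p1
    · exact h.p2
  · rintro ⟨k, c, b⟩ ⟨k', c', b'⟩ hpc har
    have hk : k = k' := congrArg Prod.fst hpc
    have hc : c = c' := congrArg Prod.snd hpc
    subst hk hc
    by_cases hb : b = b'
    · rw [hb]
    · exfalso
      have har' : (wPat p u₁ u₂ q w z).ar (c, b) = (wPat p u₁ u₂ q w z).ar (c, b') ∨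
          (wPat p u₁ u₂ q w z).ar (c, b) = ((wPat p u₁ u₂ q w z).ar (c, b')).swap := har
      rw [WideA_cases, WideA_cases] at har'
      dsimp only at har'
      revert har'
      have a1 := h.ne1
      have a2 := h.ne2
      have a3 := h.p1.ne
      have a4 := h.p2.ne
      have a5 := h.q1.ne
      have a6 := h.q2.ne
      cases wX c <;> cases b <;> cases b' <;> simp_all [Prod.ext_iff, eq_comm]
  · rintro o
    exact (WideA_sim h _ _ (WideA_var p u₁ u₂ q w z D (sg o) o (hsg o))).1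
  · rintro o
    exact (WideA_sim h _ _ (WideA_var p u₁ u₂ q w z D (sg o) o (hsg o))).2
  · rintro ⟨k, c, b⟩
    show Straight H K.gr K.π (cut1 ((wPat p u₁ u₂ q w z).ar (c, b)))
    rw [WideA_cases]
    cases wX (c, b).1 <;> cases (c, b).2
    · exact h.s3
    · exact h.s4
    · exact h.s1
    · exact h.s2

/-- the two slots of an auxiliary variable -/
def WideA_A : Fin 4 → Fin 8 × Bool := ![(0, false), (2, false), (4, false), (5, false)]

/-- the two slots of an auxiliary variable -/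
def WideA_B : Fin 4 → Fin 8 × Bool := ![(1, false), (3, false), (6, false), (6, true)]

theorem WideA_slots (i : Fin 4) (s : Fin 8 × Bool) (h : wsy s.1 s.2 = Sum.inr i) :
    s = WideA_A i ∨ s = WideA_B i := by
  obtain ⟨c, b⟩ := s
  revert h
  revert i c b
  decide

theorem WideA_occ {W : Type} (p u₁ u₂ q w z : W) {β : Type} [Inhabited β] (D : List (β × β))
    (o : Fin (D.map wTup).length × (Fin 8 × Bool)) (k : Fin (D.map wTup).length) (i : Fin 4)
    (h : (wPat p u₁ u₂ q w z).var (D.map wTup) o = Sum.inr (k, i)) :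
    o.1 = k ∧ wsy o.2.1 o.2.2 = Sum.inr i := by
  have h' : (Sum.elim (fun j : Fin 4 => Sum.inl (((D.map wTup).get o.1).getD (j : ℕ) default))
      (fun y : Fin 4 => Sum.inr (o.1, y)) (wsy o.2.1 o.2.2) :
        (β × ℕ) ⊕ (Fin (D.map wTup).length × Fin 4)) = Sum.inr (k, i) := h
  rcases h1 : wsy o.2.1 o.2.2 with j | y
  · rw [h1] at h'
    simp at h'
  · rw [h1] at h'
    simp only [Sum.elim_inr, Sum.inr.injEq, Prod.mk.injEq] at h'
    exact ⟨h'.1, by rw [h'.2]⟩

theorem wide_two {W : Type} (p u₁ u₂ q w z : W) {β : Type}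
    [Inhabited β] (D : List (β × β))
    (sg : Equiv.Perm (Fin (D.map wTup).length × (wPat p u₁ u₂ q w z).Sl))
    (hsg : ∀ o, (wPat p u₁ u₂ q w z).var (D.map wTup) (sg o) =
      (wPat p u₁ u₂ q w z).var (D.map wTup) o)
    (hcy : ∀ o o', (wPat p u₁ u₂ q w z).var (D.map wTup) o =
      (wPat p u₁ u₂ q w z).var (D.map wTup) o' → sg.SameCycle o o')
    (k : Fin (D.map wTup).length) (i : Fin 4) (s s' : Fin 8 × Bool) (hne : s ≠ s')
    (hs : wsy s.1 s.2 = Sum.inr i) (hs' : wsy s'.1 s'.2 = Sum.inr i) :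
    sg (k, s) = (k, s') ∧ sg.symm (k, s) = (k, s') := by
  have hv : (wPat p u₁ u₂ q w z).var (D.map wTup) (k, s) = Sum.inr (k, i) := by
    show (Sum.elim (fun j : Fin 4 => Sum.inl (((D.map wTup).get k).getD (j : ℕ) default))
      (fun y : Fin 4 => Sum.inr (k, y)) (wsy s.1 s.2) :
        (β × ℕ) ⊕ (Fin (D.map wTup).length × Fin 4)) = Sum.inr (k, i)
    rw [hs]
    rfl
  have hv' : (wPat p u₁ u₂ q w z).var (D.map wTup) (k, s') = Sum.inr (k, i) := by
    show (Sum.elim (fun j : Fin 4 => Sum.inl (((D.map wTup).get k).getD (j : ℕ) default))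
      (fun y : Fin 4 => Sum.inr (k, y)) (wsy s'.1 s'.2) :
        (β × ℕ) ⊕ (Fin (D.map wTup).length × Fin 4)) = Sum.inr (k, i)
    rw [hs']
    rfl
  have hslot : ∀ t : Fin 8 × Bool, wsy t.1 t.2 = Sum.inr i → t = s ∨ t = s' := by
    intro t ht
    rcases WideA_slots i t ht with h1 | h1 <;> rcases WideA_slots i s hs with h2 | h2 <;>
      rcases WideA_slots i s' hs' with h3 | h3
    · exact absurd (h2.trans h3.symm) hne
    · exact Or.inl (h1.trans h2.symm)
    · exact Or.inr (h1.trans h3.symm)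
    · exact absurd (h2.trans h3.symm) hne
    · exact absurd (h2.trans h3.symm) hne
    · exact Or.inr (h1.trans h3.symm)
    · exact Or.inl (h1.trans h2.symm)
    · exact absurd (h2.trans h3.symm) hne
  have hocc : ∀ o : Fin (D.map wTup).length × (Fin 8 × Bool),
      (wPat p u₁ u₂ q w z).var (D.map wTup) o = Sum.inr (k, i) → o = (k, s) ∨ o = (k, s') := by
    rintro ⟨k', t⟩ ho
    obtain ⟨h1, h2⟩ := WideA_occ p u₁ u₂ q w z D _ k i ho
    have h1' : k' = k := h1
    rcases hslot t h2 with h3 | h3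
    · exact Or.inl (by rw [h1', h3])
    · exact Or.inr (by rw [h1', h3])
  have hnf : sg (k, s) ≠ (k, s) := by
    intro hf
    have h1 := (hcy (k, s) (k, s') (hv.trans hv'.symm)).eq_of_left hf
    exact hne (congrArg Prod.snd h1)
  constructor
  · rcases hocc (sg (k, s)) ((hsg (k, s)).trans hv) with h1 | h1
    · exact absurd h1 hnf
    · exact h1
  · have h0 : (wPat p u₁ u₂ q w z).var (D.map wTup) (sg.symm (k, s)) = Sum.inr (k, i) := by
      have h2 := hsg (sg.symm (k, s))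
      rw [Equiv.apply_symm_apply] at h2
      exact h2.symm.trans hv
    rcases hocc (sg.symm (k, s)) h0 with h1 | h1
    · exfalso
      apply hnf
      have h2 := congrArg sg h1
      rw [Equiv.apply_symm_apply] at h2
      exact h2.symm
    · exact h1

end Pool.Agent.H24.GD
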