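import Pool.Agent.H24.GD.WideA
import Pool.Agent.H24.GC.Star
import Pool.Agent.H79.Thr.ColK

/-!
# JOB GD-8: a cover gives a colouring

`wide_sound`. Take `a'` and the partial covers from `core_fwd` (`wide_fine`). The cut of the piece `(k, c)` is
`∃ s, s.1 = c ∧ ar s = (a, b)`, so `(p, u₁), (p, u₂)` for `X` pieces (`WD.tail` applies) and `(w, q), (z, q)` for
`Y` pieces (`WD.head`). For the slot `o = (k, (c, i))` the value `av` of its arc is `a' o` and `bv` is
`a' (sg.symm o)`. So: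
(X) for an `X` piece `c` the four values `a' o`, `a' (sg.symm o)`, `o = (k, (c, false)), (k, (c, true))` have the
same first component `t`, `t` is adjacent to the second components of `a' (k, (c, false))`, `a' (k, (c, true))`,
and these are different;
(Y) for a `Y` piece the four values have the same second component.
The variable `γ` of a vertex `v` of the graph to be coloured (code `(v, 0)`) occurs only in `Y` pieces, in the
slots `(_, true)`. So the second component of `a'` is the same at `o` and `sg.symm o` for its occurrences, so it is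
the same for all its occurrences (`const_of_cycle`, file `Pool.Agent.H24.GC.Cyc`, with `good = True` and
the function `o ↦ (a' o).2` if `o` is an occurrence of a variable `γ` and a constant otherwise; or induction along the
cycle). Let it be `h v`. In the same way `δ` (code `(v, 1)`) occurs only in `X` pieces, and the first
component of `a'` at its occurrences is a value `t v`.
Let `e = D.get k = (a, b)`. The auxiliary variable `U₁` occurs in the slots `(0, false)` (`Y`) and `(1, false)`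
(`X`). By `wide_two` `sg.symm (k, (0, false)) = (k, (1, false))`. By (Y) for piece `0` the second
component of `a' (sg.symm (k, (0, false))) = a' (k, (1, false))` is the one of `a' (k, (0, true))`, which is
`h a`. By (X) for piece `1`: `t a` (the first component of `a' (k, (1, true))`) is adjacent to the second component
of `a' (k, (1, false))`, so `H.Adj (t a) (h a)`. In the same way `H.Adj (t b) (h b)` (pieces `2`, `3`).
`U₂`: slots `(4, false)`, `(6, false)`; the second component of `a' (k, (6, false))` is `h a`; the one of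
`a' (k, (6, true))` is `h b` (`U₂'`: slots `(5, false)`, `(6, true)`). By (X) for piece `6`: `h a ≠ h b`. By (X)
for piece `7`: `t a = t b`.
Classes: `Sim H (t a) (K.π p)` and `Sim H (h a) (K.π u₁)` (`PCov.simf`, `PCov.simp`; `a' (k, (1, false))` is the
value `av` of the arc `(p, u₁)`). So `h a ∈ nbc H (t a) (K.π u₁)`. Take `β` from `exists_beta` (file
`Pool.Agent.H24.GC.Star`) for `x₀ = K.π p`, `y₀ = K.π u₁`; the colouring is `v ↦ β (t v, h v)`.
-/

namespace Pool.Agent.H24.GD

open Pool.Agent.H24.GC Pool.Agent.H79.Thr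

variable {V : Type} {H : SimpleGraph V}

theorem WideS_kd {W : Type} (p u₁ u₂ q w z : W) {β : Type} [Inhabited β] (D : List (β × β))
    (o : Fin (D.map wTup).length × (Fin 8 × Bool)) (v : β) (m : ℕ)
    (h : (wPat p u₁ u₂ q w z).var (D.map wTup) o = Sum.inl (v, m)) :
    (m = 0 → wX o.2.1 = false) ∧ (m = 1 → wX o.2.1 = true) := by
  have h' : (Sum.elim (fun j : Fin 4 => Sum.inl (((D.map wTup).get o.1).getD (j : ℕ) default))
      (fun y : Fin 4 => Sum.inr (o.1, y)) (wsy o.2.1 o.2.2) :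
        (β × ℕ) ⊕ (Fin (D.map wTup).length × Fin 4)) = Sum.inl (v, m) := h
  obtain ⟨e, he⟩ := WideA_get D o.1
  rw [he] at h'
  rcases h1 : wsy o.2.1 o.2.2 with j | y
  · rw [h1] at h'
    simp only [Sum.elim_inl, Sum.inl.injEq] at h'
    have h3 := congrArg Prod.snd h'
    rw [WideA_tup] at h3
    have h4 : (j : ℕ) % 2 = m := h3
    have key : ∀ (c : Fin 8) (b : Bool) (j : Fin 4), wsy c b = Sum.inl j →
        ((j : ℕ) % 2 = 0 → wX c = false) ∧ ((j : ℕ) % 2 = 1 → wX c = true) := by decide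
    have h5 := key _ _ _ h1
    rw [h4] at h5
    exact h5
  · rw [h1] at h'
    simp at h'

/-- the values of the occurrences -/
theorem WideS_X [Finite V] {K : Kit H} {p u₁ u₂ q w z : K.W} (h : WD K p u₁ u₂ q w z) {N : ℕ}
    (sg : Equiv.Perm (Fin N × (Fin 8 × Bool))) (a' : Fin N × (Fin 8 × Bool) → V × V)
    (k : Fin N) (c : Fin 8) (hc : wX c = true) (f : K.W → V) (φ : K.W → K.W → V)
    (hP : PCov H K.gr K.π (fun x y => ∃ o : Fin N × (Fin 8 × Bool), (o.1, o.2.1) = (k, c) ∧
      (wPat p u₁ u₂ q w z).ar o.2 = (x, y)) f φ)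
    (hv : ∀ o : Fin N × (Fin 8 × Bool), (o.1, o.2.1) = (k, c) →
      av f φ ((wPat p u₁ u₂ q w z).ar o.2) = a' o ∧
      bv f φ ((wPat p u₁ u₂ q w z).ar o.2) = a' (sg.symm o)) :
    ∃ t, (∀ b, (a' (k, (c, b))).1 = t ∧ (a' (sg.symm (k, (c, b)))).1 = t) ∧
      (∀ b, H.Adj t (a' (k, (c, b))).2 ∧ Sim H (a' (k, (c, b))).2 (K.π u₁)) ∧
      (a' (k, (c, false))).2 ≠ (a' (k, (c, true))).2 ∧ Sim H t (K.π p) := by
  have har : ∀ b : Bool, (wPat p u₁ u₂ q w z).ar (c, b) = if b then (p, u₂) else (p, u₁) := by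
    intro b
    rw [WideA_cases]
    simp only [hc, if_true]
  have hcut : ∀ x y, (∃ o : Fin N × (Fin 8 × Bool), (o.1, o.2.1) = (k, c) ∧
      (wPat p u₁ u₂ q w z).ar o.2 = (x, y)) ↔ (x, y) = (p, u₁) ∨ (x, y) = (p, u₂) := by
    intro x y
    constructor
    · rintro ⟨⟨k', c', b⟩, h1, h2⟩
      have h3 : c' = c := congrArg Prod.snd h1
      subst h3
      rw [har b] at h2
      cases b
      · exact Or.inl h2.symm
      · exact Or.inr h2.symm
    · rintro (h1 | h1)
      · exact ⟨(k, (c, false)), rfl, (har false).trans h1.symm⟩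
      · exact ⟨(k, (c, true)), rfl, (har true).trans h1.symm⟩
  obtain ⟨e1, e2, e3, e4, e5, e6, e7⟩ := h.tail _ f φ hcut hP
  obtain ⟨g1, g2⟩ := hv (k, (c, false)) rfl
  obtain ⟨g3, g4⟩ := hv (k, (c, true)) rfl
  have g1' : av f φ (p, u₁) = a' (k, (c, false)) := by
    have := har false
    rw [← g1]
    exact (congrArg (av f φ) this).symm
  have g2' : bv f φ (p, u₁) = a' (sg.symm (k, (c, false))) := by
    rw [← g2]
    exact (congrArg (bv f φ) (har false)).symm
  have g3' : av f φ (p, u₂) = a' (k, (c, true)) := by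
    rw [← g3]
    exact (congrArg (av f φ) (har true)).symm
  have g4' : bv f φ (p, u₂) = a' (sg.symm (k, (c, true))) := by
    rw [← g4]
    exact (congrArg (bv f φ) (har true)).symm
  have s1 : Sim H (av f φ (p, u₁)).2 (K.π u₁) := hP.simp p u₁ h.p1
  have s2 : Sim H (av f φ (p, u₂)).2 (K.π u₁) := sim_trans (hP.simp p u₂ h.p2) h.s12
  rw [g1', g3'] at e5
  rw [g1'] at e1 e6 s1
  rw [g2'] at e3
  rw [g3'] at e2 e7 s2
  rw [g4'] at e4
  refine ⟨f p, ?_, ?_, e5, hP.simf p⟩
  · intro b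
    cases b
    · exact ⟨e1, e3⟩
    · exact ⟨e2, e4⟩
  · intro b
    cases b
    · exact ⟨e6, s1⟩
    · exact ⟨e7, s2⟩

theorem WideS_Y [Finite V] {K : Kit H} {p u₁ u₂ q w z : K.W} (h : WD K p u₁ u₂ q w z) {N : ℕ}
    (sg : Equiv.Perm (Fin N × (Fin 8 × Bool))) (a' : Fin N × (Fin 8 × Bool) → V × V)
    (k : Fin N) (c : Fin 8) (hc : wX c = false) (f : K.W → V) (φ : K.W → K.W → V)
    (hP : PCov H K.gr K.π (fun x y => ∃ o : Fin N × (Fin 8 × Bool), (o.1, o.2.1) = (k, c) ∧
      (wPat p u₁ u₂ q w z).ar o.2 = (x, y)) f φ)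
    (hv : ∀ o : Fin N × (Fin 8 × Bool), (o.1, o.2.1) = (k, c) →
      av f φ ((wPat p u₁ u₂ q w z).ar o.2) = a' o ∧
      bv f φ ((wPat p u₁ u₂ q w z).ar o.2) = a' (sg.symm o)) :
    ∃ t, ∀ b, (a' (k, (c, b))).2 = t ∧ (a' (sg.symm (k, (c, b)))).2 = t := by
  have har : ∀ b : Bool, (wPat p u₁ u₂ q w z).ar (c, b) = if b then (z, q) else (w, q) := by
    intro b
    rw [WideA_cases]
    simp only [hc, Bool.false_eq_true, if_false]
  have hcut : ∀ x y, (∃ o : Fin N × (Fin 8 × Bool), (o.1, o.2.1) = (k, c) ∧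
      (wPat p u₁ u₂ q w z).ar o.2 = (x, y)) ↔ (x, y) = (w, q) ∨ (x, y) = (z, q) := by
    intro x y
    constructor
    · rintro ⟨⟨k', c', b⟩, h1, h2⟩
      have h3 : c' = c := congrArg Prod.snd h1
      subst h3
      rw [har b] at h2
      cases b
      · exact Or.inl h2.symm
      · exact Or.inr h2.symm
    · rintro (h1 | h1)
      · exact ⟨(k, (c, false)), rfl, (har false).trans h1.symm⟩
      · exact ⟨(k, (c, true)), rfl, (har true).trans h1.symm⟩
  obtain ⟨e1, e2, e3, e4⟩ := h.head _ f φ hcut hP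
  obtain ⟨g1, g2⟩ := hv (k, (c, false)) rfl
  obtain ⟨g3, g4⟩ := hv (k, (c, true)) rfl
  have g1' : av f φ (w, q) = a' (k, (c, false)) := by
    rw [← g1]
    exact (congrArg (av f φ) (har false)).symm
  have g2' : bv f φ (w, q) = a' (sg.symm (k, (c, false))) := by
    rw [← g2]
    exact (congrArg (bv f φ) (har false)).symm
  have g3' : av f φ (z, q) = a' (k, (c, true)) := by
    rw [← g3]
    exact (congrArg (av f φ) (har true)).symm
  have g4' : bv f φ (z, q) = a' (sg.symm (k, (c, true))) := by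
    rw [← g4]
    exact (congrArg (bv f φ) (har true)).symm
  rw [g1'] at e1
  rw [g2'] at e3
  rw [g3'] at e2
  rw [g4'] at e4
  refine ⟨f q, ?_⟩
  intro b
  cases b
  · exact ⟨e1, e3⟩
  · exact ⟨e2, e4⟩

/-- a function that is constant along the cycles of the occurrences of a variable -/
theorem WideS_const {O Z : Type} [Finite O] {sg : Equiv.Perm O} {vr : O → Z} (y : Z)
    (hcy : ∀ o o', vr o = vr o' → sg.SameCycle o o') (hsg : ∀ o, vr (sg o) = vr o)
    (F : O → V) (hF : ∀ o, vr o = y → F (sg o) = F o) (v₀ : V) :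
    ∃ t, ∀ o, vr o = y → F o = t := by
  classical
  by_cases hex : ∃ o, vr o = y
  · obtain ⟨o₀, ho₀⟩ := hex
    refine ⟨F o₀, fun o ho => ?_⟩
    have h1 : (fun o => if vr o = y then F o else v₀) o = (fun o => if vr o = y then F o else v₀) o₀ := by
      refine const_of_cycle (sg := sg) (a := fun o => if vr o = y then F o else v₀)
        (good := fun _ => True) ?_ ?_ (hcy o o₀ (ho.trans ho₀.symm))
      · intro o' _
        show (if vr (sg o') = y then F (sg o') else v₀) = if vr o' = y then F o' else v₀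
        rw [hsg o']
        by_cases h2 : vr o' = y
        · rw [if_pos h2, if_pos h2, hF o' h2]
        · rw [if_neg h2, if_neg h2]
      · intro o1 o2 _ h2
        exact absurd trivial h2
    have h2 : (if vr o = y then F o else v₀) = if vr o₀ = y then F o₀ else v₀ := h1
    rwa [if_pos ho, if_pos ho₀] at h2
  · exact ⟨v₀, fun o ho => absurd ⟨o, ho⟩ hex⟩

theorem wide_sound [Finite V] {K : Kit H} {p u₁ u₂ q w z : K.W} (h : WD K p u₁ u₂ q w z) {β : Type}
    [Inhabited β] (D : List (β × β))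
    (sg : Equiv.Perm (Fin (D.map wTup).length × (wPat p u₁ u₂ q w z).Sl))
    (hsg : ∀ o, (wPat p u₁ u₂ q w z).var (D.map wTup) (sg o) =
      (wPat p u₁ u₂ q w z).var (D.map wTup) o)
    (hcy : ∀ o o', (wPat p u₁ u₂ q w z).var (D.map wTup) o =
      (wPat p u₁ u₂ q w z).var (D.map wTup) o' → sg.SameCycle o o')
    (hd : 0 < (nbc H (K.π p) (K.π u₁)).ncard)
    (hC : Covers (((wPat p u₁ u₂ q w z).inst (D.map wTup) sg).graph K.gr) H) :
    EColourable (nbc H (K.π p) (K.π u₁)).ncard D := by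
  obtain ⟨a', hp⟩ := core_fwd (wide_fine h D sg hsg) hC
  have hp' : ∀ (k : Fin (D.map wTup).length) (c : Fin 8), ∃ (f : K.W → V) (φ : K.W → K.W → V),
      PCov H K.gr K.π (fun x y => ∃ o : Fin (D.map wTup).length × (Fin 8 × Bool),
        (o.1, o.2.1) = (k, c) ∧ (wPat p u₁ u₂ q w z).ar o.2 = (x, y)) f φ ∧
      ∀ o : Fin (D.map wTup).length × (Fin 8 × Bool), (o.1, o.2.1) = (k, c) →
        av f φ ((wPat p u₁ u₂ q w z).ar o.2) = a' o ∧
        bv f φ ((wPat p u₁ u₂ q w z).ar o.2) = a' (sg.symm o) := fun k c => hp (k, c)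
  have hX : ∀ (k : Fin (D.map wTup).length) (c : Fin 8), wX c = true →
      ∃ t, (∀ b, (a' (k, (c, b))).1 = t ∧ (a' (sg.symm (k, (c, b)))).1 = t) ∧
      (∀ b, H.Adj t (a' (k, (c, b))).2 ∧ Sim H (a' (k, (c, b))).2 (K.π u₁)) ∧
      (a' (k, (c, false))).2 ≠ (a' (k, (c, true))).2 ∧ Sim H t (K.π p) := by
    intro k c hc
    obtain ⟨f, φ, h1, h2⟩ := hp' k c
    exact WideS_X h sg a' k c hc f φ h1 h2
  have hY : ∀ (k : Fin (D.map wTup).length) (c : Fin 8), wX c = false →
      ∃ t, ∀ b, (a' (k, (c, b))).2 = t ∧ (a' (sg.symm (k, (c, b)))).2 = t := by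
    intro k c hc
    obtain ⟨f, φ, h1, h2⟩ := hp' k c
    exact WideS_Y h sg a' k c hc f φ h1 h2
  have hfin : Finite (Fin (D.map wTup).length × (wPat p u₁ u₂ q w z).Sl) :=
    (inferInstance : Finite (Fin (D.map wTup).length × (Fin 8 × Bool)))
  -- the values of the variables of the vertices
  have hg : ∀ v : β, ∃ t, ∀ o, (wPat p u₁ u₂ q w z).var (D.map wTup) o = Sum.inl (v, 0) →
      (a' o).2 = t := by
    intro v
    refine WideS_const (sg := sg) (Sum.inl (v, 0)) hcy hsg (fun o => (a' o).2) ?_ (K.π p)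
    intro o ho
    have h0 := (WideS_kd p u₁ u₂ q w z D (sg o) v 0 ((hsg o).trans ho)).1 rfl
    obtain ⟨t, ht⟩ := hY (sg o).1 (sg o).2.1 h0
    have h1 : (a' (sg o)).2 = t := (ht (sg o).2.2).1
    have h2 : (a' (sg.symm (sg o))).2 = t := (ht (sg o).2.2).2
    rw [Equiv.symm_apply_apply] at h2
    exact h1.trans h2.symm
  have hδ : ∀ v : β, ∃ t, ∀ o, (wPat p u₁ u₂ q w z).var (D.map wTup) o = Sum.inl (v, 1) →
      (a' o).1 = t := by
    intro v
    refine WideS_const (sg := sg) (Sum.inl (v, 1)) hcy hsg (fun o => (a' o).1) ?_ (K.π p)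
    intro o ho
    have h0 := (WideS_kd p u₁ u₂ q w z D (sg o) v 1 ((hsg o).trans ho)).2 rfl
    obtain ⟨t, ht, -⟩ := hX (sg o).1 (sg o).2.1 h0
    have h1 : (a' (sg o)).1 = t := (ht (sg o).2.2).1
    have h2 : (a' (sg.symm (sg o))).1 = t := (ht (sg o).2.2).2
    rw [Equiv.symm_apply_apply] at h2
    exact h1.trans h2.symm
  choose hh hh' using hg
  choose tt tt' using hδ
  obtain ⟨bt, hbt⟩ := exists_beta (H := H) (x₀ := K.π p) (y₀ := K.π u₁) hd
  refine ⟨fun v => bt (tt v, hh v), ?_⟩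
  rintro ⟨a, b⟩ hab
  obtain ⟨k, hk⟩ := List.mem_iff_get.1 (List.mem_map_of_mem (f := wTup) hab)
  have hvar : ∀ (s : Fin 8 × Bool) (j : Fin 4), wsy s.1 s.2 = Sum.inl j →
      (wPat p u₁ u₂ q w z).var (D.map wTup) (k, s) = Sum.inl ((wTup (a, b)).getD (j : ℕ) default) := by
    intro s j hs
    show (Sum.elim (fun j : Fin 4 => Sum.inl (((D.map wTup).get k).getD (j : ℕ) default))
      (fun y : Fin 4 => Sum.inr (k, y)) (wsy s.1 s.2) :
        (β × ℕ) ⊕ (Fin (D.map wTup).length × Fin 4)) = _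
    rw [hs, hk]
    rfl
  have v0 := hh' a _ (hvar (0, true) 0 rfl)
  have v1 := tt' a _ (hvar (1, true) 1 rfl)
  have v2 := hh' b _ (hvar (2, true) 2 rfl)
  have v3 := tt' b _ (hvar (3, true) 3 rfl)
  have v4 := hh' a _ (hvar (4, true) 0 rfl)
  have v5 := hh' b _ (hvar (5, true) 2 rfl)
  have v7 := tt' b _ (hvar (7, true) 3 rfl)
  have v7' := tt' a _ (hvar (7, false) 1 rfl)
  have w0 := (wide_two p u₁ u₂ q w z D sg hsg hcy k 0 (0, false) (1, false) (by decide) rfl rfl).2
  have w1 := (wide_two p u₁ u₂ q w z D sg hsg hcy k 1 (2, false) (3, false) (by decide) rfl rfl).2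
  have w2 := (wide_two p u₁ u₂ q w z D sg hsg hcy k 2 (4, false) (6, false) (by decide) rfl rfl).2
  have w3 := (wide_two p u₁ u₂ q w z D sg hsg hcy k 3 (5, false) (6, true) (by decide) rfl rfl).2
  obtain ⟨t0, ht0⟩ := hY k 0 rfl
  obtain ⟨t2, ht2⟩ := hY k 2 rfl
  obtain ⟨t4, ht4⟩ := hY k 4 rfl
  obtain ⟨t5, ht5⟩ := hY k 5 rfl
  obtain ⟨t1, g1, g1', -, g1''⟩ := hX k 1 rfl
  obtain ⟨t3, g3, g3', -, g3''⟩ := hX k 3 rfl
  obtain ⟨t6, -, -, g6, -⟩ := hX k 6 rfl
  obtain ⟨t7, g7, -, -, -⟩ := hX k 7 rfl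
  have e1 : (a' (k, (1, false))).2 = hh a := by
    rw [← v0, (ht0 true).1, ← (ht0 false).2, w0]
    rfl
  have e3 : (a' (k, (3, false))).2 = hh b := by
    rw [← v2, (ht2 true).1, ← (ht2 false).2, w1]
    rfl
  have e6 : (a' (k, (6, false))).2 = hh a := by
    rw [← v4, (ht4 true).1, ← (ht4 false).2, w2]
    rfl
  have e6' : (a' (k, (6, true))).2 = hh b := by
    rw [← v5, (ht5 true).1, ← (ht5 false).2, w3]
    rfl
  have et1 : t1 = tt a := (g1 true).1.symm.trans v1
  have et3 : t3 = tt b := (g3 true).1.symm.trans v3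
  have et : tt a = tt b := by
    rw [← v7', ← v7, (g7 false).1, (g7 true).1]
  have hne : hh a ≠ hh b := by
    rw [← e6, ← e6']
    exact g6
  have ha := g1' false
  rw [e1, et1] at ha
  have hb := g3' false
  rw [e3, et3, ← et] at hb
  rw [et1] at g1''
  show bt (tt a, hh a) ≠ bt (tt b, hh b)
  rw [← et]
  exact hbt (tt a) (hh a) (hh b) g1'' ha hb hne

end Pool.Agent.H24.GD
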